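import Pool.Agent.LapEn.Defs

/-! # ISO: transport of a projection along a graph isomorphism -/

open Finset Matrix

namespace LapEn

variable {V W : Type*} [Fintype V] [DecidableEq V] [Fintype W] [DecidableEq W]
variable {P : Matrix W W ℝ} {k : ℕ}

theorem IsPr.reindex (h : IsPr P k) (e : V ≃ W) : IsPr (fun u v => P (e u) (e v)) k where
  symm u v := h.symm _ _
  idem u v := by
    rw [← h.idem (e u) (e v)]
    exact Equiv.sum_comp e (fun w => P (e u) w * P w (e v))
  tr := by
    rw [← h.tr]
    exact Equiv.sum_comp e (fun w => P w w)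
  one u := by
    rw [← h.one (e u)]
    exact Equiv.sum_comp e (fun w => P (e u) w)

theorem F2_iso {G : SimpleGraph V} {H : SimpleGraph W} (e : G ≃g H) (P : Matrix W W ℝ) (θ : ℝ) :
    F2 G (fun u v => P (e u) (e v)) θ = F2 H P θ := by
  classical
  unfold F2
  rw [← Equiv.sum_comp e.toEquiv (fun u => ∑ v, if H.Adj u v then dd P u v - θ else 0)]
  refine Finset.sum_congr rfl fun u _ => ?_
  rw [← Equiv.sum_comp e.toEquiv (fun v => if H.Adj (e.toEquiv u) v then dd P (e.toEquiv u) v - θ
    else 0)]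
  refine Finset.sum_congr rfl fun v _ => ?_
  have h1 : H.Adj (e.toEquiv u) (e.toEquiv v) ↔ G.Adj u v := e.map_rel_iff'
  by_cases h2 : G.Adj u v
  · rw [if_pos h2, if_pos (h1.2 h2)]
    rfl
  · rw [if_neg h2, if_neg (fun h3 => h2 (h1.1 h3))]

end LapEn
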