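import Pool.Agent.LapEn.Lap

/-! # PINEB: a projection for the pineapple -/

open Finset Matrix

namespace LapEn

/-- indicator of the vertex `0` -/
noncomputable def pinE (n : ℕ) (u : Fin n) : ℝ := if u.val = 0 then 1 else 0

/-- indicator of the vertices `1, ..., k` -/
noncomputable def pinX (n k : ℕ) (u : Fin n) : ℝ := if 1 ≤ u.val ∧ u.val ≤ k then 1 else 0

/-- the projection -/
noncomputable def pinP (n k : ℕ) : Matrix (Fin n) (Fin n) ℝ := fun u v =>
  (n * pinE n u - 1) * (n * pinE n v - 1) / (n * (n - 1))
    + (if u = v then pinX n k u else 0) - pinX n k u * pinX n k v / k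

theorem sum_pinE {n : ℕ} (hn : 0 < n) : ∑ u, pinE n u = 1 := by
  unfold pinE
  rw [Finset.sum_ite, Finset.sum_const_zero, add_zero, Finset.sum_const, nsmul_eq_mul, mul_one]
  have : (univ.filter fun u : Fin n => u.val = 0) = {⟨0, hn⟩} := by
    ext u; simp [Fin.ext_iff]
  rw [this]; simp

theorem sum_pinX {n k : ℕ} (hkn : k < n) : ∑ u, pinX n k u = k := by
  unfold pinX
  rw [Finset.sum_ite, Finset.sum_const_zero, add_zero, Finset.sum_const, nsmul_eq_mul, mul_one]
  have h1 : (univ.filter fun u : Fin n => 1 ≤ u.val ∧ u.val ≤ k).card = (Finset.Icc 1 k).card := by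
    refine Finset.card_bij (fun u _ => u.val) ?_ ?_ ?_
    · intro u hu
      rw [mem_filter] at hu
      rw [mem_Icc]; exact hu.2
    · intro u _ v _ h
      exact Fin.ext h
    · intro b hb
      rw [mem_Icc] at hb
      exact ⟨⟨b, by omega⟩, by simp [hb], rfl⟩
  rw [h1]; simp

theorem pinE_sq {n : ℕ} (u : Fin n) : pinE n u * pinE n u = pinE n u := by
  unfold pinE; split_ifs <;> simp

theorem pinX_sq {n k : ℕ} (u : Fin n) : pinX n k u * pinX n k u = pinX n k u := by
  unfold pinX; split_ifs <;> simp

theorem pinE_pinX {n k : ℕ} (u : Fin n) : pinE n u * pinX n k u = 0 := by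
  unfold pinE pinX
  by_cases h : u.val = 0
  · simp [h]
  · simp [h]

theorem pineapple_low {n k : ℕ} (hk : 1 ≤ k) (hkn : k < n) :
    ∃ P : Matrix (Fin n) (Fin n) ℝ, IsPr P k ∧
      F2 (pineapple n (k + 1)) P (2 * k / n) = Phi2 n k := by
  have hn : 0 < n := by omega
  have hE := sum_pinE hn
  have hX := sum_pinX hkn
  have hn' : (n : ℝ) ≠ 0 := by exact_mod_cast hn.ne'
  have hn1 : (n : ℝ) - 1 ≠ 0 := by
    have : (2 : ℝ) ≤ n := by exact_mod_cast (by omega : 2 ≤ n)
    linarith
  have hk' : (k : ℝ) ≠ 0 := by exact_mod_cast (by omega : k ≠ 0)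
  have hcard : ∑ _u : Fin n, (1 : ℝ) = n := by simp
  have hA : ∑ u, ((n : ℝ) * pinE n u - 1) = 0 := by
    rw [sum_sub_distrib, ← mul_sum, hE, hcard]; ring
  have hAA : ∑ u, ((n : ℝ) * pinE n u - 1) * (n * pinE n u - 1) = n * (n - 1) := by
    have : ∀ u, ((n : ℝ) * pinE n u - 1) * (n * pinE n u - 1) = (n * n - 2 * n) * pinE n u + 1 := by
      intro u
      linear_combination (n : ℝ) * n * pinE_sq u
    rw [sum_congr rfl fun u _ => this u, sum_add_distrib, ← mul_sum, hE, hcard]; ring
  have hAX' : ∀ u, ((n : ℝ) * pinE n u - 1) * pinX n k u = - pinX n k u := by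
    intro u
    linear_combination (n : ℝ) * pinE_pinX (k := k) u
  have hAX : ∑ u, ((n : ℝ) * pinE n u - 1) * pinX n k u = -k := by
    rw [sum_congr rfl fun u _ => hAX' u, sum_neg_distrib, hX]
  refine ⟨pinP n k, ⟨?_, ?_, ?_, ?_⟩, ?_⟩
  · intro u v
    unfold pinP
    by_cases h : u = v
    · subst h; rfl
    · rw [if_neg h, if_neg (fun h' => h h'.symm)]; ring
  · intro u v
    have hterm : ∀ w, pinP n k u w * pinP n k w v
        = ((n : ℝ) * pinE n u - 1) * (n * pinE n v - 1) / (n * (n - 1)) ^ 2
            * (((n : ℝ) * pinE n w - 1) * (n * pinE n w - 1))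
          + (if w = v then ((n : ℝ) * pinE n u - 1) * ((n * pinE n v - 1) * pinX n k v) / (n * (n - 1)) else 0)
          - ((n : ℝ) * pinE n u - 1) * pinX n k v / (n * (n - 1) * k)
            * (((n : ℝ) * pinE n w - 1) * pinX n k w)
          + (if u = w then (((n : ℝ) * pinE n u - 1) * pinX n k u) * (n * pinE n v - 1) / (n * (n - 1)) else 0)
          + (if u = w then (if w = v then pinX n k u * pinX n k u else 0) else 0)
          - (if u = w then (pinX n k u * pinX n k u) * pinX n k v / k else 0)
          - pinX n k u * (n * pinE n v - 1) / (n * (n - 1) * k)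
            * (((n : ℝ) * pinE n w - 1) * pinX n k w)
          - (if w = v then pinX n k u * (pinX n k v * pinX n k v) / k else 0)
          + pinX n k u * pinX n k v / k ^ 2 * (pinX n k w * pinX n k w) := by
      intro w
      unfold pinP
      by_cases h1 : u = w
      · subst h1
        by_cases h2 : u = v
        · subst h2
          simp only [if_true]
          field_simp
          ring
        · simp only [if_true, if_neg h2]
          field_simp
          ring
      · by_cases h2 : w = v
        · subst h2
          simp only [if_true, if_neg h1]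
          field_simp
          ring
        · simp only [if_neg h1, if_neg h2]
          field_simp
          ring
    rw [sum_congr rfl fun w _ => hterm w]
    simp only [sum_add_distrib, sum_sub_distrib, ← mul_sum, sum_ite_eq, sum_ite_eq', mem_univ,
      if_true, hAA, hAX]
    simp only [pinX_sq, hX, hAX']
    unfold pinP
    by_cases h : u = v
    · subst h
      simp only [if_true]
      field_simp
      ring
    · simp only [if_neg h]
      field_simp
      ring
  · have hterm : ∀ u, pinP n k u u
        = 1 / (n * (n - 1)) * (((n : ℝ) * pinE n u - 1) * (n * pinE n u - 1))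
          + (1 - 1 / k) * pinX n k u := by
      intro u
      unfold pinP
      rw [if_pos rfl, pinX_sq]
      ring
    rw [sum_congr rfl fun u _ => hterm u, sum_add_distrib, ← mul_sum, ← mul_sum, hAA, hX]
    field_simp
    ring
  · intro u
    have hterm : ∀ v, pinP n k u v
        = ((n : ℝ) * pinE n u - 1) / (n * (n - 1)) * (n * pinE n v - 1)
          + (if u = v then pinX n k u else 0) - pinX n k u / k * pinX n k v := by
      intro v
      unfold pinP
      ring
    rw [sum_congr rfl fun v _ => hterm v, sum_sub_distrib, sum_add_distrib, ← mul_sum, ← mul_sum, hA,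
      hX, sum_ite_eq, if_pos (mem_univ _)]
    field_simp
    ring
  · set θ : ℝ := 2 * k / n with hθ
    have hterm : ∀ u v, (if (pineapple n (k + 1)).Adj u v then dd (pinP n k) u v - θ else 0)
        = pinE n u * ((1 - pinE n v) * (n / (n - 1) - θ + pinX n k v * (1 - 1 / k)))
          + pinE n v * ((1 - pinE n u) * (n / (n - 1) - θ + pinX n k u * (1 - 1 / k)))
          + (pinX n k u * pinX n k v - if u = v then pinX n k u else 0) * (2 - θ) := by
      intro u v
      have hadj : (pineapple n (k + 1)).Adj u v
          ↔ u ≠ v ∧ ((u.val < k + 1 ∧ v.val < k + 1) ∨ u.val = 0 ∨ v.val = 0) := Iff.rfl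
      by_cases huv : u = v
      · subst huv
        rw [if_neg (by rw [hadj]; tauto), if_pos rfl]
        have e1 := pinE_sq u
        have e2 := pinX_sq (k := k) u
        linear_combination (2 * (n / (n - 1) - θ + pinX n k u * (1 - 1 / k))) * e1 - (2 - θ) * e2
      · have hdd : dd (pinP n k) u v = n / (n - 1) * (pinE n u - pinE n v) ^ 2
            + pinX n k u + pinX n k v - (pinX n k u - pinX n k v) ^ 2 / k := by
          unfold dd pinP
          rw [if_pos rfl, if_pos rfl, if_neg huv]
          field_simp
          ring
        rw [hdd, if_neg huv]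
        by_cases hu0 : u.val = 0
        · have hv0 : v.val ≠ 0 := fun h => huv (Fin.ext (by omega))
          have e1 : pinE n u = 1 := by simp [pinE, hu0]
          have e2 : pinE n v = 0 := by simp [pinE, hv0]
          have e3 : pinX n k u = 0 := by simp [pinX, hu0]
          rw [if_pos (by rw [hadj]; tauto), e1, e2, e3]
          have e4 := pinX_sq (k := k) v
          linear_combination (-(1 / (k : ℝ))) * e4
        · have e1 : pinE n u = 0 := by simp [pinE, hu0]
          by_cases hv0 : v.val = 0
          · have e2 : pinE n v = 1 := by simp [pinE, hv0]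
            have e3 : pinX n k v = 0 := by simp [pinX, hv0]
            rw [if_pos (by rw [hadj]; tauto), e1, e2, e3]
            have e4 := pinX_sq (k := k) u
            linear_combination (-(1 / (k : ℝ))) * e4
          · have e2 : pinE n v = 0 := by simp [pinE, hv0]
            by_cases huk : u.val ≤ k
            · have e3 : pinX n k u = 1 := by simp [pinX, huk]; omega
              by_cases hvk : v.val ≤ k
              · have e4 : pinX n k v = 1 := by simp [pinX, hvk]; omega
                rw [if_pos (by rw [hadj]; exact ⟨huv, Or.inl ⟨by omega, by omega⟩⟩), e1, e2, e3, e4]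
                ring
              · have e4 : pinX n k v = 0 := by simp [pinX, hvk]
                rw [if_neg (by rw [hadj]; omega), e1, e2, e3, e4]
                ring
            · have e3 : pinX n k u = 0 := by simp [pinX, huk]
              rw [if_neg (by rw [hadj]; omega), e1, e2, e3]
              ring
    unfold F2
    have hF : ∀ u v, (if (pineapple n (k + 1)).Adj u v then dd (pinP n k) u v - θ else 0)
        = pinE n u * ((1 - pinE n v) * (n / (n - 1) - θ + pinX n k v * (1 - 1 / k)))
          + pinE n v * ((1 - pinE n u) * (n / (n - 1) - θ + pinX n k u * (1 - 1 / k)))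
          + (pinX n k u * pinX n k v - if u = v then pinX n k u else 0) * (2 - θ) := hterm
    have hS : ∑ v, ((1 - pinE n v) * ((n : ℝ) / (n - 1) - θ + pinX n k v * (1 - 1 / k)))
        = (n - 1) * (n / (n - 1) - θ) + k * (1 - 1 / k) := by
      have : ∀ v, (1 - pinE n v) * ((n : ℝ) / (n - 1) - θ + pinX n k v * (1 - 1 / k))
          = (n / (n - 1) - θ) * 1 - (n / (n - 1) - θ) * pinE n v + (1 - 1 / k) * pinX n k v := by
        intro v
        linear_combination (-(1 - 1 / (k : ℝ))) * pinE_pinX (k := k) v
      rw [sum_congr rfl fun v _ => this v, sum_add_distrib, sum_sub_distrib, ← mul_sum, ← mul_sum,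
        ← mul_sum, hE, hX, hcard]
      ring
    have hrow : ∀ u, ∑ v, (pinE n u * ((1 - pinE n v) * (n / (n - 1) - θ + pinX n k v * (1 - 1 / k)))
          + pinE n v * ((1 - pinE n u) * (n / (n - 1) - θ + pinX n k u * (1 - 1 / k)))
          + (pinX n k u * pinX n k v - if u = v then pinX n k u else 0) * (2 - θ))
        = pinE n u * ((n - 1) * (n / (n - 1) - θ) + k * (1 - 1 / k))
          + (1 - pinE n u) * (n / (n - 1) - θ + pinX n k u * (1 - 1 / k))
          + (k - 1) * (2 - θ) * pinX n k u := by
      intro u
      rw [sum_add_distrib, sum_add_distrib, ← mul_sum, hS, ← sum_mul, hE, ← sum_mul,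
        sum_sub_distrib, ← mul_sum, hX, sum_ite_eq, if_pos (mem_univ _)]
      ring
    have hfin : ∑ u, ∑ v, (if (pineapple n (k + 1)).Adj u v then dd (pinP n k) u v - θ else 0)
        = Phi2 n k := by
      rw [sum_congr rfl fun u _ => (sum_congr rfl fun v _ => hF u v).trans (hrow u)]
      rw [sum_add_distrib, sum_add_distrib, ← sum_mul, hE, hS, ← mul_sum, hX]
      unfold Phi2
      rw [hθ]
      field_simp
      ring
    rw [← hfin]
    refine sum_congr rfl fun u _ => sum_congr rfl fun v _ => ?_
    congr

end LapEn
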