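import Pool.Agent.LapEn.Facts

/-! # ABS: an abstract trace bound from an invariant subspace of small eigenvalues -/

open Finset Matrix

namespace LapEn

variable {V : Type*} [Fintype V] [DecidableEq V]
variable {P : Matrix V V ℝ} {k : ℕ}

theorem eigen_data (L : Matrix V V ℝ) (hL : L.IsHermitian) :
    ∃ (lam : V → ℝ) (φ : V → V → ℝ),
      (∀ i j, ∑ v, φ i v * φ j v = if i = j then 1 else 0) ∧
      (∀ u v, ∑ i, φ i u * φ i v = if u = v then 1 else 0) ∧
      ∀ i, L *ᵥ φ i = lam i • φ i := by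
  refine ⟨hL.eigenvalues, fun i v => hL.eigenvectorBasis i v, ?_, ?_, ?_⟩
  · intro i j
    have h1 := Unitary.coe_star_mul_self hL.eigenvectorUnitary
    have h2 := congrFun (congrFun h1 i) j
    rw [Matrix.mul_apply, Matrix.one_apply] at h2
    rw [← h2]
    refine Finset.sum_congr rfl fun v _ => ?_
    simp [Matrix.star_apply]
  · intro u v
    have h1 := Unitary.coe_mul_star_self hL.eigenvectorUnitary
    have h2 := congrFun (congrFun h1 u) v
    rw [Matrix.mul_apply, Matrix.one_apply] at h2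
    rw [← h2]
    refine Finset.sum_congr rfl fun i _ => ?_
    simp [Matrix.star_apply]
  · intro i
    exact hL.mulVec_eigenvectorBasis i

/-- trace in an orthonormal basis -/
theorem trace_basis {φ : V → V → ℝ} (h2 : ∀ u v, ∑ i, φ i u * φ i v = if u = v then 1 else 0)
    (B : Matrix V V ℝ) : B.trace = ∑ i, φ i ⬝ᵥ (B *ᵥ φ i) := by
  have h3 : ∀ i, φ i ⬝ᵥ (B *ᵥ φ i) = ∑ u, ∑ v, B u v * (φ i u * φ i v) := by
    intro i
    simp only [dotProduct, Matrix.mulVec, Finset.mul_sum]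
    refine Finset.sum_congr rfl fun u _ => Finset.sum_congr rfl fun v _ => by ring
  simp only [h3]
  rw [Finset.sum_comm]
  simp only [Matrix.trace, Matrix.diag]
  refine Finset.sum_congr rfl fun u _ => ?_
  rw [Finset.sum_comm]
  simp only [← Finset.mul_sum, h2]
  simp

/-- expansion in an orthonormal basis -/
theorem expand_basis {φ : V → V → ℝ} (h2 : ∀ u v, ∑ i, φ i u * φ i v = if u = v then 1 else 0)
    (w : V → ℝ) : w = ∑ i, (φ i ⬝ᵥ w) • φ i := by
  funext u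
  simp only [Finset.sum_apply, Pi.smul_apply, smul_eq_mul, dotProduct, Finset.sum_mul]
  rw [Finset.sum_comm]
  have : ∀ v, ∑ i, φ i v * w v * φ i u = w v * (if v = u then 1 else 0) := by
    intro v
    rw [← h2, Finset.mul_sum]
    refine Finset.sum_congr rfl fun i _ => by ring
  simp only [this]
  simp

theorem dot_basis {φ : V → V → ℝ} (h2 : ∀ u v, ∑ i, φ i u * φ i v = if u = v then 1 else 0)
    (w z : V → ℝ) : w ⬝ᵥ z = ∑ i, (φ i ⬝ᵥ w) * (φ i ⬝ᵥ z) := by
  conv_lhs => rw [expand_basis h2 z]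
  rw [dotProduct_sum]
  refine Finset.sum_congr rfl fun i _ => ?_
  rw [dotProduct_smul, smul_eq_mul, mul_comm, dotProduct_comm w]

theorem abs_bound {L E P : Matrix V V ℝ} (hL : L.IsHermitian) (hP : IsPr P k)
    (hE : ∀ w, E *ᵥ (E *ᵥ w) = E *ᵥ w) (htr : E.trace = (Fintype.card V : ℝ) - k)
    (ha : ∀ (ψ : V → ℝ) (lam : ℝ), L *ᵥ ψ = lam • ψ → lam < 7 → E *ᵥ ψ = ψ)
    (hb : ∀ w : V → ℝ, E *ᵥ w = w → w ⬝ᵥ (L *ᵥ w) ≤ 19 / 3 * (w ⬝ᵥ w)) :
    (P * L).trace ≤ L.trace - (L * E).trace := by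
  classical
  obtain ⟨lam, φ, h1, h2, h3⟩ := eigen_data L hL
  have hLs : ∀ w z : V → ℝ, w ⬝ᵥ (L *ᵥ z) = (L *ᵥ w) ⬝ᵥ z := by
    intro w z
    have ht : L.transpose = L := by
      have := hL.eq
      rwa [Matrix.conjTranspose_eq_transpose_of_trivial] at this
    rw [Matrix.dotProduct_mulVec, ← Matrix.mulVec_transpose, ht]
  -- coefficients of `L w`
  have hcoef : ∀ i (w : V → ℝ), φ i ⬝ᵥ (L *ᵥ w) = lam i * (φ i ⬝ᵥ w) := by
    intro i w
    rw [hLs, h3, smul_dotProduct, smul_eq_mul]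
  have hform : ∀ w : V → ℝ, w ⬝ᵥ (L *ᵥ w) = ∑ i, lam i * (φ i ⬝ᵥ w) ^ 2 := by
    intro w
    rw [dot_basis h2]
    refine Finset.sum_congr rfl fun i _ => ?_
    rw [hcoef]; ring
  have hnorm : ∀ w : V → ℝ, w ⬝ᵥ w = ∑ i, (φ i ⬝ᵥ w) ^ 2 := by
    intro w
    rw [dot_basis h2]
    refine Finset.sum_congr rfl fun i _ => ?_
    ring
  set S : Finset V := univ.filter fun i => lam i < 7 with hS
  have hlow : ∀ i ∈ S, E *ᵥ φ i = φ i := fun i hi =>
    ha (φ i) (lam i) (h3 i) (Finset.mem_filter.1 hi).2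
  -- vectors of the range of `E` are orthogonal to the high eigenvectors
  have hort : ∀ w : V → ℝ, E *ᵥ w = w → ∀ j, j ∉ S → φ j ⬝ᵥ w = 0 := by
    intro w hw
    set w' : V → ℝ := w - ∑ i ∈ S, (φ i ⬝ᵥ w) • φ i with hw'
    have hdot : ∀ i j, φ i ⬝ᵥ φ j = if i = j then 1 else 0 := fun i j => h1 i j
    have hEw' : E *ᵥ w' = w' := by
      rw [hw', Matrix.mulVec_sub, hw, Matrix.mulVec_sum]
      congr 1
      refine Finset.sum_congr rfl fun i hi => ?_
      rw [Matrix.mulVec_smul, hlow i hi]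
    have hc : ∀ j, φ j ⬝ᵥ w' = if j ∈ S then 0 else φ j ⬝ᵥ w := by
      intro j
      rw [hw', dotProduct_sub, dotProduct_sum]
      simp only [dotProduct_smul, hdot, smul_eq_mul, mul_ite, mul_one, mul_zero]
      rw [Finset.sum_ite_eq]
      split_ifs <;> simp
    have h5 := hb w' hEw'
    rw [hform, hnorm, Finset.mul_sum] at h5
    have h6 : ∀ i ∈ (univ : Finset V), 0 ≤ (lam i - 19 / 3) * (φ i ⬝ᵥ w') ^ 2 := by
      intro i _
      rw [hc]
      split_ifs with hi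
      · simp
      · have : 7 ≤ lam i := by
          by_contra hcon
          exact hi (Finset.mem_filter.2 ⟨Finset.mem_univ _, not_le.1 hcon⟩)
        exact mul_nonneg (by linarith) (sq_nonneg _)
    have h7 : ∑ i, (lam i - 19 / 3) * (φ i ⬝ᵥ w') ^ 2 ≤ 0 := by
      have : ∑ i, (lam i - 19 / 3) * (φ i ⬝ᵥ w') ^ 2
          = ∑ i, lam i * (φ i ⬝ᵥ w') ^ 2 - ∑ i, 19 / 3 * (φ i ⬝ᵥ w') ^ 2 := by
        rw [← Finset.sum_sub_distrib]
        refine Finset.sum_congr rfl fun i _ => by ring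
      rw [this]; linarith
    have h8 := (Finset.sum_eq_zero_iff_of_nonneg h6).1 (le_antisymm h7 (Finset.sum_nonneg h6))
    intro j hj
    have h9 := h8 j (Finset.mem_univ _)
    have h10 : 7 ≤ lam j := by
      by_contra hcon
      exact hj (Finset.mem_filter.2 ⟨Finset.mem_univ _, not_le.1 hcon⟩)
    have h11 : (φ j ⬝ᵥ w') ^ 2 = 0 := by
      rcases mul_eq_zero.1 h9 with h | h
      · linarith
      · exact h
    have h12 := hc j
    rw [if_neg hj] at h12
    rw [← h12]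
    exact pow_eq_zero_iff (two_ne_zero) |>.1 h11
  have hdiag : ∀ i, φ i ⬝ᵥ (E *ᵥ φ i) = if i ∈ S then 1 else 0 := by
    intro i
    split_ifs with hi
    · rw [hlow i hi]
      have := h1 i i
      rw [if_pos rfl] at this
      exact this
    · exact hort _ (hE _) i hi
  have htrE : (S.card : ℝ) = (Fintype.card V : ℝ) - k := by
    rw [← htr, trace_basis h2]
    simp only [hdiag]
    simp
  have htrLE : (L * E).trace = ∑ i ∈ S, lam i := by
    rw [trace_basis h2]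
    have : ∀ i, φ i ⬝ᵥ ((L * E) *ᵥ φ i) = if i ∈ S then lam i else 0 := by
      intro i
      rw [← Matrix.mulVec_mulVec, hcoef, hdiag]
      split_ifs <;> simp
    simp only [this]
    rw [Finset.sum_ite_mem, Finset.univ_inter]
  have htrL : L.trace = ∑ i, lam i := by
    rw [trace_basis h2]
    refine Finset.sum_congr rfl fun i _ => ?_
    rw [hcoef]
    have := h1 i i
    simp only [if_true] at this
    have h' : φ i ⬝ᵥ φ i = 1 := this
    rw [h', mul_one]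
  have htrPL : (P * L).trace = ∑ i, lam i * (φ i ⬝ᵥ (P *ᵥ φ i)) := by
    rw [trace_basis h2]
    refine Finset.sum_congr rfl fun i _ => ?_
    rw [← Matrix.mulVec_mulVec, h3, Matrix.mulVec_smul, dotProduct_smul, smul_eq_mul]
  have htrP : (k : ℝ) = ∑ i, φ i ⬝ᵥ (P *ᵥ φ i) := by
    rw [← trace_basis h2, ← hP.tr]
    rfl
  -- weights
  have hPt : P.transpose = P := by
    ext u v; exact hP.symm v u
  have hPP : P * P = P := by
    ext u v; rw [Matrix.mul_apply]; exact hP.idem u v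
  have hw0 : ∀ w : V → ℝ, w ⬝ᵥ (P *ᵥ w) = (P *ᵥ w) ⬝ᵥ (P *ᵥ w) := by
    intro w
    conv_lhs => rw [← hPP, ← Matrix.mulVec_mulVec, Matrix.dotProduct_mulVec,
      ← Matrix.mulVec_transpose, hPt]
  have hsq : ∀ w : V → ℝ, 0 ≤ w ⬝ᵥ w := fun w =>
    Finset.sum_nonneg fun v _ => mul_self_nonneg _
  have hw1 : ∀ i, 0 ≤ φ i ⬝ᵥ (P *ᵥ φ i) := fun i => by rw [hw0]; exact hsq _
  have hw2 : ∀ i, φ i ⬝ᵥ (P *ᵥ φ i) ≤ 1 := fun i => by
    have e1 := hsq (φ i - P *ᵥ φ i)
    rw [sub_dotProduct, dotProduct_sub, dotProduct_sub, ← hw0,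
      dotProduct_comm (P *ᵥ φ i) (φ i)] at e1
    have e2 : φ i ⬝ᵥ φ i = 1 := by
      have := h1 i i
      rw [if_pos rfl] at this
      exact this
    linarith
  rw [htrL, htrLE, htrPL]
  have hsplit : ∑ i, lam i = ∑ i ∈ S, lam i + ∑ i ∈ Sᶜ, lam i := by
    rw [Finset.sum_add_sum_compl]
  rw [hsplit, add_sub_cancel_left]
  have e3 : ∑ i, lam i * (φ i ⬝ᵥ (P *ᵥ φ i))
      = ∑ i, (lam i - 7) * (φ i ⬝ᵥ (P *ᵥ φ i)) + 7 * k := by
    rw [htrP, Finset.mul_sum, ← Finset.sum_add_distrib]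
    refine Finset.sum_congr rfl fun i _ => by ring
  have e4 : ∑ i, (lam i - 7) * (φ i ⬝ᵥ (P *ᵥ φ i)) ≤ ∑ i ∈ Sᶜ, (lam i - 7) := by
    rw [← Finset.sum_add_sum_compl S]
    have e5 : ∑ i ∈ S, (lam i - 7) * (φ i ⬝ᵥ (P *ᵥ φ i)) ≤ 0 := by
      refine Finset.sum_nonpos fun i hi => ?_
      have := (Finset.mem_filter.1 hi).2
      exact mul_nonpos_of_nonpos_of_nonneg (by linarith) (hw1 i)
    have e6 : ∑ i ∈ Sᶜ, (lam i - 7) * (φ i ⬝ᵥ (P *ᵥ φ i)) ≤ ∑ i ∈ Sᶜ, (lam i - 7) := by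
      refine Finset.sum_le_sum fun i hi => ?_
      have h7 : 7 ≤ lam i := by
        by_contra hcon
        exact (Finset.mem_compl.1 hi) (Finset.mem_filter.2 ⟨Finset.mem_univ _, not_le.1 hcon⟩)
      have := mul_le_mul_of_nonneg_left (hw2 i) (sub_nonneg.2 h7)
      linarith
    linarith
  have e7 : ∑ i ∈ Sᶜ, (lam i - 7) = ∑ i ∈ Sᶜ, lam i - 7 * k := by
    rw [Finset.sum_sub_distrib, Finset.sum_const, nsmul_eq_mul, Finset.card_compl,
      Nat.cast_sub (Finset.card_le_univ _), htrE]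
    ring
  linarith

end LapEn
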