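import Pool.Agent.LapEn.Facts

/-! # COMPL: complementary projection -/

open Finset Matrix

namespace LapEn

variable {V : Type*} [Fintype V] [DecidableEq V]
variable {P : Matrix V V ℝ} {k : ℕ}

private theorem compl_card_ne [Nonempty V] : (Fintype.card V : ℝ) ≠ 0 := by
  exact_mod_cast Fintype.card_ne_zero

private theorem compl_cast [Nonempty V] (h : IsPr P k) :
    ((Fintype.card V - 1 - k : ℕ) : ℝ) = (Fintype.card V : ℝ) - 1 - k := by
  have h1 := h.lt_card
  have h2 : Fintype.card V - 1 - k = Fintype.card V - (k + 1) := by omega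
  rw [h2, Nat.cast_sub h1]
  push_cast
  ring

private theorem compl_one' (h : IsPr P k) (v : V) : ∑ u, P u v = 0 := by
  rw [← h.one v]
  exact Finset.sum_congr rfl fun u _ => h.symm u v

theorem IsPr.coP [Nonempty V] (h : IsPr P k) : IsPr (coP P) (Fintype.card V - 1 - k) := by
  have hn := compl_card_ne (V := V)
  refine ⟨fun u v => ?_, fun u v => ?_, ?_, fun u => ?_⟩
  · unfold LapEn.coP
    rw [h.symm u v]
    by_cases huv : u = v
    · simp [huv]
    · simp [huv, Ne.symm huv]
  · unfold LapEn.coP
    have h1 : ∀ w, ((if u = w then (1 : ℝ) else 0) - P u w - 1 / (Fintype.card V : ℝ)) *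
        ((if w = v then (1 : ℝ) else 0) - P w v - 1 / (Fintype.card V : ℝ)) =
        (if u = w then ((if w = v then (1 : ℝ) else 0) - P w v - 1 / (Fintype.card V : ℝ)) else 0)
        - (if w = v then (P u w + 1 / (Fintype.card V : ℝ)) else 0)
        + (P u w * P w v + 1 / (Fintype.card V : ℝ) * P u w + 1 / (Fintype.card V : ℝ) * P w v
        + 1 / (Fintype.card V : ℝ) * (1 / (Fintype.card V : ℝ))) := by
      intro w
      split_ifs <;> ring
    simp_rw [h1]
    rw [Finset.sum_add_distrib, Finset.sum_sub_distrib, Finset.sum_ite_eq, Finset.sum_ite_eq',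
      Finset.sum_add_distrib, Finset.sum_add_distrib, Finset.sum_add_distrib, h.idem, ← Finset.mul_sum,
      ← Finset.mul_sum, h.one, compl_one' h, Finset.sum_const, Finset.card_univ, nsmul_eq_mul]
    simp only [Finset.mem_univ, if_true]
    field_simp
    ring
  · unfold LapEn.coP
    simp only [if_true]
    rw [Finset.sum_sub_distrib, Finset.sum_sub_distrib, h.tr, compl_cast h, Finset.sum_const,
      Finset.sum_const, Finset.card_univ, nsmul_eq_mul, nsmul_eq_mul]
    field_simp
    ring
  · unfold LapEn.coP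
    rw [Finset.sum_sub_distrib, Finset.sum_sub_distrib, h.one, Finset.sum_ite_eq,
      Finset.sum_const, Finset.card_univ, nsmul_eq_mul]
    simp only [Finset.mem_univ, if_true]
    field_simp
    ring

private theorem compl_dd {u v : V} (huv : u ≠ v) : dd (LapEn.coP P) u v = 2 - dd P u v := by
  unfold dd LapEn.coP
  simp only [if_true, if_neg huv]
  ring

private theorem compl_sum_dd (h : IsPr P k) : ∑ u, ∑ v ∈ univ.erase u, dd P u v =
    2 * (Fintype.card V : ℝ) * k := by
  have h1 : ∀ u : V, ∑ v ∈ univ.erase u, dd P u v = ∑ v, dd P u v := by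
    intro u
    rw [← Finset.add_sum_erase univ (fun v => dd P u v) (Finset.mem_univ u)]
    have : dd P u u = 0 := by unfold dd; ring
    simp [this]
  simp_rw [h1]
  unfold dd
  simp_rw [Finset.sum_sub_distrib, Finset.sum_add_distrib, ← Finset.mul_sum, h.one, h.tr]
  simp only [Finset.sum_const, Finset.card_univ, nsmul_eq_mul]
  rw [← Finset.mul_sum, h.tr]
  ring

theorem W2_coP [Nonempty V] (h : IsPr P k) :
    W2 P (2 * (k : ℝ) / Fintype.card V)
      = W2 (coP P) (2 * ((Fintype.card V : ℝ) - k) / Fintype.card V) + 2 * k := by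
  have hn := compl_card_ne (V := V)
  unfold W2
  have h1 : ∀ u : V, ∀ v ∈ univ.erase u, max (dd P u v - 2 * (k : ℝ) / Fintype.card V) 0 =
      max (dd (coP P) u v - 2 * ((Fintype.card V : ℝ) - k) / Fintype.card V) 0 +
      (2 * ((Fintype.card V : ℝ) - k) / Fintype.card V - dd (coP P) u v) := by
    intro u v hv
    have huv : u ≠ v := (Finset.ne_of_mem_erase hv).symm
    rw [compl_dd huv]
    have h2 : 2 * ((Fintype.card V : ℝ) - k) / Fintype.card V = 2 - 2 * (k : ℝ) / Fintype.card V := by
      field_simp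
    rw [h2]
    set t := dd P u v - 2 * (k : ℝ) / Fintype.card V with ht
    have h3 : 2 - dd P u v - (2 - 2 * (k : ℝ) / Fintype.card V) = -t := by rw [ht]; ring
    have h4 : 2 - 2 * (k : ℝ) / Fintype.card V - (2 - dd P u v) = t := by rw [ht]; ring
    rw [h3, h4]
    rcases le_total t 0 with ht0 | ht0
    · rw [max_eq_right ht0, max_eq_left (by linarith)]; ring
    · rw [max_eq_left ht0, max_eq_right (by linarith)]; ring
  rw [Finset.sum_congr rfl fun u _ => Finset.sum_congr rfl (h1 u)]
  simp_rw [Finset.sum_add_distrib]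
  congr 1
  simp_rw [Finset.sum_sub_distrib]
  rw [compl_sum_dd h.coP, compl_cast h]
  simp only [Finset.sum_const, Finset.card_erase_of_mem (Finset.mem_univ _), Finset.card_univ, nsmul_eq_mul]
  have h5 : ((Fintype.card V - 1 : ℕ) : ℝ) = (Fintype.card V : ℝ) - 1 := by
    rw [Nat.cast_sub Fintype.card_pos]; simp
  rw [h5]
  field_simp
  ring

end LapEn
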