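import Pool.Agent.LapEn.Facts

/-! # CONN: the cost of connectivity -/

open Finset Matrix

namespace LapEn

variable {V : Type*} [Fintype V] [DecidableEq V]
variable {P : Matrix V V ℝ} {k : ℕ}

theorem exists_parent {G : SimpleGraph V} (hG : G.Connected) (r0 : V) :
    ∃ π : V → V, (∀ v, v ≠ r0 → G.Adj v (π v)) ∧
      ∀ u v, u ≠ r0 → v ≠ r0 → π u = v → π v = u → False := by
  have key : ∀ v, ∃ w, v ≠ r0 → G.Adj v w ∧ G.dist w r0 < G.dist v r0 := by
    intro v
    by_cases hv : v = r0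
    · exact ⟨v, fun h => absurd hv h⟩
    · obtain ⟨p, hp⟩ := hG.exists_walk_length_eq_dist v r0
      cases p with
      | nil => exact absurd rfl hv
      | cons hadj q =>
        refine ⟨_, fun _ => ⟨hadj, ?_⟩⟩
        rw [SimpleGraph.Walk.length_cons] at hp
        have := SimpleGraph.dist_le q
        omega
  choose π hπ using key
  refine ⟨π, fun v hv => (hπ v hv).1, ?_⟩
  intro u v hu hv h1 h2
  have e1 := (hπ u hu).2
  have e2 := (hπ v hv).2
  rw [h1] at e1
  rw [h2] at e2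
  omega

open scoped Classical in
/-- the loss of a pair -/
private noncomputable def cg (G : SimpleGraph V) (P : Matrix V V ℝ) (θ : ℝ) (u v : V) : ℝ :=
  (if u = v then 0 else max (dd P u v - θ) 0) - (if G.Adj u v then dd P u v - θ else 0)

private lemma cg_nonneg (G : SimpleGraph V) (P : Matrix V V ℝ) (θ : ℝ) (u v : V) :
    0 ≤ cg G P θ u v := by
  unfold cg
  by_cases h : u = v
  · subst h
    simp
  · rw [if_neg h]
    split_ifs
    · have := le_max_left (dd P u v - θ) 0
      linarith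
    · have := le_max_right (dd P u v - θ) 0
      linarith

private lemma cg_adj {G : SimpleGraph V} {P : Matrix V V ℝ} {θ : ℝ} {u v : V} (h : G.Adj u v) :
    cg G P θ u v = max (θ - dd P u v) 0 := by
  unfold cg
  rw [if_neg h.ne, if_pos h]
  rcases le_total (dd P u v) θ with h1 | h1
  · rw [max_eq_right (by linarith), max_eq_left (by linarith)]
    ring
  · rw [max_eq_left (by linarith), max_eq_right (by linarith)]
    ring

private lemma cg_sum (G : SimpleGraph V) (P : Matrix V V ℝ) (θ : ℝ) :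
    W2 P θ - F2 G P θ = ∑ x : V × V, cg G P θ x.1 x.2 := by
  classical
  rw [Fintype.sum_prod_type]
  unfold W2 F2 cg
  rw [← Finset.sum_sub_distrib]
  refine Finset.sum_congr rfl fun u _ => ?_
  rw [Finset.sum_sub_distrib]
  congr 1
  rw [← Finset.add_sum_erase univ (fun v => if u = v then 0 else max (dd P u v - θ) 0)
    (mem_univ u)]
  simp only [if_true, zero_add]
  refine Finset.sum_congr rfl fun v hv => ?_
  rw [if_neg (Finset.ne_of_mem_erase hv).symm]

theorem F2_le_W2 (G : SimpleGraph V) (P : Matrix V V ℝ) (θ : ℝ) : F2 G P θ ≤ W2 P θ := by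
  have h := cg_sum G P θ
  have : 0 ≤ ∑ x : V × V, cg G P θ x.1 x.2 := Finset.sum_nonneg fun x _ => cg_nonneg G P θ _ _
  linarith

theorem F2_le_conn (G : SimpleGraph V) (h : IsPr P k) (θ : ℝ) (r0 : V) (π : V → V)
    (h1 : ∀ v, v ≠ r0 → G.Adj v (π v))
    (h2 : ∀ u v, u ≠ r0 → v ≠ r0 → π u = v → π v = u → False)
    (S : Finset V) (hS : r0 ∉ S) :
    F2 G P θ ≤ W2 P θ - 2 * ∑ v ∈ S, max (θ - dd P v (π v)) 0 := by
  classical
  have hsum := cg_sum G P θ
  have hne : ∀ v ∈ S, v ≠ r0 := fun v hv h3 => hS (h3 ▸ hv)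
  set A1 : Finset (V × V) := S.image fun v => (v, π v) with hA1
  set A2 : Finset (V × V) := S.image fun v => (π v, v) with hA2
  have hdis : Disjoint A1 A2 := by
    rw [Finset.disjoint_left]
    intro x hx1 hx2
    rw [hA1, Finset.mem_image] at hx1
    rw [hA2, Finset.mem_image] at hx2
    obtain ⟨v, hv, rfl⟩ := hx1
    obtain ⟨w, hw, hw'⟩ := hx2
    rw [Prod.mk.injEq] at hw'
    exact h2 v w (hne v hv) (hne w hw) hw'.2.symm hw'.1
  have e1 : ∑ x ∈ A1, cg G P θ x.1 x.2 = ∑ v ∈ S, max (θ - dd P v (π v)) 0 := by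
    rw [hA1, Finset.sum_image]
    · exact Finset.sum_congr rfl fun v hv => cg_adj (h1 v (hne v hv))
    · intro v _ w _ hvw
      exact (Prod.mk.injEq _ _ _ _ ▸ hvw).1
  have e2 : ∑ x ∈ A2, cg G P θ x.1 x.2 = ∑ v ∈ S, max (θ - dd P v (π v)) 0 := by
    rw [hA2, Finset.sum_image]
    · refine Finset.sum_congr rfl fun v hv => ?_
      rw [cg_adj (h1 v (hne v hv)).symm, dd_comm h]
    · intro v _ w _ hvw
      exact (Prod.mk.injEq _ _ _ _ ▸ hvw).2
  have e3 : ∑ x ∈ A1 ∪ A2, cg G P θ x.1 x.2 ≤ ∑ x : V × V, cg G P θ x.1 x.2 :=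
    Finset.sum_le_sum_of_subset_of_nonneg (Finset.subset_univ _)
      fun x _ _ => cg_nonneg G P θ _ _
  rw [Finset.sum_union hdis, e1, e2] at e3
  linarith

theorem F2_le_conn' {G : SimpleGraph V} (hG : G.Connected) (h : IsPr P k) {θ : ℝ} (h1 : 1 ≤ θ)
    (hT : (clT P).Nonempty) :
    F2 G P θ ≤ W2 P θ
      - 2 * ((θ - 1) * (clR P).card - be P - 2 * √((clR P).card * be P)) := by
  obtain ⟨r0, hr0⟩ := hT
  obtain ⟨π, hπ1, hπ2⟩ := exists_parent hG r0
  have hr0R : r0 ∉ clR P := by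
    intro h3
    unfold clT at hr0
    unfold clR at h3
    rw [Finset.mem_filter] at hr0 h3
    linarith [hr0.2, h3.2]
  have h4 := F2_le_conn G h θ r0 π hπ1 hπ2 (clR P) hr0R
  have h5 : ∑ v ∈ clR P, ((θ - 1) - P v v - 2 * |P v (π v)|) ≤
      ∑ v ∈ clR P, max (θ - dd P v (π v)) 0 := by
    refine Finset.sum_le_sum fun v _ => ?_
    refine le_trans ?_ (le_max_left _ _)
    unfold dd
    have h6 := h.le_one (π v)
    have h7 := neg_abs_le (P v (π v))
    linarith
  have h8 : ∑ v ∈ clR P, ((θ - 1) - P v v - 2 * |P v (π v)|) =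
      (θ - 1) * (clR P).card - be P - 2 * ∑ v ∈ clR P, |P v (π v)| := by
    rw [Finset.sum_sub_distrib, Finset.sum_sub_distrib, Finset.sum_const, nsmul_eq_mul,
      ← Finset.mul_sum]
    unfold be
    ring
  have h9 : ∑ v ∈ clR P, |P v (π v)| ≤ √((clR P).card * be P) := by
    apply Real.le_sqrt_of_sq_le
    refine (sq_sum_le_card_mul_sum_sq).trans ?_
    refine mul_le_mul_of_nonneg_left ?_ (Nat.cast_nonneg _)
    unfold be
    refine Finset.sum_le_sum fun v _ => ?_
    rw [sq_abs, ← h.sum_sq v]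
    exact Finset.single_le_sum (f := fun w => P v w ^ 2) (fun w _ => sq_nonneg _)
      (Finset.mem_univ (π v))
  linarith

end LapEn
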