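import Mathlib

/-! # POINT: pointwise inequalities in real variables

`p = P u u`, `r = P v v`, `x = P u v`, `σ = θ - 1`, `τ = 2 - θ`. -/

namespace LapEn

/-- crude inequality, `1 ≤ θ ≤ 2` -/
theorem pt_crude {p r x θ : ℝ} (hp0 : 0 ≤ p) (hp1 : p ≤ 1) (hr0 : 0 ≤ r) (hr1 : r ≤ 1)
    (h1 : 1 ≤ θ) (h2 : θ ≤ 2) :
    max (p + r - 2 * x - θ) 0 ≤ (2 - θ) * (p * r) + 2 * |x| := by
  have hx := neg_abs_le x
  have hx0 := abs_nonneg x
  have e1 : 0 ≤ r * ((θ - 1) * (1 - p)) :=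
    mul_nonneg hr0 (mul_nonneg (by linarith) (by linarith))
  have e2 : 0 ≤ (1 - r) * (θ - p) := mul_nonneg (by linarith) (by linarith)
  have e3 : 0 ≤ (2 - θ) * (p * r) := mul_nonneg (by linarith) (mul_nonneg hp0 hr0)
  apply max_le
  · nlinarith
  · linarith

/-- crude inequality with a gain, `1 ≤ θ ≤ 3/2` -/
theorem pt_gain {p r x θ : ℝ} (hp0 : 0 ≤ p) (hp1 : p ≤ 1) (hr0 : 0 ≤ r) (hr1 : r ≤ 1)
    (h1 : 1 ≤ θ) (h2 : θ ≤ 3 / 2) :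
    max (p + r - 2 * x - θ) 0 ≤
      (2 - θ) * (p * r) - (θ - 1) * r * (p * (1 - p)) + 2 * |x| := by
  have hx := neg_abs_le x
  have hx0 := abs_nonneg x
  have e1 : 0 ≤ r * ((θ - 1) * (1 - p) ^ 2) :=
    mul_nonneg hr0 (mul_nonneg (by linarith) (sq_nonneg _))
  have e2 : 0 ≤ (1 - r) * (θ - p) := mul_nonneg (by linarith) (by linarith)
  have e4 : 0 ≤ (2 - θ) - (θ - 1) * (1 - p) := by nlinarith [mul_nonneg (sub_nonneg.2 h1) hp0]
  have e3 : 0 ≤ r * p * ((2 - θ) - (θ - 1) * (1 - p)) := mul_nonneg (mul_nonneg hr0 hp0) e4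
  apply max_le
  · nlinarith
  · nlinarith

/-- one vertex in `T`, the other in `R` -/
theorem pt_TR {p r x θ : ℝ} (hp1 : p ≤ 1) (hr : r ≤ 1 / 8) (h1 : 6 / 5 ≤ θ) :
    max (p + r - 2 * x - θ) 0 ≤ 14 * x ^ 2 := by
  apply max_le
  · nlinarith [sq_nonneg (14 * x + 1)]
  · positivity

private lemma pt_half {p : ℝ} (hp0 : 1 / 8 ≤ p) (hp1 : p ≤ 7 / 8) : 7 / 64 ≤ p * (1 - p) := by
  nlinarith [mul_nonneg (sub_nonneg.2 hp0) (sub_nonneg.2 hp1)]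

private lemma pt_young {c x : ℝ} (hc : 1 / 366 ≤ c) : 2 * |x| ≤ c + 366 * x ^ 2 := by
  have h := sq_abs x
  nlinarith [sq_nonneg (366 * |x| - 1)]

/-- `p` in `M`, `r` in `T` -/
theorem pt_MT {p r x θ : ℝ} (hp0 : 1 / 8 ≤ p) (hp1 : p ≤ 7 / 8) (hr0 : 7 / 8 ≤ r) (hr1 : r ≤ 1)
    (h1 : 6 / 5 ≤ θ) (h2 : θ ≤ 22 / 15) :
    max (p + r - 2 * x - θ) 0 ≤
      (2 - θ) * (p * r) - (θ - 1) / 2 * r * (p * (1 - p)) + 366 * x ^ 2 := by
  refine (pt_gain (x := x) (by linarith) (by linarith) (by linarith) hr1 (by linarith)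
    (by linarith : θ ≤ 3 / 2)).trans ?_
  have hh := pt_half hp0 hp1
  have e1 : (1 / 10 : ℝ) * (7 / 8) ≤ (θ - 1) / 2 * r := by
    apply mul_le_mul <;> linarith
  have e2 : (1 / 10 : ℝ) * (7 / 8) * (7 / 64) ≤ (θ - 1) / 2 * r * (p * (1 - p)) := by
    apply mul_le_mul e1 hh (by norm_num)
    exact le_trans (by norm_num) e1
  have hc : (1 : ℝ) / 366 ≤ (θ - 1) / 2 * r * (p * (1 - p)) := le_trans (by norm_num) e2
  have := pt_young (x := x) hc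
  linarith

/-- both in `M` -/
theorem pt_MM {p r x θ : ℝ} (hp0 : 1 / 8 ≤ p) (hp1 : p ≤ 7 / 8) (hr0 : 1 / 8 ≤ r)
    (hr1 : r ≤ 7 / 8) (h1 : 6 / 5 ≤ θ) (h2 : θ ≤ 22 / 15) :
    max (p + r - 2 * x - θ) 0 ≤ (2 - θ) * (p * r) + 366 * x ^ 2 := by
  refine (pt_gain (x := x) (by linarith) (by linarith) (by linarith) (by linarith) (by linarith)
    (by linarith : θ ≤ 3 / 2)).trans ?_
  have hh := pt_half hp0 hp1
  have e1 : (1 / 5 : ℝ) * (1 / 8) ≤ (θ - 1) * r := by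
    apply mul_le_mul <;> linarith
  have e2 : (1 / 5 : ℝ) * (1 / 8) * (7 / 64) ≤ (θ - 1) * r * (p * (1 - p)) := by
    apply mul_le_mul e1 hh (by norm_num)
    exact le_trans (by norm_num) e1
  have hc : (1 : ℝ) / 366 ≤ (θ - 1) * r * (p * (1 - p)) := le_trans (by norm_num) e2
  have := pt_young (x := x) hc
  linarith

end LapEn
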