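import Pool.Agent.LapEn.Facts
import Pool.Agent.LapEn.Point

/-! # CRUDE: crude upper bounds for `W2` -/

open Finset Matrix

namespace LapEn

variable {V : Type*} [Fintype V] [DecidableEq V]
variable {P : Matrix V V ℝ} {k : ℕ}

/-- `∑_{u ≠ v} |P u v| ≤ n √Y` -/
theorem IsPr.sum_abs_le (h : IsPr P k) :
    ∑ u, ∑ v ∈ univ.erase u, |P u v| ≤ (Fintype.card V : ℝ) * √(YY P) := by
  have hY := h.YY_nonneg
  set S : ℝ := ∑ u, ∑ v ∈ univ.erase u, |P u v| with hS
  have h1 : S = ∑ x ∈ (univ : Finset V).sigma (fun u => univ.erase u), |P x.1 x.2| := by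
    rw [Finset.sum_sigma]
  have h2 : ∑ x ∈ (univ : Finset V).sigma (fun u => univ.erase u), |P x.1 x.2| ^ 2 = YY P := by
    rw [Finset.sum_sigma, YY]
    refine Finset.sum_congr rfl fun u _ => ?_
    rw [← h.sum_sq_erase u]
    exact Finset.sum_congr rfl fun v _ => sq_abs _
  have h3 : S ^ 2 ≤ (Fintype.card V : ℝ) ^ 2 * YY P := by
    rw [h1]
    refine (sq_sum_le_card_mul_sum_sq).trans ?_
    rw [h2]
    refine mul_le_mul_of_nonneg_right ?_ hY
    have hc : ((univ : Finset V).sigma (fun u => univ.erase u)).card ≤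
        Fintype.card V * Fintype.card V := by
      rw [Finset.card_sigma]
      calc ∑ u : V, (univ.erase u).card ≤ ∑ _u : V, Fintype.card V :=
            Finset.sum_le_sum fun u _ => (Finset.card_le_univ _)
        _ = Fintype.card V * Fintype.card V := by simp
    have hc' : (((univ : Finset V).sigma (fun u => univ.erase u)).card : ℝ) ≤
        (Fintype.card V : ℝ) * (Fintype.card V : ℝ) := by exact_mod_cast hc
    rw [pow_two]; exact hc'
  have h4 : S ≤ √((Fintype.card V : ℝ) ^ 2 * YY P) := Real.le_sqrt_of_sq_le h3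
  rw [Real.sqrt_mul (by positivity), Real.sqrt_sq (by positivity)] at h4
  exact h4

/-- sum over ordered pairs of distinct vertices, completed by nonnegative diagonal terms. -/
theorem crude_sum_le (f : V → V → ℝ) (hf : ∀ u, 0 ≤ f u u) :
    ∑ u, ∑ v ∈ univ.erase u, f u v ≤ ∑ u, ∑ v, f u v := by
  refine Finset.sum_le_sum fun u _ => ?_
  rw [← Finset.add_sum_erase univ (f u) (Finset.mem_univ u)]
  have := hf u
  linarith

theorem crude_pp (h : IsPr P k) : ∑ u, ∑ v, P u u * P v v = (k : ℝ) ^ 2 := by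
  simp_rw [← Finset.mul_sum, ← Finset.sum_mul]
  rw [h.tr, pow_two]

theorem crude_ppy (h : IsPr P k) : ∑ u, ∑ v, P v v * (P u u * (1 - P u u)) = (k : ℝ) * YY P := by
  have : ∀ u, ∑ v, P v v * (P u u * (1 - P u u)) = (k : ℝ) * (P u u * (1 - P u u)) := by
    intro u
    rw [← Finset.sum_mul, h.tr]
  simp_rw [this]
  rw [← Finset.mul_sum, YY]

theorem W2_le_crude0 (h : IsPr P k) {θ : ℝ} (h1 : 1 ≤ θ) (h2 : θ ≤ 2) :
    W2 P θ ≤ (2 - θ) * (k : ℝ) ^ 2 + (Fintype.card V : ℝ) * √(Fintype.card V : ℝ) := by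
  have hp0 := h.nonneg
  have hp1 := h.le_one
  have step : W2 P θ ≤ ∑ u, ∑ v ∈ univ.erase u, ((2 - θ) * (P u u * P v v) + 2 * |P u v|) := by
    unfold W2
    refine Finset.sum_le_sum fun u _ => Finset.sum_le_sum fun v _ => ?_
    exact pt_crude (hp0 u) (hp1 u) (hp0 v) (hp1 v) h1 h2
  have e1 : ∑ u, ∑ v ∈ univ.erase u, ((2 - θ) * (P u u * P v v) + 2 * |P u v|) =
      ∑ u, ∑ v ∈ univ.erase u, (2 - θ) * (P u u * P v v) +
        2 * ∑ u, ∑ v ∈ univ.erase u, |P u v| := by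
    simp_rw [Finset.sum_add_distrib, Finset.mul_sum]
  have e2 : ∑ u, ∑ v ∈ univ.erase u, (2 - θ) * (P u u * P v v) ≤ (2 - θ) * (k : ℝ) ^ 2 := by
    refine (crude_sum_le (fun u v => (2 - θ) * (P u u * P v v)) ?_).trans ?_
    · intro u
      exact mul_nonneg (by linarith) (mul_nonneg (hp0 u) (hp0 u))
    · rw [← crude_pp h]
      simp_rw [Finset.mul_sum]
      exact le_refl _
  have e3 := h.sum_abs_le
  have e4 : √(YY P) ≤ √(Fintype.card V : ℝ) / 2 := by
    have h5 : √(YY P) ≤ √((Fintype.card V : ℝ) / 4) := Real.sqrt_le_sqrt h.YY_le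
    have h6 : √((Fintype.card V : ℝ) / 4) = √(Fintype.card V : ℝ) / 2 := by
      rw [Real.sqrt_div (by positivity)]
      congr 1
      rw [show (4 : ℝ) = 2 ^ 2 by norm_num, Real.sqrt_sq (by norm_num)]
    rw [← h6]; exact h5
  have e5 : (Fintype.card V : ℝ) * √(YY P) ≤ (Fintype.card V : ℝ) * (√(Fintype.card V : ℝ) / 2) :=
    mul_le_mul_of_nonneg_left e4 (by positivity)
  linarith

theorem W2_le_crude (h : IsPr P k) {θ : ℝ} (h1 : 1 ≤ θ) (h2 : θ ≤ 3 / 2) :
    W2 P θ ≤ (2 - θ) * (k : ℝ) ^ 2 - (θ - 1) * k * YY P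
      + 2 * (Fintype.card V : ℝ) * √(YY P) := by
  have hp0 := h.nonneg
  have hp1 := h.le_one
  have step : W2 P θ ≤ ∑ u, ∑ v ∈ univ.erase u,
      (((2 - θ) * (P u u * P v v) - (θ - 1) * P v v * (P u u * (1 - P u u))) + 2 * |P u v|) := by
    unfold W2
    refine Finset.sum_le_sum fun u _ => Finset.sum_le_sum fun v _ => ?_
    exact pt_gain (hp0 u) (hp1 u) (hp0 v) (hp1 v) h1 h2
  have e1 : ∑ u, ∑ v ∈ univ.erase u,
      (((2 - θ) * (P u u * P v v) - (θ - 1) * P v v * (P u u * (1 - P u u))) + 2 * |P u v|) =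
      ∑ u, ∑ v ∈ univ.erase u,
        ((2 - θ) * (P u u * P v v) - (θ - 1) * P v v * (P u u * (1 - P u u))) +
        2 * ∑ u, ∑ v ∈ univ.erase u, |P u v| := by
    simp_rw [Finset.sum_add_distrib, Finset.mul_sum]
  have e2 : ∑ u, ∑ v ∈ univ.erase u,
      ((2 - θ) * (P u u * P v v) - (θ - 1) * P v v * (P u u * (1 - P u u))) ≤
      (2 - θ) * (k : ℝ) ^ 2 - (θ - 1) * k * YY P := by
    refine (crude_sum_le (fun u v =>
      (2 - θ) * (P u u * P v v) - (θ - 1) * P v v * (P u u * (1 - P u u))) ?_).trans ?_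
    · intro u
      have : (2 - θ) * (P u u * P u u) - (θ - 1) * P u u * (P u u * (1 - P u u)) =
          (P u u * P u u) * ((2 - θ) - (θ - 1) * (1 - P u u)) := by ring
      rw [this]
      refine mul_nonneg (mul_nonneg (hp0 u) (hp0 u)) ?_
      have := hp0 u
      nlinarith
    · have e3 : ∑ u, ∑ v, ((2 - θ) * (P u u * P v v) -
          (θ - 1) * P v v * (P u u * (1 - P u u))) =
          (2 - θ) * ∑ u, ∑ v, P u u * P v v -
            (θ - 1) * ∑ u, ∑ v, P v v * (P u u * (1 - P u u)) := by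
        simp_rw [Finset.sum_sub_distrib, Finset.mul_sum]
        congr 1
        refine Finset.sum_congr rfl fun u _ => Finset.sum_congr rfl fun v _ => ?_
        ring
      rw [e3, crude_pp h, crude_ppy h]
      apply le_of_eq; ring
  have e3 := h.sum_abs_le
  linarith

/-- localisation: a large value of `W2` forces `θ` to be in the window `[6/5, 22/15]`. -/
theorem localize [Nonempty V] (h : IsPr P k) (hn : 20000 ≤ Fintype.card V) {θ : ℝ}
    (h1 : 1 ≤ θ) (h2 : θ ≤ 2)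
    (hk : 2 * (k : ℝ) ≤ (Fintype.card V : ℝ) * θ)
    (hW : 8 * (Fintype.card V : ℝ) ^ 2 / 27 ≤ W2 P θ + Fintype.card V) :
    6 / 5 ≤ θ ∧ θ ≤ 22 / 15 := by
  have hn' : (20000 : ℝ) ≤ (Fintype.card V : ℝ) := by exact_mod_cast hn
  have hc := W2_le_crude0 h h1 h2
  set n : ℝ := (Fintype.card V : ℝ) with hndef
  set q : ℝ := √n with hq
  have hqq : q ^ 2 = n := Real.sq_sqrt (by linarith)
  have hq0 : 0 ≤ q := Real.sqrt_nonneg _
  have hq141 : 141 ≤ q := by
    by_contra hlt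
    push Not at hlt
    nlinarith
  have hk0 : (0 : ℝ) ≤ k := by positivity
  have hk2 : (k : ℝ) ^ 2 ≤ n ^ 2 * θ ^ 2 / 4 := by nlinarith
  have hb : 8 * n ^ 2 / 27 ≤ (2 - θ) * (n ^ 2 * θ ^ 2 / 4) + n * q + n := by
    have : (2 - θ) * (k : ℝ) ^ 2 ≤ (2 - θ) * (n ^ 2 * θ ^ 2 / 4) :=
      mul_le_mul_of_nonneg_left hk2 (by linarith)
    linarith
  -- divide by `n`
  have hb2 : q ^ 2 * (8 / 27 - (2 - θ) * θ ^ 2 / 4) ≤ q + 1 := by
    have hn0 : 0 < n := by linarith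
    have : n * (q ^ 2 * (8 / 27 - (2 - θ) * θ ^ 2 / 4)) ≤ n * (q + 1) := by
      rw [hqq]; nlinarith
    exact le_of_mul_le_mul_left this hn0
  have hid : 8 / 27 - (2 - θ) * θ ^ 2 / 4 = (θ - 4 / 3) ^ 2 * (θ + 2 / 3) / 4 := by ring
  rw [hid] at hb2
  constructor
  · by_contra hlt
    push Not at hlt
    have hA : (1 : ℝ) / 135 ≤ (θ - 4 / 3) ^ 2 * (θ + 2 / 3) / 4 := by
      have a1 : (4 : ℝ) / 225 ≤ (θ - 4 / 3) ^ 2 := by nlinarith
      have a2 : (5 : ℝ) / 3 ≤ θ + 2 / 3 := by linarith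
      have a3 : (4 : ℝ) / 225 * (5 / 3) ≤ (θ - 4 / 3) ^ 2 * (θ + 2 / 3) :=
        mul_le_mul a1 a2 (by norm_num) (by positivity)
      linarith
    have : q ^ 2 * (1 / 135) ≤ q + 1 :=
      (mul_le_mul_of_nonneg_left hA (by positivity)).trans hb2
    nlinarith
  · by_contra hlt
    push Not at hlt
    have hA : (1 : ℝ) / 135 ≤ (θ - 4 / 3) ^ 2 * (θ + 2 / 3) / 4 := by
      have a1 : (4 : ℝ) / 225 ≤ (θ - 4 / 3) ^ 2 := by nlinarith
      have a2 : (5 : ℝ) / 3 ≤ θ + 2 / 3 := by linarith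
      have a3 : (4 : ℝ) / 225 * (5 / 3) ≤ (θ - 4 / 3) ^ 2 * (θ + 2 / 3) :=
        mul_le_mul a1 a2 (by norm_num) (by positivity)
      linarith
    have : q ^ 2 * (1 / 135) ≤ q + 1 :=
      (mul_le_mul_of_nonneg_left hA (by positivity)).trans hb2
    nlinarith

/-- in the window, if `W2` is not too small then `T` carries almost all the mass. -/
theorem NN_ge (h : IsPr P k) (hn : 20000 ≤ Fintype.card V) {θ : ℝ}
    (h1 : 6 / 5 ≤ θ) (h2 : θ ≤ 22 / 15)
    (hk : (Fintype.card V : ℝ) * θ ≤ 2 * (k + 1))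
    (hW : (2 - θ) * (k : ℝ) ^ 2 ≤ W2 P θ) :
    9700 ≤ NN P ∧ (Fintype.card V : ℝ) * (61 / 125) ≤ NN P := by
  have hn' : (20000 : ℝ) ≤ (Fintype.card V : ℝ) := by exact_mod_cast hn
  have hc := W2_le_crude h (by linarith) (by linarith : θ ≤ 3 / 2)
  have hY := h.YY_nonneg
  have hbm := h.be_add_mu_le
  have hsum := h.sum_classes
  set n : ℝ := (Fintype.card V : ℝ) with hndef
  set s : ℝ := √(YY P) with hs
  have hss : s ^ 2 = YY P := Real.sq_sqrt hY
  have hs0 : 0 ≤ s := Real.sqrt_nonneg _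
  have hkn : 3 / 5 * n - 1 ≤ (k : ℝ) := by nlinarith
  have h3 : (θ - 1) * k * s ^ 2 ≤ 2 * n * s := by rw [hss]; linarith
  have h4 : (1 : ℝ) / 5 * (3 / 5 * n - 1) * s ^ 2 ≤ 2 * n * s := by
    have a1 : (1 : ℝ) / 5 * (3 / 5 * n - 1) ≤ (θ - 1) * k :=
      mul_le_mul (by linarith) hkn (by linarith) (by linarith)
    exact (mul_le_mul_of_nonneg_right a1 (by positivity)).trans h3
  have h5 : s ≤ 16.67 := by
    by_contra hlt
    push Not at hlt
    have hspos : 0 < s := by linarith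
    have h6 : (1 : ℝ) / 5 * (3 / 5 * n - 1) * s ≤ 2 * n := by
      have : ((1 : ℝ) / 5 * (3 / 5 * n - 1) * s) * s ≤ (2 * n) * s := by
        have e : ((1 : ℝ) / 5 * (3 / 5 * n - 1) * s) * s = 1 / 5 * (3 / 5 * n - 1) * s ^ 2 := by ring
        rw [e]; exact h4
      exact le_of_mul_le_mul_right this hspos
    nlinarith
  have h7 : YY P ≤ 278 := by rw [← hss]; nlinarith
  constructor
  · linarith
  · linarith

end LapEn
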