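import Mathlib

/-!
# Laplacian energy: definitions

`IsPr P k`: `P` is the matrix of an orthogonal projection of rank `k` killing the constant vector.
All sums over pairs are sums over ordered pairs.
-/

open Finset Matrix

namespace LapEn

variable {V : Type*} [Fintype V] [DecidableEq V]

/-- The Laplacian energy: total deviation of the Laplacian eigenvalues from the average degree
`2 m / n`. -/
noncomputable def lapEnergy (G : SimpleGraph V) [DecidableRel G.Adj] : ℝ :=
  ∑ i, |(G.posSemidef_lapMatrix ℝ).isHermitian.eigenvalues i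
    - 2 * (G.edgeFinset.card : ℝ) / (Fintype.card V : ℝ)|

/-- `P` is the matrix of an orthogonal projection of rank `k` whose range is orthogonal to the
constant vector. -/
structure IsPr (P : Matrix V V ℝ) (k : ℕ) : Prop where
  symm : ∀ u v, P u v = P v u
  idem : ∀ u v, ∑ w, P u w * P w v = P u v
  tr : ∑ u, P u u = k
  one : ∀ u, ∑ v, P u v = 0

/-- `D(u,v) = |P (e_u - e_v)|^2`. -/
def dd (P : Matrix V V ℝ) (u v : V) : ℝ := P u u + P v v - 2 * P u v

/-- sum over ordered pairs of distinct vertices of the positive part of `D - θ`. -/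
noncomputable def W2 (P : Matrix V V ℝ) (θ : ℝ) : ℝ :=
  ∑ u, ∑ v ∈ univ.erase u, max (dd P u v - θ) 0

open scoped Classical in
/-- sum over ordered pairs of adjacent vertices of `D - θ`. -/
noncomputable def F2 (G : SimpleGraph V) (P : Matrix V V ℝ) (θ : ℝ) : ℝ :=
  ∑ u, ∑ v, if G.Adj u v then dd P u v - θ else 0

/-- `2 Φ(k)`: the Laplacian energy of the pineapple with a clique on `k + 1` vertices
(for `k` in the relevant range). -/
noncomputable def Phi2 (n k : ℕ) : ℝ :=
  (2 - 2 * (k : ℝ) / n) * (k * (k + 1)) - 2 * (2 * (k : ℝ) / n - 1) * ((n : ℝ) - k - 1)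

/-- vertices with `p ≥ 7/8`. -/
noncomputable def clT (P : Matrix V V ℝ) : Finset V := univ.filter fun u => 7 / 8 ≤ P u u

/-- vertices with `p ≤ 1/8`. -/
noncomputable def clR (P : Matrix V V ℝ) : Finset V := univ.filter fun u => P u u ≤ 1 / 8

/-- the other vertices. -/
noncomputable def clM (P : Matrix V V ℝ) : Finset V :=
  univ.filter fun u => 1 / 8 < P u u ∧ P u u < 7 / 8

noncomputable def al (P : Matrix V V ℝ) : ℝ := ∑ u ∈ clT P, (1 - P u u)
noncomputable def be (P : Matrix V V ℝ) : ℝ := ∑ u ∈ clR P, P u u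
noncomputable def mu (P : Matrix V V ℝ) : ℝ := ∑ u ∈ clM P, P u u
noncomputable def NN (P : Matrix V V ℝ) : ℝ := ∑ u ∈ clT P, P u u
noncomputable def YM (P : Matrix V V ℝ) : ℝ := ∑ u ∈ clM P, P u u * (1 - P u u)
noncomputable def YY (P : Matrix V V ℝ) : ℝ := ∑ u, P u u * (1 - P u u)

/-- Complementary projection `I - P - J/n`. -/
noncomputable def coP (P : Matrix V V ℝ) : Matrix V V ℝ :=
  fun u v => (if u = v then 1 else 0) - P u v - 1 / (Fintype.card V : ℝ)

/-- Clique on `T`, every vertex `v` outside `T` is joined to the single vertex `h v`. -/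
def pend (T : Finset V) (h : V → V) : SimpleGraph V where
  Adj u v := u ≠ v ∧ ((u ∈ T ∧ v ∈ T) ∨ (u ∉ T ∧ v = h u) ∨ (v ∉ T ∧ u = h v))
  symm := ⟨fun u v ⟨h1, h2⟩ => ⟨h1.symm, by tauto⟩⟩
  loopless := ⟨fun u h1 => h1.1 rfl⟩

/-- The pineapple `PA(n,p)`: a complete graph on the first `p` vertices, all other vertices are
joined to the vertex `0` only. -/
def pineapple (n p : ℕ) : SimpleGraph (Fin n) where
  Adj u v := u ≠ v ∧ ((u.val < p ∧ v.val < p) ∨ u.val = 0 ∨ v.val = 0)
  symm := ⟨fun u v ⟨h1, h2⟩ => ⟨h1.symm, by tauto⟩⟩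
  loopless := ⟨fun u h1 => h1.1 rfl⟩

instance (n p : ℕ) : DecidableRel (pineapple n p).Adj := fun u v =>
  inferInstanceAs (Decidable (u ≠ v ∧ ((u.val < p ∧ v.val < p) ∨ u.val = 0 ∨ v.val = 0)))

end LapEn
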