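import Pool.Agent.LapEn.Defs

/-! # FACTS: elementary facts on projection matrices -/

open Finset Matrix

set_option linter.unusedSectionVars false

namespace LapEn

variable {V : Type*} [Fintype V] [DecidableEq V]
variable {P : Matrix V V ℝ} {k : ℕ}

theorem dd_comm (h : IsPr P k) (u v : V) : dd P u v = dd P v u := by
  unfold dd
  rw [h.symm u v]
  ring

lemma facts_mul (h : IsPr P k) (u v : V) : ∑ w, P u w * P v w = P u v := by
  rw [← h.idem u v]
  exact Finset.sum_congr rfl fun w _ => by rw [h.symm v w]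

theorem IsPr.sum_sq (h : IsPr P k) (u : V) : ∑ v, P u v ^ 2 = P u u := by
  rw [← facts_mul h u u]
  exact Finset.sum_congr rfl fun w _ => by ring

theorem IsPr.nonneg (h : IsPr P k) (u : V) : 0 ≤ P u u := by
  rw [← h.sum_sq u]
  exact Finset.sum_nonneg fun v _ => sq_nonneg _

theorem IsPr.le_one (h : IsPr P k) (u : V) : P u u ≤ 1 := by
  have h1 : P u u ^ 2 ≤ P u u := by
    conv_rhs => rw [← h.sum_sq u]
    exact Finset.single_le_sum (f := fun v => P u v ^ 2) (fun v _ => sq_nonneg _)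
      (Finset.mem_univ u)
  nlinarith [h.nonneg u]

theorem IsPr.sum_sq_erase (h : IsPr P k) (u : V) :
    ∑ v ∈ univ.erase u, P u v ^ 2 = P u u * (1 - P u u) := by
  have h1 := Finset.add_sum_erase univ (fun v => P u v ^ 2) (Finset.mem_univ u)
  have h2 := h.sum_sq u
  have h3 : P u u ^ 2 + ∑ v ∈ univ.erase u, P u v ^ 2 = ∑ v, P u v ^ 2 := h1
  linarith

/-- the complementary projection -/
def factsQ (P : Matrix V V ℝ) (u v : V) : ℝ := (if u = v then 1 else 0) - P u v

lemma factsQ_self (P : Matrix V V ℝ) (u : V) : factsQ P u u = 1 - P u u := by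
  unfold factsQ
  rw [if_pos rfl]

lemma factsQ_ne (P : Matrix V V ℝ) {u v : V} (huv : u ≠ v) : factsQ P u v = -P u v := by
  unfold factsQ
  rw [if_neg huv, zero_sub]

lemma factsQ_mul (h : IsPr P k) (u v : V) : ∑ w, factsQ P u w * factsQ P v w = factsQ P u v := by
  have h1 : ∀ w, factsQ P u w * factsQ P v w = (if w = v then (if u = w then (1 : ℝ) else 0) else 0) -
      (if w = v then P u w else 0) - (if w = u then P v w else 0) + P u w * P v w := by
    intro w
    unfold factsQ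
    by_cases h1 : u = w <;> by_cases h2 : v = w <;> simp [h1, h2, eq_comm] <;> ring
  rw [Finset.sum_congr rfl fun w _ => h1 w, Finset.sum_add_distrib, Finset.sum_sub_distrib,
    Finset.sum_sub_distrib, facts_mul h u v, Finset.sum_ite_eq' univ v, Finset.sum_ite_eq' univ v,
    Finset.sum_ite_eq' univ u]
  simp only [Finset.mem_univ, if_true]
  unfold factsQ
  rw [h.symm v u]
  ring

/-- Cauchy-Schwarz in the range of `P`. -/
theorem IsPr.sq_le (h : IsPr P k) (u v : V) : P u v ^ 2 ≤ P u u * P v v := by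
  rw [← facts_mul h u v, ← h.sum_sq u, ← h.sum_sq v]
  exact Finset.sum_mul_sq_le_sq_mul_sq univ (fun w => P u w) (fun w => P v w)

lemma facts_sum_sq (h : IsPr P k) (u : V) : ∑ w, factsQ P u w ^ 2 = 1 - P u u := by
  rw [← factsQ_self P u, ← factsQ_mul h u u]
  exact Finset.sum_congr rfl fun w _ => by ring

/-- Cauchy-Schwarz in the kernel of `P`. -/
theorem IsPr.sq_le' (h : IsPr P k) {u v : V} (huv : u ≠ v) :
    P u v ^ 2 ≤ (1 - P u u) * (1 - P v v) := by
  rw [← facts_sum_sq h u, ← facts_sum_sq h v, ← neg_sq (P u v), ← factsQ_ne P huv,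
    ← factsQ_mul h u v]
  exact Finset.sum_mul_sq_le_sq_mul_sq univ (fun w => factsQ P u w) (fun w => factsQ P v w)

lemma facts_quad (S : Finset V) (g : V → V → ℝ) (hg : ∀ u v, ∑ w, g u w * g v w = g u v) :
    ∑ u ∈ S, ∑ v ∈ S, g u v = ∑ w, (∑ u ∈ S, g u w) ^ 2 := by
  calc ∑ u ∈ S, ∑ v ∈ S, g u v = ∑ u ∈ S, ∑ v ∈ S, ∑ w, g u w * g v w :=
        Finset.sum_congr rfl fun u _ => Finset.sum_congr rfl fun v _ => (hg u v).symm
    _ = ∑ u ∈ S, ∑ w, ∑ v ∈ S, g u w * g v w :=
        Finset.sum_congr rfl fun u _ => Finset.sum_comm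
    _ = ∑ w, ∑ u ∈ S, ∑ v ∈ S, g u w * g v w := Finset.sum_comm
    _ = ∑ w, (∑ u ∈ S, g u w) ^ 2 := by
        refine Finset.sum_congr rfl fun w _ => ?_
        rw [sq, Finset.sum_mul_sum]

/-- `P` is positive semidefinite, tested on the indicator of `S`. -/
theorem IsPr.quad_nonneg (h : IsPr P k) (S : Finset V) : 0 ≤ ∑ u ∈ S, ∑ v ∈ S, P u v := by
  rw [facts_quad S (fun u v => P u v) (facts_mul h)]
  exact Finset.sum_nonneg fun w _ => sq_nonneg _

/-- `⟨1_S, (I - P) 1_S⟩ ≤ |S| * ∑_{S} (1 - p)`. -/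
theorem IsPr.quad_ge (h : IsPr P k) (S : Finset V) :
    (S.card : ℝ) * (1 - ∑ u ∈ S, (1 - P u u)) ≤ ∑ u ∈ S, ∑ v ∈ S, P u v := by
  have h1 : ∑ u ∈ S, ∑ v ∈ S, factsQ P u v ≤ S.card * ∑ u ∈ S, (1 - P u u) := by
    rw [facts_quad S (factsQ P) (factsQ_mul h)]
    calc ∑ w, (∑ u ∈ S, factsQ P u w) ^ 2 ≤ ∑ w, (S.card : ℝ) * ∑ u ∈ S, factsQ P u w ^ 2 :=
          Finset.sum_le_sum fun w _ => sq_sum_le_card_mul_sum_sq
      _ = S.card * ∑ u ∈ S, ∑ w, factsQ P u w ^ 2 := by
          rw [← Finset.mul_sum, Finset.sum_comm]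
      _ = S.card * ∑ u ∈ S, (1 - P u u) := by
          congr 1
          exact Finset.sum_congr rfl fun u _ => facts_sum_sq h u
  have h2 : ∑ u ∈ S, ∑ v ∈ S, factsQ P u v = S.card - ∑ u ∈ S, ∑ v ∈ S, P u v := by
    have h3 : ∀ u ∈ S, ∑ v ∈ S, factsQ P u v = 1 - ∑ v ∈ S, P u v := by
      intro u hu
      unfold factsQ
      rw [Finset.sum_sub_distrib, Finset.sum_ite_eq S u, if_pos hu]
    rw [Finset.sum_congr rfl h3, Finset.sum_sub_distrib, Finset.sum_const, nsmul_eq_mul, mul_one]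
  linarith

/-- `D ≤ (√p + √r)^2`. -/
theorem IsPr.dd_le (h : IsPr P k) (u v : V) :
    dd P u v ≤ (√(P u u) + √(P v v)) ^ 2 := by
  have h1 := Real.abs_le_sqrt (h.sq_le u v)
  rw [Real.sqrt_mul (h.nonneg u)] at h1
  have h2 := (abs_le.1 h1).1
  have h3 := Real.sq_sqrt (h.nonneg u)
  have h4 := Real.sq_sqrt (h.nonneg v)
  unfold dd
  nlinarith

/-- `D ≥ 2 - (√(1-p) + √(1-r))^2` for distinct vertices. -/
theorem IsPr.dd_ge (h : IsPr P k) {u v : V} (huv : u ≠ v) :
    2 - (√(1 - P u u) + √(1 - P v v)) ^ 2 ≤ dd P u v := by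
  have h5 : 0 ≤ 1 - P u u := by linarith [h.le_one u]
  have h6 : 0 ≤ 1 - P v v := by linarith [h.le_one v]
  have h1 := Real.abs_le_sqrt (h.sq_le' huv)
  rw [Real.sqrt_mul h5] at h1
  have h2 := (abs_le.1 h1).2
  have h3 := Real.sq_sqrt h5
  have h4 := Real.sq_sqrt h6
  unfold dd
  nlinarith

theorem IsPr.lt_card [Nonempty V] (h : IsPr P k) : k + 1 ≤ Fintype.card V := by
  have hn : (0 : ℝ) < (Fintype.card V : ℝ) := by exact_mod_cast Fintype.card_pos
  set n : ℝ := (Fintype.card V : ℝ) with hn'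
  have h1 : ∀ u, ∑ v, (factsQ P u v - 1 / n) ^ 2 = 1 - P u u - 1 / n := by
    intro u
    have h2 : ∑ v, factsQ P u v = 1 := by
      unfold factsQ
      rw [Finset.sum_sub_distrib, Finset.sum_ite_eq univ u, if_pos (Finset.mem_univ u), h.one,
        sub_zero]
    calc ∑ v, (factsQ P u v - 1 / n) ^ 2 =
        ∑ v, (factsQ P u v ^ 2 - 2 / n * factsQ P u v + 1 / n ^ 2) :=
          Finset.sum_congr rfl fun v _ => by ring
      _ = (1 - P u u) - 2 / n * 1 + n * (1 / n ^ 2) := by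
          rw [Finset.sum_add_distrib, Finset.sum_sub_distrib, ← Finset.mul_sum, h2,
            facts_sum_sq h u, Finset.sum_const, Finset.card_univ, nsmul_eq_mul]
      _ = _ := by
          field_simp
          ring
  have h3 : ∑ u, ∑ v, (factsQ P u v - 1 / n) ^ 2 = n - k - 1 := by
    rw [Finset.sum_congr rfl fun u _ => h1 u, Finset.sum_sub_distrib, Finset.sum_sub_distrib, h.tr,
      Finset.sum_const, Finset.sum_const, Finset.card_univ, nsmul_eq_mul, nsmul_eq_mul, mul_one,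
      ← hn', mul_one_div_cancel hn.ne']
  have h4 : (0 : ℝ) ≤ ∑ u, ∑ v, (factsQ P u v - 1 / n) ^ 2 :=
    Finset.sum_nonneg fun u _ => Finset.sum_nonneg fun v _ => sq_nonneg _
  rw [h3] at h4
  have h5 : ((k + 1 : ℕ) : ℝ) ≤ (Fintype.card V : ℝ) := by
    push_cast
    linarith
  exact_mod_cast h5

/-! ### the three classes -/

lemma facts_classes {M : Type*} [AddCommMonoid M] (P : Matrix V V ℝ) (f : V → M) :
    ∑ u ∈ clT P, f u + ∑ u ∈ clM P, f u + ∑ u ∈ clR P, f u = ∑ u, f u := by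
  unfold clT clM clR
  rw [Finset.sum_filter, Finset.sum_filter, Finset.sum_filter, ← Finset.sum_add_distrib,
    ← Finset.sum_add_distrib]
  refine Finset.sum_congr rfl fun u _ => ?_
  rcases le_or_gt (P u u) (1 / 8) with h1 | h1
  · rw [if_neg (by linarith), if_neg (by intro h; linarith [h.1]), if_pos h1, zero_add, zero_add]
  · rcases le_or_gt (7 / 8) (P u u) with h2 | h2
    · rw [if_pos h2, if_neg (by intro h; linarith [h.2]), if_neg (by linarith), add_zero, add_zero]
    · rw [if_neg (by linarith), if_pos ⟨h1, h2⟩, if_neg (by linarith), zero_add, add_zero]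

theorem card_classes : (clT P).card + (clM P).card + (clR P).card = Fintype.card V := by
  have h := facts_classes P (fun _ => 1)
  simpa using h

theorem IsPr.sum_classes (h : IsPr P k) : NN P + mu P + be P = k := by
  rw [← h.tr]
  exact facts_classes P (fun u => P u u)

theorem card_clT (P : Matrix V V ℝ) : ((clT P).card : ℝ) = NN P + al P := by
  unfold NN al
  rw [← Finset.sum_add_distrib, Finset.sum_congr rfl fun u _ => by
    rw [show P u u + (1 - P u u) = (1 : ℝ) by ring]]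
  simp

/-- `β + μ ≤ 8 Y`. -/
theorem IsPr.be_add_mu_le (h : IsPr P k) : be P + mu P ≤ 8 * YY P := by
  have h1 := facts_classes P (fun u => P u u * (1 - P u u))
  have h2 : YY P = ∑ u, P u u * (1 - P u u) := rfl
  have h3 : 0 ≤ ∑ u ∈ clT P, P u u * (1 - P u u) :=
    Finset.sum_nonneg fun u _ => mul_nonneg (h.nonneg u) (by linarith [h.le_one u])
  have h4 : mu P ≤ 8 * ∑ u ∈ clM P, P u u * (1 - P u u) := by
    unfold mu
    rw [Finset.mul_sum]
    refine Finset.sum_le_sum fun u hu => ?_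
    have h5 := (Finset.mem_filter.1 hu).2
    nlinarith [h.nonneg u]
  have h6 : be P ≤ 8 * ∑ u ∈ clR P, P u u * (1 - P u u) := by
    unfold be
    rw [Finset.mul_sum]
    refine Finset.sum_le_sum fun u hu => ?_
    have h5 := (Finset.mem_filter.1 hu).2
    nlinarith [h.nonneg u]
  rw [h2, ← h1]
  linarith

theorem IsPr.YY_nonneg (h : IsPr P k) : 0 ≤ YY P :=
  Finset.sum_nonneg fun u _ => mul_nonneg (h.nonneg u) (by linarith [h.le_one u])

theorem IsPr.YY_le (h : IsPr P k) : YY P ≤ Fintype.card V / 4 := by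
  have h1 : YY P ≤ ∑ _u : V, (1 / 4 : ℝ) := by
    unfold YY
    exact Finset.sum_le_sum fun u _ => by nlinarith [sq_nonneg (P u u - 1 / 2)]
  rw [Finset.sum_const, Finset.card_univ, nsmul_eq_mul] at h1
  linarith

end LapEn
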