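import Pool.Agent.LapEn.Lap

/-! # RED: spectral reduction -/

open Finset Matrix

namespace LapEn

variable {V : Type*} [Fintype V] [DecidableEq V]

/-- The spectral theorem for a real symmetric matrix. -/
theorem red_spec {A : Matrix V V ℝ} (hA : A.IsHermitian) :
    ∃ U : Matrix V V ℝ, U * Uᵀ = 1 ∧ Uᵀ * U = 1 ∧ A = U * diagonal hA.eigenvalues * Uᵀ := by
  refine ⟨(hA.eigenvectorUnitary : Matrix V V ℝ), ?_, ?_, ?_⟩
  · have h := Unitary.coe_mul_star_self hA.eigenvectorUnitary
    rwa [Unitary.coe_star, Matrix.star_eq_conjTranspose,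
      Matrix.conjTranspose_eq_transpose_of_trivial] at h
  · have h := Unitary.coe_star_mul_self hA.eigenvectorUnitary
    rwa [Matrix.star_eq_conjTranspose,
      Matrix.conjTranspose_eq_transpose_of_trivial] at h
  · have h := hA.spectral_theorem
    rw [Unitary.conjStarAlgAut_apply] at h
    rw [Matrix.star_eq_conjTranspose, Matrix.conjTranspose_eq_transpose_of_trivial] at h
    exact h

theorem red_mul {U : Matrix V V ℝ} (h2 : Uᵀ * U = 1) (c d : V → ℝ) :
    (U * diagonal c * Uᵀ) * (U * diagonal d * Uᵀ) = U * diagonal (fun i => c i * d i) * Uᵀ := by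
  calc (U * diagonal c * Uᵀ) * (U * diagonal d * Uᵀ)
      = U * diagonal c * (Uᵀ * U) * diagonal d * Uᵀ := by simp only [Matrix.mul_assoc]
    _ = U * (diagonal c * diagonal d) * Uᵀ := by rw [h2, Matrix.mul_one]; simp only [Matrix.mul_assoc]
    _ = _ := by rw [diagonal_mul_diagonal]

theorem red_symm (U : Matrix V V ℝ) (c : V → ℝ) (u v : V) :
    (U * diagonal c * Uᵀ) u v = (U * diagonal c * Uᵀ) v u := by
  have h : (U * diagonal c * Uᵀ)ᵀ = U * diagonal c * Uᵀ := by
    rw [transpose_mul, transpose_mul, transpose_transpose, diagonal_transpose, Matrix.mul_assoc]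
  exact congrFun (congrFun h v) u

theorem red_trace {U : Matrix V V ℝ} (h2 : Uᵀ * U = 1) (c : V → ℝ) :
    (U * diagonal c * Uᵀ).trace = ∑ i, c i := by
  rw [Matrix.trace_mul_comm, ← Matrix.mul_assoc, h2, Matrix.one_mul, trace_diagonal]

omit [DecidableEq V] in
theorem red_abs (s : V → ℝ) (h : ∑ i, s i = 0) : ∑ i, |s i| = 2 * ∑ i, max (s i) 0 := by
  have : ∀ i, |s i| = 2 * max (s i) 0 - s i := by
    intro i
    rcases le_total (s i) 0 with h0 | h0
    · rw [abs_of_nonpos h0, max_eq_right h0]; ring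
    · rw [abs_of_nonneg h0, max_eq_left h0]; ring
  rw [Finset.sum_congr rfl fun i _ => this i, Finset.sum_sub_distrib, h, sub_zero,
    Finset.mul_sum]

/-- Facts about the eigenvalues of the Laplacian matrix. -/
theorem red_energy [Nonempty V] (G : SimpleGraph V) [DecidableRel G.Adj] :
    ∃ (U : Matrix V V ℝ) (l : V → ℝ) (a : ℝ), U * Uᵀ = 1 ∧ Uᵀ * U = 1 ∧
      G.lapMatrix ℝ = U * diagonal l * Uᵀ ∧ 0 ≤ a ∧ (Fintype.card V : ℝ) * a = adjSum G ∧
      lapEnergy G = 2 * ∑ i, max (l i - a) 0 := by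
  obtain ⟨U, h1, h2, h3⟩ := red_spec (G.posSemidef_lapMatrix ℝ).isHermitian
  have hn : (Fintype.card V : ℝ) ≠ 0 := by exact_mod_cast Fintype.card_ne_zero
  have ha : (Fintype.card V : ℝ) * (2 * (G.edgeFinset.card : ℝ) / (Fintype.card V : ℝ)) =
      adjSum G := by
    rw [adjSum_eq]; field_simp
  refine ⟨U, (G.posSemidef_lapMatrix ℝ).isHermitian.eigenvalues,
    2 * (G.edgeFinset.card : ℝ) / (Fintype.card V : ℝ), h1, h2, h3, by positivity, ha, ?_⟩
  unfold lapEnergy
  apply red_abs
  have h4 := congrArg Matrix.trace h3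
  rw [red_trace h2, trace_lapMatrix] at h4
  rw [Finset.sum_sub_distrib, Finset.sum_const, Finset.card_univ, nsmul_eq_mul, ha, h4, sub_self]

/-- the energy is the value of `F2` at a spectral projection. -/
theorem exists_pr [Nonempty V] (G : SimpleGraph V) [DecidableRel G.Adj] :
    ∃ (k : ℕ) (P : Matrix V V ℝ), IsPr P k ∧
      lapEnergy G = F2 G P (2 * k / Fintype.card V) := by
  obtain ⟨U, l, a, h1, h2, h3, ha, hna, hE⟩ := red_energy G
  have hn : (Fintype.card V : ℝ) ≠ 0 := by exact_mod_cast Fintype.card_ne_zero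
  set c : V → ℝ := fun i => if a < l i then 1 else 0 with hc
  have hcc : (fun i => c i * c i) = c := by
    funext i; simp only [hc]; split_ifs <;> simp
  set P : Matrix V V ℝ := U * diagonal c * Uᵀ with hP
  have hsymm : ∀ u v, P u v = P v u := red_symm U c
  have hcl : (fun i => (c i / l i) * l i) = c := by
    funext i
    simp only [hc]
    split_ifs with h
    · have : l i ≠ 0 := by linarith [lt_of_le_of_lt ha h] |> fun h' : l i ≠ 0 => h'
      field_simp
    · simp
  have hPL : P = (U * diagonal (fun i => c i / l i) * Uᵀ) * G.lapMatrix ℝ := by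
    rw [h3, red_mul h2, hcl]
  have hsumc : ∑ i, c i = ((Finset.univ.filter fun i => a < l i).card : ℝ) := by
    simp only [hc]
    rw [Finset.sum_boole]
  refine ⟨(Finset.univ.filter fun i => a < l i).card, P, ⟨hsymm, ?_, ?_, ?_⟩, ?_⟩
  · intro u v
    have h := red_mul h2 c c
    rw [hcc] at h
    rw [← Matrix.mul_apply, hP, h]
  · have h := red_trace h2 c
    rw [← hsumc, ← h]
    rfl
  · intro u
    have h : P *ᵥ (fun _ => (1 : ℝ)) = 0 := by
      rw [hPL, ← Matrix.mulVec_mulVec, SimpleGraph.lapMatrix_mulVec_const_eq_zero,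
        Matrix.mulVec_zero]
    have h' := congrFun h u
    simpa [Matrix.mulVec, dotProduct] using h'
  · have htr : (P * G.lapMatrix ℝ).trace = ∑ i, c i * l i := by
      rw [h3, hP, red_mul h2, red_trace h2]
    rw [F2_theta, F2_zero_eq_trace G P hsymm, htr, hE, ← hna, ← hsumc]
    have : ∑ i, max (l i - a) 0 = ∑ i, (c i * l i - a * c i) := by
      refine Finset.sum_congr rfl fun i _ => ?_
      simp only [hc]
      split_ifs with h
      · rw [max_eq_left (by linarith)]; ring
      · rw [max_eq_right (by linarith)]; ring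
    rw [this, Finset.sum_sub_distrib, ← Finset.mul_sum]
    field_simp

/-- every projection gives a lower bound for the energy. -/
theorem F2_le_lapEnergy [Nonempty V] (G : SimpleGraph V) [DecidableRel G.Adj]
    {P : Matrix V V ℝ} {k : ℕ} (h : IsPr P k) :
    F2 G P (2 * k / Fintype.card V) ≤ lapEnergy G := by
  obtain ⟨U, l, a, h1, h2, h3, ha, hna, hE⟩ := red_energy G
  have hn : (Fintype.card V : ℝ) ≠ 0 := by exact_mod_cast Fintype.card_ne_zero
  have hPP : P * P = P := by
    ext u v
    rw [Matrix.mul_apply]; exact h.idem u v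
  have hPt : Pᵀ = P := by
    ext u v
    exact h.symm v u
  set Q : Matrix V V ℝ := Uᵀ * P * U with hQ
  have hQt : Qᵀ = Q := by
    rw [hQ, transpose_mul, transpose_mul, transpose_transpose, hPt, Matrix.mul_assoc]
  have hQQ : Q * Q = Q := by
    calc Q * Q = Uᵀ * P * (U * Uᵀ) * P * U := by rw [hQ]; simp only [Matrix.mul_assoc]
      _ = Uᵀ * (P * P) * U := by rw [h1, Matrix.mul_one]; simp only [Matrix.mul_assoc]
      _ = Q := by rw [hPP]
  have hQtr : Q.trace = k := by
    rw [hQ, Matrix.trace_mul_comm, ← Matrix.mul_assoc, h1, Matrix.one_mul]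
    exact h.tr
  have hdiag : ∀ i, ∑ j, Q i j ^ 2 = Q i i := by
    intro i
    have h4 := congrFun (congrFun hQQ i) i
    rw [Matrix.mul_apply] at h4
    rw [← h4]
    refine Finset.sum_congr rfl fun j _ => ?_
    have : Q j i = Q i j := congrFun (congrFun hQt i) j
    rw [this]; ring
  have hge : ∀ i, 0 ≤ Q i i := fun i => by
    rw [← hdiag i]; exact Finset.sum_nonneg fun j _ => sq_nonneg _
  have hle : ∀ i, Q i i ≤ 1 := fun i => by
    have h4 : Q i i ^ 2 ≤ Q i i := by
      have h5 := Finset.single_le_sum (f := fun j => Q i j ^ 2) (fun j _ => sq_nonneg _)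
        (Finset.mem_univ i)
      rwa [hdiag i] at h5
    by_contra hcon
    push Not at hcon
    nlinarith
  have htr : (P * G.lapMatrix ℝ).trace = ∑ i, Q i i * l i := by
    have h4 : (P * G.lapMatrix ℝ).trace = (Q * diagonal l).trace := by
      rw [h3, hQ, ← Matrix.mul_assoc, Matrix.trace_mul_comm]
      simp only [Matrix.mul_assoc]
    rw [h4, Matrix.trace]
    refine Finset.sum_congr rfl fun i _ => ?_
    rw [diag_apply, Matrix.mul_diagonal]
  have hk : (k : ℝ) = ∑ i, Q i i := by rw [← hQtr]; rfl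
  rw [F2_theta, F2_zero_eq_trace G P h.symm, htr, hE, ← hna]
  have e1 : 2 * ∑ i, Q i i * l i - 2 * (k : ℝ) / (Fintype.card V : ℝ) * ((Fintype.card V : ℝ) * a) =
      2 * ∑ i, Q i i * (l i - a) := by
    simp only [mul_sub, Finset.sum_sub_distrib]
    rw [← Finset.sum_mul, ← hk]
    field_simp
  rw [e1]
  apply mul_le_mul_of_nonneg_left _ (by norm_num)
  refine Finset.sum_le_sum fun i _ => ?_
  rcases le_total (l i - a) 0 with h0 | h0
  · rw [max_eq_right h0]; exact mul_nonpos_of_nonneg_of_nonpos (hge i) h0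
  · rw [max_eq_left h0]
    calc Q i i * (l i - a) ≤ 1 * (l i - a) := mul_le_mul_of_nonneg_right (hle i) h0
      _ = _ := one_mul _

end LapEn
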