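import Pool.Agent.LapEn.Upper
import Pool.Agent.LapEn.Red
import Pool.Agent.LapEn.Pine
import Pool.Agent.LapEn.Iso

/-! # FINAL: the maximum Laplacian energy of connected graphs on `n ≥ 20000` vertices -/

open Finset Matrix

namespace LapEn

/-- the upper bound with the case of equality -/
theorem main_upper {n : ℕ} (hn : 20000 ≤ n) (G : SimpleGraph (Fin n)) [DecidableRel G.Adj]
    (hG : G.Connected) :
    lapEnergy G ≤ Phi2 n (2 * n / 3) ∧
      (lapEnergy G = Phi2 n (2 * n / 3) → Nonempty (G ≃g pineapple n (1 + 2 * n / 3))) := by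
  have : Nonempty (Fin n) := ⟨⟨0, by omega⟩⟩
  obtain ⟨k, P, h, hE⟩ := exists_pr G
  obtain ⟨h1, h2⟩ := upper hG h (by simpa using hn)
  rw [← hE] at h1 h2
  simp only [Fintype.card_fin] at h1 h2
  refine ⟨h1, fun he => ?_⟩
  obtain ⟨hk, T, g, hT, hg, hgg, rfl⟩ := h2 he
  have h3 := pend_iso hT hg hgg
  rw [Fintype.card_fin, hk, add_comm] at h3
  exact h3

theorem main (n : ℕ) (hn : 20000 ≤ n) :
    (pineapple n (1 + 2 * n / 3)).Connected ∧
    lapEnergy (pineapple n (1 + 2 * n / 3)) = Phi2 n (2 * n / 3) ∧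
    ∀ (G : SimpleGraph (Fin n)) [DecidableRel G.Adj], G.Connected →
      lapEnergy G ≤ lapEnergy (pineapple n (1 + 2 * n / 3)) ∧
      (lapEnergy G = lapEnergy (pineapple n (1 + 2 * n / 3)) ↔
        Nonempty (G ≃g pineapple n (1 + 2 * n / 3))) := by
  have : Nonempty (Fin n) := ⟨⟨0, by omega⟩⟩
  have hc : (pineapple n (1 + 2 * n / 3)).Connected := pineapple_connected (by omega)
  have hup := (main_upper hn (pineapple n (1 + 2 * n / 3)) hc).1
  obtain ⟨P, hP, hF⟩ := pineapple_low (n := n) (k := 2 * n / 3) (by omega) (by omega)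
  have hlow := F2_le_lapEnergy (pineapple n (2 * n / 3 + 1)) hP
  rw [Fintype.card_fin, hF] at hlow
  have e : 2 * n / 3 + 1 = 1 + 2 * n / 3 := by omega
  rw [e] at hlow
  have heq : lapEnergy (pineapple n (1 + 2 * n / 3)) = Phi2 n (2 * n / 3) :=
    le_antisymm hup hlow
  refine ⟨hc, heq, fun G _ hG => ?_⟩
  rw [heq]
  obtain ⟨h1, h2⟩ := main_upper hn G hG
  refine ⟨h1, h2, fun ⟨f⟩ => le_antisymm h1 ?_⟩
  rw [← e] at f
  have h3 := F2_le_lapEnergy G (hP.reindex f.toEquiv)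
  rw [Fintype.card_fin] at h3
  have h4 := F2_iso f P (2 * ((2 * n / 3 : ℕ) : ℝ) / n)
  rw [hF] at h4
  exact h4 ▸ h3

end LapEn
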