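import Mathlib

/-! # FIX: the nonnegative fixed point -/

open Finset

namespace LapEn

theorem exists_zeta {ι : Type*} [Fintype ι] [DecidableEq ι] (b : ι → ℝ) (hb : ∀ i, 0 ≤ b i)
    (k : ℝ) (hk : 0 < k) (hr : 4 * ∑ i, b i ≤ k ^ 2) :
    ∃ ζ : ι → ι → ℝ, (∀ u w, 0 ≤ ζ u w) ∧ (∀ u w, ζ u w ≤ 2 / k) ∧
      ∀ u w, (k + b u) * ζ u w = (if u = w then 0 else 1) + ∑ z, b z * ζ u z * ζ z w := by
  have h2k : (0 : ℝ) ≤ 2 / k := by positivity
  haveI : Fact ((0 : ℝ) ≤ 2 / k) := ⟨h2k⟩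
  have hpos : ∀ u, 0 < k + b u := fun u => by linarith [hb u]
  have hmem : ∀ (ζ : ι → ι → Set.Icc (0 : ℝ) (2 / k)) (u w : ι),
      ((if u = w then (0 : ℝ) else 1) + ∑ z, b z * (ζ u z : ℝ) * (ζ z w : ℝ)) / (k + b u) ∈
        Set.Icc (0 : ℝ) (2 / k) := by
    intro ζ u w
    have h0 : ∀ a c, (0 : ℝ) ≤ (ζ a c : ℝ) := fun a c => (ζ a c).2.1
    have h1 : ∀ a c, (ζ a c : ℝ) ≤ 2 / k := fun a c => (ζ a c).2.2
    constructor
    · refine div_nonneg (add_nonneg (by split <;> norm_num) (Finset.sum_nonneg fun z _ => ?_))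
        (hpos u).le
      exact mul_nonneg (mul_nonneg (hb z) (h0 _ _)) (h0 _ _)
    · rw [div_le_iff₀ (hpos u)]
      have h3 : (if u = w then (0 : ℝ) else 1) ≤ 1 := by split <;> norm_num
      have h4 : ∑ z, b z * (ζ u z : ℝ) * (ζ z w : ℝ) ≤ ∑ z, b z * (4 / k ^ 2) := by
        refine Finset.sum_le_sum fun z _ => ?_
        rw [mul_assoc]
        refine mul_le_mul_of_nonneg_left ?_ (hb z)
        calc (ζ u z : ℝ) * (ζ z w : ℝ) ≤ (2 / k) * (2 / k) :=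
              mul_le_mul (h1 _ _) (h1 _ _) (h0 _ _) h2k
          _ = 4 / k ^ 2 := by ring
      have h5 : ∑ z, b z * (4 / k ^ 2) ≤ 1 := by
        rw [← Finset.sum_mul, mul_div_assoc', div_le_one (by positivity)]
        linarith
      have h6 : 2 ≤ 2 / k * (k + b u) := by
        have : 2 / k * (k + b u) = 2 + 2 / k * b u := by field_simp
        rw [this]
        have := mul_nonneg h2k (hb u)
        linarith
      linarith
  have key : ∀ (α : Type _) [CompleteLattice α] (f : α → α), Monotone f → ∃ x, f x = x :=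
    fun α _ f hf => ⟨OrderHom.lfp ⟨f, hf⟩, OrderHom.map_lfp ⟨f, hf⟩⟩
  obtain ⟨ζ, hζ⟩ := key (ι → ι → Set.Icc (0 : ℝ) (2 / k)) (fun ζ u w => ⟨_, hmem ζ u w⟩) (by
    intro ζ ξ h u w
    have hle : ∀ a c, (ζ a c : ℝ) ≤ (ξ a c : ℝ) := fun a c => h a c
    show ((if u = w then (0 : ℝ) else 1) + ∑ z, b z * (ζ u z : ℝ) * (ζ z w : ℝ)) / (k + b u) ≤
      ((if u = w then (0 : ℝ) else 1) + ∑ z, b z * (ξ u z : ℝ) * (ξ z w : ℝ)) / (k + b u)
    refine div_le_div_of_nonneg_right ?_ (hpos u).le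
    refine add_le_add le_rfl (Finset.sum_le_sum fun z _ => ?_)
    rw [mul_assoc, mul_assoc]
    exact mul_le_mul_of_nonneg_left
      (mul_le_mul (hle _ _) (hle _ _) (ζ z w).2.1 (ξ u z).2.1) (hb z))
  refine ⟨fun u w => (ζ u w : ℝ), fun u w => (ζ u w).2.1, fun u w => (ζ u w).2.2,
    fun u w => ?_⟩
  have h := congrFun (congrFun hζ u) w
  have h' : ((if u = w then (0 : ℝ) else 1) +
      ∑ z, b z * (ζ u z : ℝ) * (ζ z w : ℝ)) / (k + b u) = (ζ u w : ℝ) := congrArg Subtype.val h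
  rw [div_eq_iff (hpos u).ne'] at h'
  linarith

end LapEn
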