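import Pool.Agent.LapEn.Facts

/-! # LAP: `F2` and the Laplacian matrix -/

open Finset Matrix

namespace LapEn

variable {V : Type*} [Fintype V] [DecidableEq V]
variable {P : Matrix V V ℝ} {k : ℕ}

open scoped Classical in
/-- number of ordered pairs of adjacent vertices -/
noncomputable def adjSum (G : SimpleGraph V) : ℝ := ∑ u, ∑ v, if G.Adj u v then (1 : ℝ) else 0

omit [DecidableEq V] in
theorem lap_deg (G : SimpleGraph V) [DecidableRel G.Adj] (u : V) :
    (∑ v, if G.Adj u v then (1 : ℝ) else 0) = (G.degree u : ℝ) := by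
  rw [Finset.sum_boole, ← SimpleGraph.neighborFinset_eq_filter,
    SimpleGraph.card_neighborFinset_eq_degree]

omit [DecidableEq V] in
theorem adjSum_eq_deg (G : SimpleGraph V) [DecidableRel G.Adj] :
    adjSum G = ∑ u, (G.degree u : ℝ) := by
  unfold adjSum
  refine Finset.sum_congr rfl fun u _ => ?_
  rw [← lap_deg]
  refine Finset.sum_congr rfl fun v _ => ?_
  by_cases h : G.Adj u v <;> simp [h]

theorem adjSum_eq (G : SimpleGraph V) [DecidableRel G.Adj] :
    adjSum G = 2 * (G.edgeFinset.card : ℝ) := by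
  rw [adjSum_eq_deg, ← Nat.cast_sum, SimpleGraph.sum_degrees_eq_twice_card_edges]
  push_cast
  ring

omit [DecidableEq V] in
theorem F2_theta (G : SimpleGraph V) (P : Matrix V V ℝ) (θ : ℝ) :
    F2 G P θ = F2 G P 0 - θ * adjSum G := by
  unfold F2 adjSum
  rw [Finset.mul_sum, ← Finset.sum_sub_distrib]
  refine Finset.sum_congr rfl fun u _ => ?_
  rw [Finset.mul_sum, ← Finset.sum_sub_distrib]
  refine Finset.sum_congr rfl fun v _ => ?_
  by_cases h : G.Adj u v <;> simp [h]

theorem F2_zero_eq_trace (G : SimpleGraph V) [DecidableRel G.Adj] (P : Matrix V V ℝ)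
    (hP : ∀ u v, P u v = P v u) :
    F2 G P 0 = 2 * (P * G.lapMatrix ℝ).trace := by
  have h1 : F2 G P 0 = ∑ u, ∑ v, ((if G.Adj u v then P u u else 0)
      + (if G.Adj u v then P v v else 0) - 2 * (if G.Adj u v then P u v else 0)) := by
    unfold F2
    refine Finset.sum_congr rfl fun u _ => Finset.sum_congr rfl fun v _ => ?_
    by_cases h : G.Adj u v <;> simp [h, dd]
  have h2 : ∑ u, ∑ v, (if G.Adj u v then P v v else 0)
      = ∑ u, ∑ v, (if G.Adj u v then P u u else 0) := by
    rw [Finset.sum_comm]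
    refine Finset.sum_congr rfl fun u _ => Finset.sum_congr rfl fun v _ => ?_
    simp only [G.adj_comm v u]
  have h3 : ∀ u, ∑ v, (if G.Adj u v then P u u else 0) = P u u * (G.degree u : ℝ) := by
    intro u
    rw [← lap_deg, Finset.mul_sum]
    refine Finset.sum_congr rfl fun v _ => ?_
    split_ifs <;> simp
  have h4 : (P * G.lapMatrix ℝ).trace = ∑ u, (P u u * (G.degree u : ℝ)
      - ∑ v, (if G.Adj u v then P u v else 0)) := by
    rw [Matrix.trace]
    refine Finset.sum_congr rfl fun u _ => ?_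
    rw [Matrix.diag_apply, SimpleGraph.lapMatrix, Matrix.mul_sub, Matrix.sub_apply,
      SimpleGraph.degMatrix, Matrix.mul_diagonal, Matrix.mul_apply]
    congr 1
    refine Finset.sum_congr rfl fun v _ => ?_
    rw [SimpleGraph.adjMatrix_apply]
    by_cases h : G.Adj u v
    · simp [h, h.symm]
    · have h' : ¬ G.Adj v u := fun h' => h h'.symm
      simp [h, h']
  rw [h1, h4]
  simp only [Finset.sum_add_distrib, Finset.sum_sub_distrib, ← Finset.mul_sum]
  rw [h2]
  simp only [h3]
  ring

theorem trace_lapMatrix (G : SimpleGraph V) [DecidableRel G.Adj] :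
    (G.lapMatrix ℝ).trace = adjSum G := by
  rw [adjSum_eq_deg, Matrix.trace]
  refine Finset.sum_congr rfl fun u _ => ?_
  rw [Matrix.diag_apply, SimpleGraph.lapMatrix, Matrix.sub_apply, SimpleGraph.degMatrix,
    Matrix.diagonal_apply_eq, SimpleGraph.adjMatrix_apply]
  simp

end LapEn
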