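import Pool.Agent.LapEn.Defs

/-! # NUM: the numbers `Phi2 n k` -/

namespace LapEn

/-- the cubic -/
def numF (n k : ℤ) : ℤ := -k ^ 3 + (n + 1) * k ^ 2 + (2 - 2 * n) * k + n ^ 2 - n

lemma num_Phi2 {n : ℕ} (hn : 6 ≤ n) (k : ℕ) : Phi2 n k = 2 * (numF n k : ℝ) / n := by
  have hn0 : (n : ℝ) ≠ 0 := by
    have : n ≠ 0 := by omega
    exact_mod_cast this
  unfold Phi2 numF
  push_cast
  field_simp
  ring

lemma num_lt {n k : ℕ} (hn : 6 ≤ n) (hk : k ≤ n) (hne : k ≠ 2 * n / 3) :
    numF n k < numF n ((2 * n / 3 : ℕ) : ℤ) := by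
  obtain ⟨q, hq⟩ : ∃ q, q = n / 3 := ⟨_, rfl⟩
  have hr : n = 3 * q ∨ n = 3 * q + 1 ∨ n = 3 * q + 2 := by omega
  have hk0 : (0 : ℤ) ≤ k := Int.natCast_nonneg k
  rcases hr with h | h | h
  · have hs : 2 * n / 3 = 2 * q := by omega
    have hq2 : (2 : ℤ) ≤ q := by
      have : 2 ≤ q := by omega
      exact_mod_cast this
    rw [hs] at hne ⊢
    rw [h]
    unfold numF
    push_cast
    rcases lt_or_gt_of_ne hne with hlt | hgt
    · have h1 : (1 : ℤ) ≤ 2 * q - k := by
        have : (k : ℤ) < ((2 * q : ℕ) : ℤ) := by exact_mod_cast hlt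
        push_cast at this
        omega
      obtain ⟨i, hi⟩ : ∃ i : ℤ, i = 2 * q - k := ⟨_, rfl⟩
      have hki : (k : ℤ) = 2 * q - i := by omega
      rw [hki] at hk0 ⊢
      rw [← hi] at h1
      generalize (q : ℤ) = Q at *
      have h2 : 0 ≤ (i - 1) * (2 * Q - i) := mul_nonneg (by linarith) hk0
      have h3 : 0 ≤ (Q - 2) * i := mul_nonneg (by linarith) (by linarith)
      have h4 : 0 < i * ((i - 1) * (2 * Q - i) + (Q - 2) * i + 2) := by positivity
      nlinarith
    · have h1 : (1 : ℤ) ≤ k - 2 * q := by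
        have : ((2 * q : ℕ) : ℤ) < (k : ℤ) := by exact_mod_cast hgt
        push_cast at this
        omega
      obtain ⟨j, hj⟩ : ∃ j : ℤ, j = k - 2 * q := ⟨_, rfl⟩
      have hkj : (k : ℤ) = 2 * q + j := by omega
      rw [hkj]
      rw [← hj] at h1
      generalize (q : ℤ) = Q at *
      have h2 : 0 < j * (j ^ 2 + (3 * Q - 1) * j + 2 * Q - 2) := by
        have : 0 < (3 * Q - 1) * j := mul_pos (by linarith) (by linarith)
        have : 0 < j ^ 2 := by positivity
        exact mul_pos (by linarith) (by linarith)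
      nlinarith
  · have hs : 2 * n / 3 = 2 * q := by omega
    have hq2 : (2 : ℤ) ≤ q := by
      have : 2 ≤ q := by omega
      exact_mod_cast this
    rw [hs] at hne ⊢
    rw [h]
    unfold numF
    push_cast
    rcases lt_or_gt_of_ne hne with hlt | hgt
    · have h1 : (1 : ℤ) ≤ 2 * q - k := by
        have : (k : ℤ) < ((2 * q : ℕ) : ℤ) := by exact_mod_cast hlt
        push_cast at this
        omega
      obtain ⟨i, hi⟩ : ∃ i : ℤ, i = 2 * q - k := ⟨_, rfl⟩
      have hki : (k : ℤ) = 2 * q - i := by omega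
      rw [hki] at hk0 ⊢
      rw [← hi] at h1
      generalize (q : ℤ) = Q at *
      have h2 : 0 ≤ (i - 1) * (2 * Q - i) := mul_nonneg (by linarith) hk0
      have h3 : 0 < (Q - 3) * i + 4 * Q := by nlinarith
      have h4 : 0 < i * ((i - 1) * (2 * Q - i) + ((Q - 3) * i + 4 * Q)) :=
        mul_pos (by linarith) (by linarith)
      nlinarith
    · have h1 : (1 : ℤ) ≤ k - 2 * q := by
        have : ((2 * q : ℕ) : ℤ) < (k : ℤ) := by exact_mod_cast hgt
        push_cast at this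
        omega
      obtain ⟨j, hj⟩ : ∃ j : ℤ, j = k - 2 * q := ⟨_, rfl⟩
      have hkj : (k : ℤ) = 2 * q + j := by omega
      rw [hkj]
      rw [← hj] at h1
      generalize (q : ℤ) = Q at *
      have h2 : 0 < j * (j ^ 2 + (3 * Q - 2) * j - 2 * Q) := by
        have : 3 * Q - 2 ≤ (3 * Q - 2) * j := le_mul_of_one_le_right (by linarith) h1
        have : 1 ≤ j ^ 2 := one_le_pow₀ h1
        exact mul_pos (by linarith) (by linarith)
      nlinarith
  · have hs : 2 * n / 3 = 2 * q + 1 := by omega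
    have hq2 : (2 : ℤ) ≤ q := by
      have : 2 ≤ q := by omega
      exact_mod_cast this
    rw [hs] at hne ⊢
    rw [h]
    unfold numF
    push_cast
    rcases lt_or_gt_of_ne hne with hlt | hgt
    · have h1 : (1 : ℤ) ≤ 2 * q + 1 - k := by
        have : (k : ℤ) < ((2 * q + 1 : ℕ) : ℤ) := by exact_mod_cast hlt
        push_cast at this
        omega
      obtain ⟨i, hi⟩ : ∃ i : ℤ, i = 2 * q + 1 - k := ⟨_, rfl⟩
      have hki : (k : ℤ) = 2 * q + 1 - i := by omega
      rw [hki] at hk0 ⊢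
      rw [← hi] at h1
      generalize (q : ℤ) = Q at *
      have h2 : 0 ≤ (i - 1) * (2 * Q + 1 - i) := mul_nonneg (by linarith) hk0
      have h3 : 0 ≤ (Q - 2) * i := mul_nonneg (by linarith) (by linarith)
      have h4 : 0 < i * ((i - 1) * (2 * Q + 1 - i) + (Q - 2) * i + (2 * Q + 2)) :=
        mul_pos (by linarith) (by linarith)
      nlinarith
    · have h1 : (1 : ℤ) ≤ k - (2 * q + 1) := by
        have : ((2 * q + 1 : ℕ) : ℤ) < (k : ℤ) := by exact_mod_cast hgt
        push_cast at this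
        omega
      obtain ⟨j, hj⟩ : ∃ j : ℤ, j = k - (2 * q + 1) := ⟨_, rfl⟩
      have hkj : (k : ℤ) = 2 * q + 1 + j := by omega
      rw [hkj]
      rw [← hj] at h1
      generalize (q : ℤ) = Q at *
      have h2 : 0 < j * (j ^ 2 + 3 * Q * j - 1) := by
        have : 3 * Q ≤ 3 * Q * j := le_mul_of_one_le_right (by linarith) h1
        have : 1 ≤ j ^ 2 := one_le_pow₀ h1
        exact mul_pos (by linarith) (by linarith)
      nlinarith

lemma num_lt' {n k : ℕ} (hn : 6 ≤ n) (hk : k ≤ n) (hne : k ≠ 2 * n / 3) :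
    Phi2 n k < Phi2 n (2 * n / 3) := by
  have hn0 : (0 : ℝ) < n := by
    have : 0 < n := by omega
    exact_mod_cast this
  rw [num_Phi2 hn, num_Phi2 hn]
  have h1 : (numF n k : ℝ) < (numF n ((2 * n / 3 : ℕ) : ℤ) : ℝ) := by
    exact_mod_cast num_lt hn hk hne
  exact div_lt_div_of_pos_right (by linarith) hn0

theorem Phi2_le {n k : ℕ} (hn : 6 ≤ n) (hk : k ≤ n) : Phi2 n k ≤ Phi2 n (2 * n / 3) := by
  by_cases h : k = 2 * n / 3
  · rw [h]
  · exact (num_lt' hn hk h).le

theorem Phi2_eq {n k : ℕ} (hn : 6 ≤ n) (hk : k ≤ n) (h : Phi2 n k = Phi2 n (2 * n / 3)) :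
    k = 2 * n / 3 := by
  by_contra hne
  exact (num_lt' hn hk hne).ne h

theorem Phi2_ge {n : ℕ} (hn : 6 ≤ n) : 8 * (n : ℝ) ^ 2 / 27 < Phi2 n (2 * n / 3) := by
  have hn0 : (0 : ℝ) < n := by
    have : 0 < n := by omega
    exact_mod_cast this
  rw [num_Phi2 hn, lt_div_iff₀ hn0]
  have key : 4 * (n : ℤ) ^ 3 < 27 * numF n ((2 * n / 3 : ℕ) : ℤ) := by
    obtain ⟨q, hq⟩ : ∃ q, q = n / 3 := ⟨_, rfl⟩
    have hr : n = 3 * q ∨ n = 3 * q + 1 ∨ n = 3 * q + 2 := by omega
    rcases hr with h | h | h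
    · have hs : 2 * n / 3 = 2 * q := by omega
      have hq2 : (2 : ℤ) ≤ q := by
        have : 2 ≤ q := by omega
        exact_mod_cast this
      rw [hs, h]
      unfold numF
      push_cast
      generalize (q : ℤ) = Q at *
      nlinarith
    · have hs : 2 * n / 3 = 2 * q := by omega
      have hq2 : (2 : ℤ) ≤ q := by
        have : 2 ≤ q := by omega
        exact_mod_cast this
      rw [hs, h]
      unfold numF
      push_cast
      generalize (q : ℤ) = Q at *
      nlinarith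
    · have hs : 2 * n / 3 = 2 * q + 1 := by omega
      have hq2 : (2 : ℤ) ≤ q := by
        have : 2 ≤ q := by omega
        exact_mod_cast this
      rw [hs, h]
      unfold numF
      push_cast
      generalize (q : ℤ) = Q at *
      nlinarith
  have key2 : 4 * (n : ℝ) ^ 3 < 27 * (numF n ((2 * n / 3 : ℕ) : ℤ) : ℝ) := by exact_mod_cast key
  nlinarith

/-- the complementary regime: `K = k'' + 1`. -/
theorem compl_lt {n K : ℕ} (hn : 6 ≤ n) (h1 : n < 2 * K) (h2 : K ≤ n) :
    (2 - 2 * (K : ℝ) / n) * (((K : ℝ) - 1) * K) + 2 * ((n : ℝ) - K) < Phi2 n (2 * n / 3) := by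
  have hn0 : (0 : ℝ) < n := by
    have : 0 < n := by omega
    exact_mod_cast this
  have h3 : (n : ℝ) < 2 * K := by exact_mod_cast h1
  refine lt_of_lt_of_le ?_ (Phi2_le hn h2)
  have h4 : Phi2 n K - ((2 - 2 * (K : ℝ) / n) * (((K : ℝ) - 1) * K) + 2 * ((n : ℝ) - K)) =
      2 * (2 * K - n) / n := by
    unfold Phi2
    field_simp
    ring
  have h5 : 0 < 2 * (2 * (K : ℝ) - n) / n := div_pos (by linarith) hn0
  linarith

end LapEn
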