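import Pool.Agent.LapEn.PendQ
import Pool.Agent.LapEn.Abs

/-! # PEND: clique with pendant vertices -/

open Finset Matrix

namespace LapEn

variable {V : Type*} [Fintype V] [DecidableEq V]
variable {P : Matrix V V ℝ} {k : ℕ}

theorem F2_pend_theta (T : Finset V) (g : V → V) (hT : T.card = k + 1)
    (hg : ∀ v, v ∉ T → g v ∈ T) (P : Matrix V V ℝ) (θ : ℝ) :
    F2 (pend T g) P θ = F2 (pend T g) P 0
      - θ * (k * (k + 1) + 2 * ((Fintype.card V : ℝ) - (k + 1))) := by
  rw [F2_theta, adjSum_pend hT hg]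

section ext

variable {T : Finset V} {g : V → V} {ζ : V → V → ℝ}

theorem ext_add (a b : V → ℝ) : ext T g ζ (a + b) = ext T g ζ a + ext T g ζ b := by
  funext u
  simp only [ext, Pi.add_apply]
  split_ifs
  · rw [← neg_add, ← Finset.sum_add_distrib]
    congr 1
    refine Finset.sum_congr rfl fun v _ => by ring
  · rfl

theorem ext_smul (c : ℝ) (a : V → ℝ) : ext T g ζ (c • a) = c • ext T g ζ a := by
  funext u
  simp only [ext, Pi.smul_apply, smul_eq_mul]
  split_ifs
  · rw [mul_neg, Finset.mul_sum]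
    congr 1
    refine Finset.sum_congr rfl fun v _ => by ring
  · rfl

theorem ext_sub (a b : V → ℝ) : ext T g ζ (a - b) = ext T g ζ a - ext T g ζ b := by
  rw [sub_eq_add_neg, ext_add, ← neg_one_smul ℝ b, ext_smul, neg_one_smul, ← sub_eq_add_neg]

theorem ext_ext (a : V → ℝ) : ext T g ζ (ext T g ζ a) = ext T g ζ a := by
  funext u
  by_cases hu : u ∈ T
  · rw [ext, ext, if_pos hu, if_pos hu]
    congr 1
    refine Finset.sum_congr rfl fun v hv => ?_
    rw [ext, if_neg (Finset.mem_compl.1 hv)]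
  · rw [ext, if_neg hu]

/-- the oblique projection onto the invariant subspace, as a matrix -/
noncomputable def EE (T : Finset V) (g : V → V) (ζ : V → V → ℝ) : Matrix V V ℝ := fun u v =>
  ext T g ζ (Pi.single v 1) u - 1 / (Fintype.card V : ℝ) * ext T g ζ (fun _ => 1) u
    + 1 / (Fintype.card V : ℝ)

theorem ext_eq_sum (w : V → ℝ) (u : V) :
    ext T g ζ w u = ∑ v, ext T g ζ (Pi.single v 1) u * w v := by
  by_cases hu : u ∈ T
  · simp only [ext, if_pos hu]
    have : ∀ v, -∑ v' ∈ Tᶜ, ζ u (g v') * (Pi.single v 1 : V → ℝ) v'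
        = if v ∈ Tᶜ then -ζ u (g v) else 0 := by
      intro v
      simp only [Pi.single_apply, mul_ite, mul_one, mul_zero]
      rw [Finset.sum_ite_eq']
      split_ifs <;> simp
    simp only [this, ite_mul, zero_mul]
    rw [Finset.sum_ite_mem, Finset.univ_inter, ← Finset.sum_neg_distrib]
    refine Finset.sum_congr rfl fun v _ => by ring
  · simp only [ext, if_neg hu, Pi.single_apply, ite_mul, one_mul, zero_mul]
    rw [Finset.sum_ite_eq]
    simp

theorem EE_mulVec (w : V → ℝ) :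
    EE T g ζ *ᵥ w = ext T g ζ (w - fun _ => (∑ v, w v) / (Fintype.card V : ℝ))
      + fun _ => (∑ v, w v) / (Fintype.card V : ℝ) := by
  funext u
  set m : ℝ := (∑ v, w v) / (Fintype.card V : ℝ) with hm
  have h1 : (fun _ : V => m) = m • (fun _ : V => (1 : ℝ)) := by
    funext v; simp
  rw [Pi.add_apply, ext_sub, h1, ext_smul]
  simp only [Matrix.mulVec, dotProduct, EE, Pi.sub_apply, Pi.smul_apply, smul_eq_mul, mul_one]
  have h2 : ∀ v, (ext T g ζ (Pi.single v 1) u - 1 / (Fintype.card V : ℝ) * ext T g ζ (fun _ => 1) u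
      + 1 / (Fintype.card V : ℝ)) * w v
      = ext T g ζ (Pi.single v 1) u * w v
        - (1 / (Fintype.card V : ℝ) * ext T g ζ (fun _ => 1) u - 1 / (Fintype.card V : ℝ)) * w v := by
    intro v; ring
  simp only [h2]
  rw [Finset.sum_sub_distrib, ← ext_eq_sum, ← Finset.mul_sum, hm]
  ring

end ext

theorem pend_le (h : IsPr P k) (T : Finset V) (g : V → V) (hT : T.card = k + 1)
    (hg : ∀ v, v ∉ T → g v ∈ T) (hk : 10 ≤ k)
    (hr : 3 * (Fintype.card V - (k + 1)) ≤ 2 * k) :
    F2 (pend T g) P 0 ≤ 2 * (k * (k + 1) + ((Fintype.card V : ℝ) - (k + 1))) ∧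
    (F2 (pend T g) P 0 = 2 * (k * (k + 1) + ((Fintype.card V : ℝ) - (k + 1))) →
      ∀ v w, v ∉ T → w ∉ T → g v = g w) := by
  classical
  obtain ⟨ζ, hζ⟩ := exists_isZeta hT hg hk hr
  set n : ℕ := Fintype.card V with hn
  have hTn : T.card ≤ n := Finset.card_le_univ _
  have hn0 : (0 : ℝ) < n := by
    have : 0 < n := by omega
    exact_mod_cast this
  set L : Matrix V V ℝ := (pend T g).lapMatrix ℝ with hLdef
  have hLH : L.IsHermitian := ((pend T g).posSemidef_lapMatrix ℝ).isHermitian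
  have hL : ∀ φ, L *ᵥ φ = Lp T g φ := fun φ => lap_mulVec hg φ
  have hLc : ∀ c : ℝ, L *ᵥ (fun _ => c) = 0 := by
    intro c
    have h1 : (fun _ : V => c) = c • (fun _ : V => (1 : ℝ)) := by
      funext v; simp
    rw [h1, Matrix.mulVec_smul, hLdef, SimpleGraph.lapMatrix_mulVec_const_eq_zero, smul_zero]
  have hLs : ∀ w z : V → ℝ, w ⬝ᵥ (L *ᵥ z) = (L *ᵥ w) ⬝ᵥ z := by
    intro w z
    have ht : L.transpose = L := by
      have := hLH.eq
      rwa [Matrix.conjTranspose_eq_transpose_of_trivial] at this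
    rw [Matrix.dotProduct_mulVec, ← Matrix.mulVec_transpose, ht]
  have hsumL : ∀ z : V → ℝ, ∑ v, (L *ᵥ z) v = 0 := by
    intro z
    have h1 := hLs (fun _ => 1) z
    rw [hLc, zero_dotProduct] at h1
    simpa [dotProduct] using h1
  set E : Matrix V V ℝ := EE T g ζ with hEdef
  have hEv : ∀ w, E *ᵥ w = ext T g ζ (w - fun _ => (∑ v, w v) / (n : ℝ))
      + fun _ => (∑ v, w v) / (n : ℝ) := fun w => EE_mulVec w
  have hsumext : ∀ a, ∑ u, ext T g ζ a u = 0 := fun a => hζ.sum_ext hT hg hk hr a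
  have hsumE : ∀ w, ∑ u, (E *ᵥ w) u = ∑ v, w v := by
    intro w
    rw [hEv]
    simp only [Pi.add_apply]
    rw [Finset.sum_add_distrib, hsumext, Finset.sum_const, Finset.card_univ, ← hn, nsmul_eq_mul]
    field_simp
    ring
  have hEE : ∀ w, E *ᵥ (E *ᵥ w) = E *ᵥ w := by
    intro w
    rw [hEv (E *ᵥ w), hsumE, hEv w, add_sub_cancel_right, ext_ext]
  have htr : E.trace = (Fintype.card V : ℝ) - k := by
    have h1 : E.trace = ∑ u, (ext T g ζ (Pi.single u 1) u
        - 1 / (n : ℝ) * ext T g ζ (fun _ => 1) u + 1 / (n : ℝ)) := rfl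
    rw [h1, Finset.sum_add_distrib, Finset.sum_sub_distrib, ← Finset.mul_sum, hsumext]
    have h2 : ∀ u, ext T g ζ (Pi.single u 1) u = if u ∈ Tᶜ then 1 else 0 := by
      intro u
      by_cases hu : u ∈ T
      · rw [ext, if_pos hu, if_neg (by simpa using hu)]
        rw [neg_eq_zero]
        refine Finset.sum_eq_zero fun v hv => ?_
        have : v ≠ u := fun h => (Finset.mem_compl.1 hv) (h ▸ hu)
        rw [Pi.single_eq_of_ne this, mul_zero]
      · rw [ext, if_neg hu, if_pos (by simpa using hu)]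
        simp
    simp only [h2]
    rw [Finset.sum_ite_mem, Finset.univ_inter, Finset.sum_const, Finset.sum_const,
      Finset.card_compl, Finset.card_univ, ← hn, hT, nsmul_eq_mul, nsmul_eq_mul,
      Nat.cast_sub (by omega)]
    push_cast
    field_simp
    ring
  have ha : ∀ (ψ : V → ℝ) (lam : ℝ), L *ᵥ ψ = lam • ψ → lam < 7 → E *ᵥ ψ = ψ := by
    intro ψ lam h1 h2
    set m : ℝ := (∑ v, ψ v) / (n : ℝ) with hm
    have h3 : lam * ∑ v, ψ v = 0 := by
      have := hsumL ψ
      rw [h1] at this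
      simpa [Finset.mul_sum] using this
    have h4 : lam * m = 0 := by
      rw [hm, ← mul_div_assoc, h3, zero_div]
    have h5 : Lp T g (ψ - fun _ => m) = fun v => lam * (ψ - fun _ => m : V → ℝ) v := by
      rw [← hL, Matrix.mulVec_sub, hLc, sub_zero, h1]
      funext v
      simp only [Pi.smul_apply, smul_eq_mul, Pi.sub_apply]
      rw [mul_sub, h4, sub_zero]
    have h6 : ∑ v, (ψ - fun _ => m : V → ℝ) v = 0 := by
      simp only [Pi.sub_apply]
      rw [Finset.sum_sub_distrib, Finset.sum_const, Finset.card_univ, ← hn, nsmul_eq_mul, hm]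
      field_simp
      ring
    have h7 := hζ.low_mem hT hg hk hr h5 h6 h2
    rw [hEv, h7, sub_add_cancel]
  have hb : ∀ w : V → ℝ, E *ᵥ w = w → w ⬝ᵥ (L *ᵥ w) ≤ 19 / 3 * (w ⬝ᵥ w) := by
    intro w hw
    set m : ℝ := (∑ v, w v) / (n : ℝ) with hm
    set a : V → ℝ := w - fun _ => m with hadef
    have h1 : w = ext T g ζ a + fun _ => m := by
      rw [← hw]
      conv_lhs => rw [hEv w]
    have h2 : L *ᵥ w = Lp T g (ext T g ζ a) := by
      rw [h1, Matrix.mulVec_add, hLc, add_zero, hL]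
    have h3 := hζ.quad_le hT hg hk hr a
    have h4 : w ⬝ᵥ (L *ᵥ w) = ∑ u, ext T g ζ a u * Lp T g (ext T g ζ a) u := by
      have e1 : w ⬝ᵥ (L *ᵥ w) = (ext T g ζ a + fun _ => m) ⬝ᵥ (L *ᵥ w) := by rw [← h1]
      have e2 : (fun _ : V => m) ⬝ᵥ (L *ᵥ w) = 0 := by
        rw [hLs, hLc, zero_dotProduct]
      rw [e1, add_dotProduct, e2, add_zero, h2]
      rfl
    have h5 : ∑ u, ext T g ζ a u ^ 2 ≤ w ⬝ᵥ w := by
      have e1 : w ⬝ᵥ w = ∑ u, (ext T g ζ a u + m) ^ 2 := by
        conv_lhs => rw [h1]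
        simp only [dotProduct, Pi.add_apply]
        refine Finset.sum_congr rfl fun u _ => by ring
      have e2 : ∑ u, (ext T g ζ a u + m) ^ 2
          = ∑ u, ext T g ζ a u ^ 2 + 2 * m * ∑ u, ext T g ζ a u + ∑ _u : V, m ^ 2 := by
        rw [Finset.mul_sum, ← Finset.sum_add_distrib, ← Finset.sum_add_distrib]
        refine Finset.sum_congr rfl fun u _ => by ring
      rw [e1, e2, hsumext]
      have : 0 ≤ ∑ _u : V, m ^ 2 := Finset.sum_nonneg fun _ _ => sq_nonneg _
      linarith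
    rw [h4]
    linarith
  have hmain := abs_bound hLH h hEE htr ha hb
  have htrL : L.trace = k * (k + 1) + 2 * ((n : ℝ) - (k + 1)) := by
    rw [hLdef, trace_lapMatrix, adjSum_pend hT hg]
  have htrLE : (L * E).trace = ((n : ℝ) - (k + 1)) + ∑ v ∈ Tᶜ, ζ (g v) (g v) := by
    have h1 : (L * E).trace = ∑ v, (L *ᵥ (fun u => E u v)) v := by
      simp only [Matrix.trace, Matrix.diag, Matrix.mul_apply, Matrix.mulVec, dotProduct]
    have h2 : ∀ v, (fun u => E u v) = ext T g ζ (Pi.single v 1)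
        - (1 / (n : ℝ)) • ext T g ζ (fun _ => 1) + fun _ => 1 / (n : ℝ) := by
      intro v; funext u; rfl
    have h3 : ∀ v, (L *ᵥ (fun u => E u v)) v
        = ext T g ζ (fun w => (Pi.single v 1 : V → ℝ) w + XX T g ζ (Pi.single v 1) w) v
          - (1 / (n : ℝ)) * ext T g ζ (fun w => 1 + XX T g ζ (fun _ => 1) w) v := by
      intro v
      rw [h2, Matrix.mulVec_add, Matrix.mulVec_sub, Matrix.mulVec_smul, hLc, add_zero, hL, hL,
        hζ.Lp_ext hT hg hk hr, hζ.Lp_ext hT hg hk hr]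
      rfl
    rw [h1]
    simp only [h3]
    rw [Finset.sum_sub_distrib, ← Finset.mul_sum, hsumext, mul_zero, sub_zero]
    have h4 : ∀ v, ext T g ζ (fun w => (Pi.single v 1 : V → ℝ) w + XX T g ζ (Pi.single v 1) w) v
        = if v ∈ Tᶜ then 1 + ζ (g v) (g v) else 0 := by
      intro v
      have hX : ∀ u, XX T g ζ (Pi.single v 1) u = if v ∈ Tᶜ then ζ (g u) (g v) else 0 := by
        intro u
        simp only [XX, Pi.single_apply, mul_ite, mul_one, mul_zero]
        rw [Finset.sum_ite_eq']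
      by_cases hv : v ∈ T
      · have hv' : v ∉ Tᶜ := by simpa using hv
        rw [ext, if_pos hv, if_neg hv', neg_eq_zero]
        refine Finset.sum_eq_zero fun w hw => ?_
        have : w ≠ v := fun h => (Finset.mem_compl.1 hw) (h ▸ hv)
        rw [hX, if_neg hv', Pi.single_eq_of_ne this, add_zero, mul_zero]
      · have hv' : v ∈ Tᶜ := by simpa using hv
        rw [ext, if_neg hv, if_pos hv', hX, if_pos hv', Pi.single_eq_same]
    simp only [h4]
    rw [Finset.sum_ite_mem, Finset.univ_inter, Finset.sum_add_distrib, Finset.sum_const,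
      Finset.card_compl, ← hn, hT, nsmul_eq_mul, Nat.cast_sub (by omega)]
    push_cast
    ring
  have hF : F2 (pend T g) P 0 = 2 * (P * L).trace := F2_zero_eq_trace (pend T g) P h.symm
  have hX0 : 0 ≤ ∑ v ∈ Tᶜ, ζ (g v) (g v) := Finset.sum_nonneg fun v _ => hζ.nonneg _ _
  rw [htrL, htrLE] at hmain
  refine ⟨by rw [hF]; linarith, fun heq => ?_⟩
  intro v w hv hw
  by_contra hne
  have hXz : ∑ v ∈ Tᶜ, ζ (g v) (g v) = 0 := by
    rw [hF] at heq
    linarith
  have hvz := (Finset.sum_eq_zero_iff_of_nonneg fun v _ => hζ.nonneg _ _).1 hXz v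
    (Finset.mem_compl.2 hv)
  have e1 := hζ.eq (g v) (g v)
  rw [hvz, mul_zero, if_pos rfl, zero_add] at e1
  have e2 : ∀ z ∈ (univ : Finset V), 0 ≤ bb T g z * ζ (g v) z * ζ z (g v) := fun z _ =>
    mul_nonneg (mul_nonneg (bb_nonneg z) (hζ.nonneg _ _)) (hζ.nonneg _ _)
  have e3 := (Finset.sum_eq_zero_iff_of_nonneg e2).1 e1.symm (g w) (Finset.mem_univ _)
  have hpos : ∀ u z : V, u ≠ z → 0 < ζ u z := by
    intro u z huz
    have f1 := hζ.eq u z
    rw [if_neg huz] at f1
    have f2 : 0 ≤ ∑ y, bb T g y * ζ u y * ζ y z := Finset.sum_nonneg fun y _ =>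
      mul_nonneg (mul_nonneg (bb_nonneg y) (hζ.nonneg _ _)) (hζ.nonneg _ _)
    have f3 : 0 < ((k : ℝ) + bb T g u) * ζ u z := by linarith
    have f4 : 0 < (k : ℝ) + bb T g u := by
      have : (0 : ℝ) < k := by
        have : 0 < k := by omega
        exact_mod_cast this
      have := bb_nonneg (T := T) (g := g) u
      linarith
    exact (mul_pos_iff_of_pos_left f4).1 f3
  have hbw : 0 < bb T g (g w) := by
    rw [bb]
    have : 0 < (univ.filter fun v => v ∉ T ∧ g v = g w).card :=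
      Finset.card_pos.2 ⟨w, by simp [hw]⟩
    exact_mod_cast this
  have e4 := mul_pos (mul_pos hbw (hpos _ _ hne)) (hpos _ _ (Ne.symm hne))
  linarith

end LapEn
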