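import Pool.Agent.LapEn.Lap

/-! # PENDA: the Laplacian of a clique with pendant vertices -/

open Finset Matrix

namespace LapEn

variable {V : Type*} [Fintype V] [DecidableEq V]

/-- number of pendant vertices at `u` -/
noncomputable def bb (T : Finset V) (g : V → V) (u : V) : ℝ :=
  ((univ.filter fun v => v ∉ T ∧ g v = u).card : ℝ)

/-- the Laplacian operator of `pend T g` -/
noncomputable def Lp (T : Finset V) (g : V → V) (φ : V → ℝ) : V → ℝ := fun u =>
  if u ∈ T then (T.card + bb T g u) * φ u - ∑ w ∈ T, φ w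
      - ∑ v ∈ univ.filter (fun v => v ∉ T ∧ g v = u), φ v
  else φ u - φ (g u)

variable {T : Finset V} {g : V → V}

theorem bb_nonneg (u : V) : 0 ≤ bb T g u := Nat.cast_nonneg _

theorem bb_eq_zero (hg : ∀ v, v ∉ T → g v ∈ T) {u : V} (hu : u ∉ T) : bb T g u = 0 := by
  unfold bb
  rw [Finset.filter_false_of_mem, Finset.card_empty, Nat.cast_zero]
  rintro v - ⟨hv, rfl⟩
  exact hu (hg v hv)

theorem sum_bb_mul (hg : ∀ v, v ∉ T → g v ∈ T) (f : V → ℝ) :
    ∑ v ∈ Tᶜ, f (g v) = ∑ u, bb T g u * f u := by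
  rw [← Finset.sum_fiberwise Tᶜ g (fun v => f (g v))]
  refine Finset.sum_congr rfl fun u _ => ?_
  have h1 : ∀ v ∈ Tᶜ.filter (fun v => g v = u), f (g v) = f u := by
    intro v hv
    rw [(Finset.mem_filter.1 hv).2]
  rw [Finset.sum_congr rfl h1, Finset.sum_const, nsmul_eq_mul]
  have h2 : Tᶜ.filter (fun v => g v = u) = univ.filter (fun v => v ∉ T ∧ g v = u) := by
    ext v
    simp
  rw [h2]
  rfl

theorem sum_bb (hg : ∀ v, v ∉ T → g v ∈ T) :
    ∑ u, bb T g u = (Fintype.card V : ℝ) - T.card := by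
  have h := sum_bb_mul hg (fun _ => (1 : ℝ))
  simp only [mul_one, Finset.sum_const, nsmul_eq_mul] at h
  rw [← h, Finset.card_compl, Nat.cast_sub (Finset.card_le_univ T)]

/-- neighbours of a vertex of the clique -/
private theorem penda_nbr_mem {u : V} (hu : u ∈ T) (v : V) :
    (pend T g).Adj u v ↔ v ∈ T.erase u ∪ univ.filter (fun v => v ∉ T ∧ g v = u) := by
  simp only [pend, Finset.mem_union, Finset.mem_erase, Finset.mem_filter, Finset.mem_univ, true_and]
  constructor
  · rintro ⟨h1, h2 | h2 | h2⟩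
    · exact Or.inl ⟨h1.symm, h2.2⟩
    · exact absurd hu h2.1
    · exact Or.inr ⟨h2.1, h2.2.symm⟩
  · rintro (⟨h1, h2⟩ | ⟨h1, h2⟩)
    · exact ⟨h1.symm, Or.inl ⟨hu, h2⟩⟩
    · exact ⟨fun h => h1 (h ▸ hu), Or.inr (Or.inr ⟨h1, h2.symm⟩)⟩

private theorem penda_nbr_not (hg : ∀ v, v ∉ T → g v ∈ T) {u : V} (hu : u ∉ T) (v : V) :
    (pend T g).Adj u v ↔ v ∈ ({g u} : Finset V) := by
  simp only [pend, Finset.mem_singleton]
  constructor
  · rintro ⟨h1, h2 | h2 | h2⟩
    · exact absurd h2.1 hu
    · exact h2.2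
    · exact absurd (h2.2 ▸ hg v h2.1) hu
  · rintro rfl
    exact ⟨fun h => hu (by rw [h]; exact hg u hu), Or.inr (Or.inl ⟨hu, rfl⟩)⟩

private theorem penda_disj (u : V) :
    Disjoint (T.erase u) (univ.filter (fun v => v ∉ T ∧ g v = u)) := by
  rw [Finset.disjoint_left]
  intro v hv hv'
  exact (Finset.mem_filter.1 hv').2.1 (Finset.mem_of_mem_erase hv)

private theorem penda_card {u : V} (hu : u ∈ T) :
    ((T.erase u ∪ univ.filter (fun v => v ∉ T ∧ g v = u)).card : ℝ) = T.card + bb T g u - 1 := by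
  rw [Finset.card_union_of_disjoint (penda_disj u), Finset.card_erase_of_mem hu, Nat.cast_add,
    Nat.cast_sub (Finset.card_pos.2 ⟨u, hu⟩)]
  unfold bb
  push_cast
  ring

theorem lap_mulVec [DecidableRel (pend T g).Adj] (hg : ∀ v, v ∉ T → g v ∈ T) (φ : V → ℝ) :
    (pend T g).lapMatrix ℝ *ᵥ φ = Lp T g φ := by
  funext u
  rw [SimpleGraph.lapMatrix_mulVec_apply]
  unfold Lp
  by_cases hu : u ∈ T
  · have h1 : (pend T g).neighborFinset u = T.erase u ∪ univ.filter (fun v => v ∉ T ∧ g v = u) := by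
      ext v
      rw [SimpleGraph.mem_neighborFinset]
      exact penda_nbr_mem hu v
    rw [if_pos hu, ← SimpleGraph.card_neighborFinset_eq_degree, h1, penda_card hu,
      Finset.sum_union (penda_disj u), ← Finset.add_sum_erase T φ hu]
    ring
  · have h1 : (pend T g).neighborFinset u = {g u} := by
      ext v
      rw [SimpleGraph.mem_neighborFinset]
      exact penda_nbr_not hg hu v
    rw [if_neg hu, ← SimpleGraph.card_neighborFinset_eq_degree, h1, Finset.card_singleton,
      Finset.sum_singleton]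
    push_cast
    ring

theorem adjSum_pend {k : ℕ} (hT : T.card = k + 1) (hg : ∀ v, v ∉ T → g v ∈ T) :
    adjSum (pend T g) = k * (k + 1) + 2 * ((Fintype.card V : ℝ) - (k + 1)) := by
  classical
  unfold adjSum
  have h1 : ∀ u, (∑ v, if (pend T g).Adj u v then (1 : ℝ) else 0) =
      (if u ∈ T then (k : ℝ) else 1) + bb T g u := by
    intro u
    rw [Finset.sum_boole]
    by_cases hu : u ∈ T
    · have h2 : (univ.filter fun v => (pend T g).Adj u v) =
          T.erase u ∪ univ.filter (fun v => v ∉ T ∧ g v = u) := by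
        ext v
        rw [Finset.mem_filter]
        simp only [Finset.mem_univ, true_and]
        exact penda_nbr_mem hu v
      rw [h2, penda_card hu, hT, if_pos hu]
      push_cast
      ring
    · have h2 : (univ.filter fun v => (pend T g).Adj u v) = {g u} := by
        ext v
        rw [Finset.mem_filter]
        simp only [Finset.mem_univ, true_and]
        exact penda_nbr_not hg hu v
      rw [h2, if_neg hu, bb_eq_zero hg hu, Finset.card_singleton]
      simp
  have h3 : adjSum (pend T g) = ∑ u, ((if u ∈ T then (k : ℝ) else 1) + bb T g u) := by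
    unfold adjSum
    refine Finset.sum_congr rfl fun u _ => ?_
    rw [← h1 u]
  unfold adjSum at h3
  rw [h3, Finset.sum_add_distrib, sum_bb hg, hT]
  have h4 : ∑ u : V, (if u ∈ T then (k : ℝ) else 1) =
      ∑ u : V, (1 + if u ∈ T then ((k : ℝ) - 1) else 0) := by
    refine Finset.sum_congr rfl fun u _ => ?_
    split_ifs <;> ring
  rw [h4, Finset.sum_add_distrib, Finset.sum_ite_mem, Finset.univ_inter, Finset.sum_const,
    Finset.sum_const, hT, Finset.card_univ, nsmul_eq_mul, nsmul_eq_mul]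
  push_cast
  ring

end LapEn
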