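import Pool.Agent.LapEn.PendA
import Pool.Agent.LapEn.Fix

/-! # Definitions for the invariant subspace of small eigenvalues -/

open Finset Matrix

namespace LapEn

variable {V : Type*} [Fintype V] [DecidableEq V]

/-- the nonnegative fixed point -/
structure IsZeta (T : Finset V) (g : V → V) (k : ℕ) (ζ : V → V → ℝ) : Prop where
  nonneg : ∀ u w, 0 ≤ ζ u w
  le : ∀ u w, ζ u w ≤ 2 / k
  eq : ∀ u w, (k + bb T g u) * ζ u w
    = (if u = w then 0 else 1) + ∑ z, bb T g z * ζ u z * ζ z w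

/-- `ext a`: the vector with values `a` outside `T` and `-∑ ζ(u, g v) a v` at `u ∈ T`. -/
noncomputable def ext (T : Finset V) (g : V → V) (ζ : V → V → ℝ) (a : V → ℝ) : V → ℝ := fun u =>
  if u ∈ T then -∑ v ∈ Tᶜ, ζ u (g v) * a v else a u

noncomputable def XX (T : Finset V) (g : V → V) (ζ : V → V → ℝ) (a : V → ℝ) : V → ℝ := fun v =>
  ∑ w ∈ Tᶜ, ζ (g v) (g w) * a w

end LapEn
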