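import Pool.Agent.LapEn.PendZ

/-! # PENDI: the invariant subspace of small eigenvalues -/

open Finset Matrix

namespace LapEn

variable {V : Type*} [Fintype V] [DecidableEq V]
variable {T : Finset V} {g : V → V} {k : ℕ} {ζ : V → V → ℝ}

theorem pendI_ext_mem {u : V} (hu : u ∈ T) (a : V → ℝ) :
    ext T g ζ a u = -∑ v ∈ Tᶜ, ζ u (g v) * a v := by simp [ext, hu]

theorem pendI_ext_notMem {u : V} (hu : u ∉ T) (a : V → ℝ) : ext T g ζ a u = a u := by simp [ext, hu]

/-- sum of the extension over `T` -/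
theorem IsZeta.pendI_sum_T (hζ : IsZeta T g k ζ) (hT : T.card = k + 1) (hg : ∀ v, v ∉ T → g v ∈ T)
    (hk : 10 ≤ k) (hr : 3 * (Fintype.card V - (k + 1)) ≤ 2 * k) (a : V → ℝ) :
    ∑ u ∈ T, ext T g ζ a u = -∑ v ∈ Tᶜ, a v := by
  rw [sum_congr rfl fun u hu => pendI_ext_mem (g := g) (ζ := ζ) hu a, sum_neg_distrib, sum_comm]
  congr 1
  refine sum_congr rfl fun v hv => ?_
  rw [← sum_mul, hζ.colsum hT hg hk hr (hg v (mem_compl.mp hv)), one_mul]

theorem IsZeta.sum_ext (hζ : IsZeta T g k ζ) (hT : T.card = k + 1) (hg : ∀ v, v ∉ T → g v ∈ T)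
    (hk : 10 ≤ k) (hr : 3 * (Fintype.card V - (k + 1)) ≤ 2 * k) (a : V → ℝ) :
    ∑ u, ext T g ζ a u = 0 := by
  rw [← sum_add_sum_compl T, hζ.pendI_sum_T hT hg hk hr]
  rw [sum_congr rfl fun u hu => pendI_ext_notMem (g := g) (ζ := ζ) (mem_compl.mp hu) a]
  ring

/-- the row equation at a vertex of `T` -/
theorem IsZeta.pendI_row (hζ : IsZeta T g k ζ) (hg : ∀ v, v ∉ T → g v ∈ T) (a : V → ℝ) {u : V}
    (hu : u ∈ T) :
    (k + bb T g u) * ext T g ζ a u + ∑ v ∈ Tᶜ, a v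
      - ∑ v ∈ univ.filter (fun v => v ∉ T ∧ g v = u), a v = ext T g ζ (XX T g ζ a) u := by
  rw [pendI_ext_mem hu, pendI_ext_mem hu]
  have h1 : (k + bb T g u) * -∑ v ∈ Tᶜ, ζ u (g v) * a v
      = -∑ v ∈ Tᶜ, ((if u = g v then 0 else 1) * a v
          + (∑ z, bb T g z * ζ u z * ζ z (g v)) * a v) := by
    rw [mul_neg, mul_sum]
    congr 1
    refine sum_congr rfl fun v _ => ?_
    rw [← mul_assoc, hζ.eq u (g v)]
    ring
  have h2 : ∑ v ∈ Tᶜ, (if u = g v then 0 else 1) * a v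
      = ∑ v ∈ Tᶜ, a v - ∑ v ∈ univ.filter (fun v => v ∉ T ∧ g v = u), a v := by
    have h3 : univ.filter (fun v => v ∉ T ∧ g v = u) = Tᶜ.filter (fun v => g v = u) := by
      ext v; simp
    rw [h3, sum_filter, ← sum_sub_distrib]
    refine sum_congr rfl fun v _ => ?_
    by_cases h : g v = u
    · rw [if_pos h, if_pos h.symm]; ring
    · rw [if_neg h, if_neg (fun h' => h h'.symm)]; ring
  have h3 : ∑ v ∈ Tᶜ, (∑ z, bb T g z * ζ u z * ζ z (g v)) * a v
      = ∑ v ∈ Tᶜ, ζ u (g v) * XX T g ζ a v := by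
    unfold XX
    have h4 : ∀ v ∈ Tᶜ, (∑ z, bb T g z * ζ u z * ζ z (g v)) * a v
        = ∑ w ∈ Tᶜ, ζ u (g w) * ζ (g w) (g v) * a v := by
      intro v _
      rw [← sum_mul]
      congr 1
      rw [sum_bb_mul hg (fun z => ζ u z * ζ z (g v))]
      exact sum_congr rfl fun z _ => by ring
    rw [sum_congr rfl h4, sum_comm]
    refine sum_congr rfl fun w _ => ?_
    rw [mul_sum]
    exact sum_congr rfl fun v _ => by ring
  rw [h1, sum_add_distrib, h2, h3]
  ring

theorem pendI_ext_add (a b : V → ℝ) (u : V) :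
    ext T g ζ (fun v => a v + b v) u = ext T g ζ a u + ext T g ζ b u := by
  unfold ext
  split_ifs
  · rw [← neg_add, ← sum_add_distrib]
    congr 1
    exact sum_congr rfl fun v _ => by ring
  · rfl

theorem IsZeta.Lp_ext (hζ : IsZeta T g k ζ) (hT : T.card = k + 1) (hg : ∀ v, v ∉ T → g v ∈ T)
    (hk : 10 ≤ k) (hr : 3 * (Fintype.card V - (k + 1)) ≤ 2 * k) (a : V → ℝ) :
    Lp T g (ext T g ζ a) = ext T g ζ (fun v => a v + XX T g ζ a v) := by
  funext u
  rw [pendI_ext_add]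
  by_cases hu : u ∈ T
  · have h1 := hζ.pendI_row hg a hu
    have h2 := hζ.pendI_sum_T hT hg hk hr a
    have h3 : ∑ v ∈ univ.filter (fun v => v ∉ T ∧ g v = u), ext T g ζ a v
        = ∑ v ∈ univ.filter (fun v => v ∉ T ∧ g v = u), a v :=
      sum_congr rfl fun v hv => pendI_ext_notMem (mem_filter.mp hv).2.1 a
    unfold Lp
    rw [if_pos hu, h2, h3, hT]
    push_cast
    linarith
  · unfold Lp
    rw [if_neg hu, pendI_ext_notMem hu, pendI_ext_notMem hu, pendI_ext_mem (hg u hu)]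
    unfold XX
    ring

/-- eigenvectors with small eigenvalue lie in the invariant subspace -/
theorem IsZeta.low_mem (hζ : IsZeta T g k ζ) (hT : T.card = k + 1) (hg : ∀ v, v ∉ T → g v ∈ T)
    (hk : 10 ≤ k) (hr : 3 * (Fintype.card V - (k + 1)) ≤ 2 * k) {ψ : V → ℝ} {lam : ℝ}
    (h1 : Lp T g ψ = fun v => lam * ψ v) (h2 : ∑ v, ψ v = 0) (h3 : lam < 7) :
    ext T g ζ ψ = ψ := by
  set D : V → ℝ := fun u => ψ u - ext T g ζ ψ u with hD
  have hoff : ∀ v, v ∉ T → ψ v - ψ (g v) = lam * ψ v := by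
    intro v hv
    have := congrFun h1 v
    simp only [Lp, if_neg hv] at this
    exact this
  have hXX : ∀ v, v ∉ T → XX T g ζ ψ v = (lam - 1) * ψ v + D (g v) := by
    intro v hv
    have e1 : XX T g ζ ψ v = - ext T g ζ ψ (g v) := by
      rw [pendI_ext_mem (hg v hv)]; unfold XX; ring
    have e2 := hoff v hv
    rw [e1, hD]
    simp only
    linarith
  have hsumT : ∑ w ∈ T, ψ w = -∑ v ∈ Tᶜ, ψ v := by
    have := sum_add_sum_compl T ψ
    linarith
  have hrow : ∀ u, u ∈ T → (k + 1 + bb T g u - lam) * D u = ∑ v ∈ Tᶜ, ζ u (g v) * D (g v) := by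
    intro u hu
    have e1 := congrFun h1 u
    simp only [Lp, if_pos hu, hT, hsumT] at e1
    push_cast at e1
    have e2 := hζ.pendI_row hg ψ hu
    have e3 : ext T g ζ (XX T g ζ ψ) u
        = (lam - 1) * ext T g ζ ψ u - ∑ v ∈ Tᶜ, ζ u (g v) * D (g v) := by
      rw [pendI_ext_mem hu, pendI_ext_mem hu]
      have : ∑ v ∈ Tᶜ, ζ u (g v) * XX T g ζ ψ v
          = (lam - 1) * ∑ v ∈ Tᶜ, ζ u (g v) * ψ v + ∑ v ∈ Tᶜ, ζ u (g v) * D (g v) := by
        rw [mul_sum, ← sum_add_distrib]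
        refine sum_congr rfl fun v hv => ?_
        rw [hXX v (mem_compl.mp hv)]
        ring
      rw [this]
      ring
    simp only [hD] at e3 ⊢
    linarith
  have hzero : ∀ u, D u = 0 := by
    by_contra hne
    push Not at hne
    obtain ⟨u1, hu1⟩ := hne
    obtain ⟨u0, -, hmax⟩ := exists_max_image univ (fun u => |D u|) ⟨u1, mem_univ _⟩
    have hpos : 0 < |D u0| := lt_of_lt_of_le (abs_pos.mpr hu1) (hmax u1 (mem_univ _))
    have hu0 : u0 ∈ T := by
      by_contra h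
      have : D u0 = 0 := by simp only [hD]; rw [pendI_ext_notMem h]; ring
      rw [this] at hpos
      simp at hpos
    have e1 := hrow u0 hu0
    have hb := bb_nonneg (T := T) (g := g) u0
    have hk' : (10 : ℝ) ≤ k := by exact_mod_cast hk
    have e2 : |∑ v ∈ Tᶜ, ζ u0 (g v) * D (g v)| ≤ 4 / 3 * |D u0| := by
      calc |∑ v ∈ Tᶜ, ζ u0 (g v) * D (g v)| ≤ ∑ v ∈ Tᶜ, ζ u0 (g v) * |D u0| := by
            refine (abs_sum_le_sum_abs _ _).trans (sum_le_sum fun v _ => ?_)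
            rw [abs_mul, abs_of_nonneg (hζ.nonneg _ _)]
            exact mul_le_mul_of_nonneg_left (hmax _ (mem_univ _)) (hζ.nonneg _ _)
        _ = (∑ v ∈ Tᶜ, ζ u0 (g v)) * |D u0| := by rw [sum_mul]
        _ ≤ 4 / 3 * |D u0| :=
            mul_le_mul_of_nonneg_right (hζ.row_le hT hk hr u0) (abs_nonneg _)
    rw [← e1, abs_mul, abs_of_pos (by linarith)] at e2
    nlinarith
  funext u
  have := hzero u
  simp only [hD] at this
  linarith

end LapEn
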