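import Pool.Agent.LapEn.PendI

/-! # PENDQ: upper bound for the form on the invariant subspace -/

open Finset Matrix

namespace LapEn

variable {V : Type*} [Fintype V] [DecidableEq V]
variable {T : Finset V} {g : V → V} {k : ℕ} {ζ : V → V → ℝ}

namespace PendQ

lemma card_real (hT : T.card = k + 1) (hr : 3 * (Fintype.card V - (k + 1)) ≤ 2 * k) :
    3 * ((Tᶜ).card : ℝ) ≤ 2 * k := by
  rw [← hT] at hr
  rw [Finset.card_compl]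
  exact_mod_cast hr

lemma row_sq (hζ : IsZeta T g k ζ) (hk : 10 ≤ k) (a : V → ℝ) (u : V) :
    (∑ v ∈ Tᶜ, ζ u (g v) * a v) ^ 2
      ≤ 4 / (k : ℝ) ^ 2 * ((Tᶜ).card : ℝ) * ∑ v ∈ Tᶜ, a v ^ 2 := by
  have hk0 : (0 : ℝ) < k := by
    have : 0 < k := by omega
    exact_mod_cast this
  have h1 := Finset.sum_mul_sq_le_sq_mul_sq (Tᶜ) (fun v => ζ u (g v)) a
  refine h1.trans ?_
  apply mul_le_mul_of_nonneg_right _ (Finset.sum_nonneg fun v _ => sq_nonneg _)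
  calc ∑ v ∈ Tᶜ, ζ u (g v) ^ 2 ≤ ∑ _v ∈ Tᶜ, 4 / (k : ℝ) ^ 2 := by
        refine Finset.sum_le_sum fun v _ => ?_
        have h2 := hζ.nonneg u (g v)
        have h3 := hζ.le u (g v)
        calc ζ u (g v) ^ 2 ≤ (2 / (k : ℝ)) ^ 2 := pow_le_pow_left₀ h2 h3 2
          _ = 4 / (k : ℝ) ^ 2 := by rw [div_pow]; norm_num
    _ = 4 / (k : ℝ) ^ 2 * ((Tᶜ).card : ℝ) := by
        rw [Finset.sum_const, nsmul_eq_mul, mul_comm]

lemma ext_sq (hζ : IsZeta T g k ζ) (hT : T.card = k + 1) (hk : 10 ≤ k)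
    (hr : 3 * (Fintype.card V - (k + 1)) ≤ 2 * k) (b : V → ℝ) :
    ∑ u ∈ T, ext T g ζ b u ^ 2 ≤ 3 * ∑ v ∈ Tᶜ, b v ^ 2 := by
  have hk0 : (0 : ℝ) < k := by
    have : 0 < k := by omega
    exact_mod_cast this
  have hk10 : (10 : ℝ) ≤ k := by exact_mod_cast hk
  have hc := card_real hT hr
  have hA : 0 ≤ ∑ v ∈ Tᶜ, b v ^ 2 := Finset.sum_nonneg fun v _ => sq_nonneg _
  calc ∑ u ∈ T, ext T g ζ b u ^ 2
      ≤ ∑ _u ∈ T, 4 / (k : ℝ) ^ 2 * ((Tᶜ).card : ℝ) * ∑ v ∈ Tᶜ, b v ^ 2 := by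
        refine Finset.sum_le_sum fun u hu => ?_
        have : ext T g ζ b u ^ 2 = (∑ v ∈ Tᶜ, ζ u (g v) * b v) ^ 2 := by
          simp only [ext, if_pos hu, neg_sq]
        rw [this]
        exact row_sq hζ hk b u
    _ = ((k : ℝ) + 1) * (4 / (k : ℝ) ^ 2 * ((Tᶜ).card : ℝ)) * ∑ v ∈ Tᶜ, b v ^ 2 := by
        rw [Finset.sum_const, nsmul_eq_mul, hT]
        push_cast
        ring
    _ ≤ 3 * ∑ v ∈ Tᶜ, b v ^ 2 := by
        apply mul_le_mul_of_nonneg_right _ hA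
        have h1 : ((k : ℝ) + 1) * (4 / (k : ℝ) ^ 2 * ((Tᶜ).card : ℝ))
            = 4 * ((k : ℝ) + 1) * ((Tᶜ).card : ℝ) / (k : ℝ) ^ 2 := by ring
        rw [h1, div_le_iff₀ (by positivity)]
        nlinarith

lemma XX_sq (hζ : IsZeta T g k ζ) (hT : T.card = k + 1) (hk : 10 ≤ k)
    (hr : 3 * (Fintype.card V - (k + 1)) ≤ 2 * k) (a : V → ℝ) :
    ∑ v ∈ Tᶜ, XX T g ζ a v ^ 2 ≤ 16 / 9 * ∑ v ∈ Tᶜ, a v ^ 2 := by
  have hk0 : (0 : ℝ) < k := by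
    have : 0 < k := by omega
    exact_mod_cast this
  have hc := card_real hT hr
  have hc0 : (0 : ℝ) ≤ ((Tᶜ).card : ℝ) := Nat.cast_nonneg _
  have hA : 0 ≤ ∑ v ∈ Tᶜ, a v ^ 2 := Finset.sum_nonneg fun v _ => sq_nonneg _
  calc ∑ v ∈ Tᶜ, XX T g ζ a v ^ 2
      ≤ ∑ _v ∈ Tᶜ, 4 / (k : ℝ) ^ 2 * ((Tᶜ).card : ℝ) * ∑ v ∈ Tᶜ, a v ^ 2 :=
        Finset.sum_le_sum fun v _ => row_sq hζ hk a (g v)
    _ = ((Tᶜ).card : ℝ) * (4 / (k : ℝ) ^ 2 * ((Tᶜ).card : ℝ)) * ∑ v ∈ Tᶜ, a v ^ 2 := by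
        rw [Finset.sum_const, nsmul_eq_mul]; ring
    _ ≤ 16 / 9 * ∑ v ∈ Tᶜ, a v ^ 2 := by
        apply mul_le_mul_of_nonneg_right _ hA
        have h1 : ((Tᶜ).card : ℝ) * (4 / (k : ℝ) ^ 2 * ((Tᶜ).card : ℝ))
            = 4 * ((Tᶜ).card : ℝ) ^ 2 / (k : ℝ) ^ 2 := by ring
        rw [h1, div_le_iff₀ (by positivity)]
        nlinarith

lemma ext_add (a b : V → ℝ) (u : V) :
    ext T g ζ (fun v => a v + b v) u = ext T g ζ a u + ext T g ζ b u := by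
  unfold ext
  split_ifs with h
  · simp only [mul_add, Finset.sum_add_distrib]
    ring
  · rfl

end PendQ

open PendQ in
/-- the form on the invariant subspace -/
theorem IsZeta.quad_le (hζ : IsZeta T g k ζ) (hT : T.card = k + 1) (hg : ∀ v, v ∉ T → g v ∈ T)
    (hk : 10 ≤ k) (hr : 3 * (Fintype.card V - (k + 1)) ≤ 2 * k) (a : V → ℝ) :
    ∑ u, ext T g ζ a u * Lp T g (ext T g ζ a) u ≤ 19 / 3 * ∑ u, ext T g ζ a u ^ 2 := by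
  rw [hζ.Lp_ext hT hg hk hr a]
  have h1 : ∑ u, ext T g ζ a u * ext T g ζ (fun v => a v + XX T g ζ a v) u
      = ∑ u, ext T g ζ a u ^ 2 + ∑ u, ext T g ζ a u * ext T g ζ (XX T g ζ a) u := by
    rw [← Finset.sum_add_distrib]
    refine Finset.sum_congr rfl fun u _ => ?_
    rw [ext_add a (XX T g ζ a) u]
    ring
  rw [h1]
  have hext : ∀ (b : V → ℝ) (v : V), v ∈ Tᶜ → ext T g ζ b v = b v := by
    intro b v hv
    have hv' : v ∉ T := by simpa using hv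
    simp only [ext, if_neg hv']
  -- the part outside `T`
  have hout : ∑ v ∈ Tᶜ, ext T g ζ a v * ext T g ζ (XX T g ζ a) v
      ≤ 4 / 3 * ∑ v ∈ Tᶜ, a v ^ 2 := by
    have h2 := XX_sq hζ hT hk hr a
    calc ∑ v ∈ Tᶜ, ext T g ζ a v * ext T g ζ (XX T g ζ a) v
        ≤ ∑ v ∈ Tᶜ, (2 / 3 * a v ^ 2 + 3 / 8 * XX T g ζ a v ^ 2) := by
          refine Finset.sum_le_sum fun v hv => ?_
          rw [hext a v hv, hext _ v hv]
          nlinarith [sq_nonneg (4 * a v - 3 * XX T g ζ a v)]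
      _ = 2 / 3 * ∑ v ∈ Tᶜ, a v ^ 2 + 3 / 8 * ∑ v ∈ Tᶜ, XX T g ζ a v ^ 2 := by
          rw [Finset.sum_add_distrib, Finset.mul_sum, Finset.mul_sum]
      _ ≤ 4 / 3 * ∑ v ∈ Tᶜ, a v ^ 2 := by linarith
  -- the part inside `T`
  have hin : ∑ u ∈ T, ext T g ζ a u * ext T g ζ (XX T g ζ a) u ≤ 4 * ∑ v ∈ Tᶜ, a v ^ 2 := by
    have h2 := XX_sq hζ hT hk hr a
    have h3 := ext_sq hζ hT hk hr a
    have h4 := ext_sq hζ hT hk hr (XX T g ζ a)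
    calc ∑ u ∈ T, ext T g ζ a u * ext T g ζ (XX T g ζ a) u
        ≤ ∑ u ∈ T, (2 / 3 * ext T g ζ a u ^ 2 + 3 / 8 * ext T g ζ (XX T g ζ a) u ^ 2) := by
          refine Finset.sum_le_sum fun u _ => ?_
          nlinarith [sq_nonneg (4 * ext T g ζ a u - 3 * ext T g ζ (XX T g ζ a) u)]
      _ = 2 / 3 * ∑ u ∈ T, ext T g ζ a u ^ 2 + 3 / 8 * ∑ u ∈ T, ext T g ζ (XX T g ζ a) u ^ 2 := by
          rw [Finset.sum_add_distrib, Finset.mul_sum, Finset.mul_sum]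
      _ ≤ 4 * ∑ v ∈ Tᶜ, a v ^ 2 := by linarith
  have hsplit := Finset.sum_add_sum_compl T (fun u => ext T g ζ a u * ext T g ζ (XX T g ζ a) u)
  have hsplit2 := Finset.sum_add_sum_compl T (fun u => ext T g ζ a u ^ 2)
  have hcomp : ∑ v ∈ Tᶜ, ext T g ζ a v ^ 2 = ∑ v ∈ Tᶜ, a v ^ 2 :=
    Finset.sum_congr rfl fun v hv => by rw [hext a v hv]
  have hT0 : 0 ≤ ∑ u ∈ T, ext T g ζ a u ^ 2 := Finset.sum_nonneg fun u _ => sq_nonneg _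
  linarith

end LapEn
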