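import Pool.Agent.LapEn.PendDef

/-! # PENDZ: existence and column sums of the fixed point -/

open Finset Matrix

namespace LapEn

variable {V : Type*} [Fintype V] [DecidableEq V]
variable {T : Finset V} {g : V → V} {k : ℕ} {ζ : V → V → ℝ}

theorem pendz_card (hT : T.card = k + 1)
    (hr : 3 * (Fintype.card V - (k + 1)) ≤ 2 * k) :
    (Fintype.card V : ℝ) - (k + 1) ≤ 2 * k / 3 := by
  have h1 : k + 1 ≤ Fintype.card V := hT ▸ Finset.card_le_univ T
  have h2 : 3 * Fintype.card V ≤ 2 * k + 3 * (k + 1) := by omega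
  have h3 : (3 : ℝ) * Fintype.card V ≤ 2 * k + 3 * (k + 1) := by exact_mod_cast h2
  linarith

theorem exists_isZeta (hT : T.card = k + 1) (hg : ∀ v, v ∉ T → g v ∈ T) (hk : 10 ≤ k)
    (hr : 3 * (Fintype.card V - (k + 1)) ≤ 2 * k) : ∃ ζ, IsZeta T g k ζ := by
  have hk' : (10 : ℝ) ≤ k := by exact_mod_cast hk
  have h1 := pendz_card hT hr
  have h2 : 4 * ∑ u, bb T g u ≤ (k : ℝ) ^ 2 := by
    rw [sum_bb hg, hT]
    push_cast
    nlinarith
  obtain ⟨ζ, h3, h4, h5⟩ := exists_zeta (bb T g) (fun i => bb_nonneg i) (k : ℝ) (by linarith) h2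
  exact ⟨ζ, h3, h4, h5⟩

/-- row sums over the pendant vertices are at most `4/3` -/
theorem IsZeta.row_le (hζ : IsZeta T g k ζ) (hT : T.card = k + 1) (hk : 10 ≤ k)
    (hr : 3 * (Fintype.card V - (k + 1)) ≤ 2 * k) (u : V) :
    ∑ v ∈ Tᶜ, ζ u (g v) ≤ 4 / 3 := by
  have hk' : (10 : ℝ) ≤ k := by exact_mod_cast hk
  have h1 := pendz_card hT hr
  have h2 : ∑ v ∈ Tᶜ, ζ u (g v) ≤ ∑ _v ∈ Tᶜ, (2 / k : ℝ) :=
    Finset.sum_le_sum fun v _ => hζ.le _ _
  have h3 : k + 1 ≤ Fintype.card V := hT ▸ Finset.card_le_univ T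
  rw [Finset.sum_const, nsmul_eq_mul, Finset.card_compl, hT, Nat.cast_sub h3] at h2
  push_cast at h2
  have h4 : ((Fintype.card V : ℝ) - (k + 1)) * (2 / k) ≤ (2 * k / 3) * (2 / k) :=
    mul_le_mul_of_nonneg_right h1 (by positivity)
  have h5 : (2 * (k : ℝ) / 3) * (2 / k) = 4 / 3 := by
    field_simp
    ring
  linarith

theorem IsZeta.colsum (hζ : IsZeta T g k ζ) (hT : T.card = k + 1) (hg : ∀ v, v ∉ T → g v ∈ T)
    (hk : 10 ≤ k) (hr : 3 * (Fintype.card V - (k + 1)) ≤ 2 * k) {w : V} (hw : w ∈ T) :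
    ∑ u ∈ T, ζ u w = 1 := by
  have hk' : (10 : ℝ) ≤ k := by exact_mod_cast hk
  have hcard := pendz_card hT hr
  have hbb : ∀ u, 0 ≤ bb T g u := fun u => bb_nonneg u
  -- the equation for the column sums
  have key : ∀ w ∈ T, (k : ℝ) * ((∑ u ∈ T, ζ u w) - 1) =
      ∑ z ∈ T, bb T g z * ((∑ u ∈ T, ζ u z) - 1) * ζ z w := by
    intro w hw
    have e1 : ∑ u ∈ T, ((k : ℝ) + bb T g u) * ζ u w =
        ∑ u ∈ T, ((if u = w then (0 : ℝ) else 1) + ∑ z, bb T g z * ζ u z * ζ z w) :=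
      Finset.sum_congr rfl fun u _ => hζ.eq u w
    have e2 : ∑ u ∈ T, (if u = w then (0 : ℝ) else 1) = k := by
      have : ∀ u ∈ T, (if u = w then (0 : ℝ) else 1) = 1 - (if u = w then 1 else 0) := by
        intro u _
        split <;> norm_num
      rw [Finset.sum_congr rfl this, Finset.sum_sub_distrib, Finset.sum_ite_eq' T w, if_pos hw]
      simp [hT]
    have e3 : ∑ u ∈ T, ∑ z, bb T g z * ζ u z * ζ z w =
        ∑ z ∈ T, bb T g z * (∑ u ∈ T, ζ u z) * ζ z w := by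
      rw [Finset.sum_comm]
      symm
      refine Finset.sum_subset_zero_on_sdiff (Finset.subset_univ T) ?_ ?_
      · intro z hz
        have hz' : z ∉ T := by simpa using hz
        exact Finset.sum_eq_zero fun u _ => by rw [bb_eq_zero hg hz']; ring
      · intro z _
        rw [Finset.mul_sum, Finset.sum_mul]
    have e4 : ∑ u ∈ T, ((k : ℝ) + bb T g u) * ζ u w =
        k * (∑ u ∈ T, ζ u w) + ∑ z ∈ T, bb T g z * ζ z w := by
      rw [Finset.mul_sum, ← Finset.sum_add_distrib]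
      exact Finset.sum_congr rfl fun u _ => by ring
    rw [Finset.sum_add_distrib, e2, e3, e4] at e1
    have e5 : ∑ z ∈ T, bb T g z * ((∑ u ∈ T, ζ u z) - 1) * ζ z w =
        ∑ z ∈ T, bb T g z * (∑ u ∈ T, ζ u z) * ζ z w - ∑ z ∈ T, bb T g z * ζ z w := by
      rw [← Finset.sum_sub_distrib]
      exact Finset.sum_congr rfl fun u _ => by ring
    rw [e5]
    linarith
  obtain ⟨w0, hw0, hmax⟩ := Finset.exists_max_image T
    (fun w => |(∑ u ∈ T, ζ u w) - 1|) ⟨w, hw⟩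
  set m := |(∑ u ∈ T, ζ u w0) - 1| with hm
  have hm0 : 0 ≤ m := abs_nonneg _
  have h1 : (k : ℝ) * m ≤ 4 / 3 * m := by
    have h2 : (k : ℝ) * m = |∑ z ∈ T, bb T g z * ((∑ u ∈ T, ζ u z) - 1) * ζ z w0| := by
      rw [← key w0 hw0, abs_mul, abs_of_nonneg (by linarith : (0 : ℝ) ≤ k)]
    rw [h2]
    calc |∑ z ∈ T, bb T g z * ((∑ u ∈ T, ζ u z) - 1) * ζ z w0|
        ≤ ∑ z ∈ T, |bb T g z * ((∑ u ∈ T, ζ u z) - 1) * ζ z w0| :=
          Finset.abs_sum_le_sum_abs _ _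
      _ ≤ ∑ z ∈ T, bb T g z * (m * (2 / k)) := by
          refine Finset.sum_le_sum fun z hz => ?_
          rw [abs_mul, abs_mul, abs_of_nonneg (hbb z), abs_of_nonneg (hζ.nonneg z w0), mul_assoc]
          refine mul_le_mul_of_nonneg_left ?_ (hbb z)
          exact mul_le_mul (hmax z hz) (hζ.le z w0) (hζ.nonneg z w0) hm0
      _ = (∑ z ∈ T, bb T g z) * (m * (2 / k)) := by rw [Finset.sum_mul]
      _ ≤ (2 * k / 3) * (m * (2 / k)) := by
          refine mul_le_mul_of_nonneg_right ?_ (by positivity)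
          have h3 : ∑ z ∈ T, bb T g z ≤ ∑ z, bb T g z :=
            Finset.sum_le_univ_sum_of_nonneg hbb
          rw [sum_bb hg, hT] at h3
          push_cast at h3
          linarith
      _ = 4 / 3 * m := by
          field_simp
          ring
  have h2 : m = 0 := by nlinarith
  have h3 : |(∑ u ∈ T, ζ u w) - 1| ≤ 0 := by
    have := hmax w hw
    rw [h2] at this
    exact this
  have h4 := abs_eq_zero.1 (le_antisymm h3 (abs_nonneg _))
  linarith

end LapEn
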