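import Pool.Agent.LapEn.Defs

/-! # PINEA: the pineapple, connectivity and isomorphism -/

open Finset Matrix

namespace LapEn

theorem pineapple_connected {n p : ℕ} (hn : 1 ≤ n) : (pineapple n p).Connected := by
  rw [SimpleGraph.connected_iff_exists_forall_reachable]
  refine ⟨⟨0, hn⟩, fun w => ?_⟩
  by_cases hw : w = ⟨0, hn⟩
  · rw [hw]
  · exact SimpleGraph.Adj.reachable ⟨fun h => hw h.symm, Or.inr (Or.inl rfl)⟩

theorem pend_exists_equiv {V : Type*} [Fintype V] [DecidableEq V] (T : Finset V) {m : ℕ}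
    (hT : T.card = m) : ∃ e : V ≃ Fin (Fintype.card V), ∀ v, ((e v).val < m ↔ v ∈ T) := by
  have hle : m ≤ Fintype.card V := by rw [← hT]; exact Finset.card_le_univ T
  have c1 : Fintype.card {v // v ∈ T} = m := by rw [Fintype.card_coe, hT]
  have c2 : Fintype.card {v // ¬ v ∈ T} = Fintype.card V - m := by
    rw [Fintype.card_subtype_compl, Fintype.card_coe, hT]
  let e1 : {v // v ∈ T} ≃ Fin m := Fintype.equivFinOfCardEq c1
  let e2 : {v // ¬ v ∈ T} ≃ Fin (Fintype.card V - m) := Fintype.equivFinOfCardEq c2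
  let e : V ≃ Fin (Fintype.card V) :=
    ((Equiv.sumCompl (fun v => v ∈ T)).symm.trans ((Equiv.sumCongr e1 e2).trans finSumFinEquiv)).trans
      (finCongr (by omega))
  refine ⟨e, fun v => ?_⟩
  by_cases hv : v ∈ T
  · have h1 : (Equiv.sumCompl (fun v => v ∈ T)).symm v = Sum.inl ⟨v, hv⟩ :=
      Equiv.sumCompl_symm_apply_of_pos hv
    have h2 : (e v).val = (e1 ⟨v, hv⟩).val := by
      simp only [e, Equiv.trans_apply, h1, Equiv.sumCongr_apply, Sum.map_inl,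
        finSumFinEquiv_apply_left, finCongr_apply, Fin.val_cast, Fin.val_castAdd]
    rw [h2]
    exact ⟨fun _ => hv, fun _ => (e1 ⟨v, hv⟩).isLt⟩
  · have h1 : (Equiv.sumCompl (fun v => v ∈ T)).symm v = Sum.inr ⟨v, hv⟩ :=
      Equiv.sumCompl_symm_apply_of_neg hv
    have h2 : (e v).val = m + (e2 ⟨v, hv⟩).val := by
      simp only [e, Equiv.trans_apply, h1, Equiv.sumCongr_apply, Sum.map_inr,
        finSumFinEquiv_apply_right, finCongr_apply, Fin.val_cast, Fin.val_natAdd]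
    rw [h2]
    exact ⟨fun h => by omega, fun h => absurd h hv⟩

theorem pend_iso {V : Type*} [Fintype V] [DecidableEq V] {T : Finset V} {g : V → V} {k : ℕ}
    (hT : T.card = k + 1) (hg : ∀ v, v ∉ T → g v ∈ T)
    (hgg : ∀ v w, v ∉ T → w ∉ T → g v = g w) :
    Nonempty (pend T g ≃g pineapple (Fintype.card V) (k + 1)) := by
  obtain ⟨c, hcT, hc⟩ : ∃ c ∈ T, ∀ v, v ∉ T → g v = c := by
    by_cases h : ∃ v, v ∉ T
    · obtain ⟨v, hv⟩ := h
      exact ⟨g v, hg v hv, fun w hw => hgg w v hw hv⟩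
    · push Not at h
      obtain ⟨c, hc⟩ : T.Nonempty := by
        rw [← Finset.card_pos]; omega
      exact ⟨c, hc, fun v hv => absurd (h v) hv⟩
  obtain ⟨e0, he0⟩ := pend_exists_equiv T hT
  have hn : 0 < Fintype.card V := Fintype.card_pos_iff.mpr ⟨c⟩
  let z : Fin (Fintype.card V) := ⟨0, hn⟩
  let e : V ≃ Fin (Fintype.card V) := e0.trans (Equiv.swap (e0 c) z)
  have hec : e c = z := by simp [e]
  have he : ∀ v, ((e v).val < k + 1 ↔ v ∈ T) := by
    intro v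
    have hz : z.val < k + 1 := by simp [z]
    have hcc : (e0 c).val < k + 1 := (he0 c).mpr hcT
    rw [← he0 v]
    show ((Equiv.swap (e0 c) z) (e0 v)).val < k + 1 ↔ (e0 v).val < k + 1
    by_cases h1 : e0 v = e0 c
    · rw [h1, Equiv.swap_apply_left]
      exact ⟨fun _ => hcc, fun _ => hz⟩
    · by_cases h2 : e0 v = z
      · rw [h2, Equiv.swap_apply_right]
        exact ⟨fun _ => hz, fun _ => hcc⟩
      · rw [Equiv.swap_apply_of_ne_of_ne h1 h2]
  have hval : ∀ v, ((e v).val = 0 ↔ v = c) := by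
    intro v
    constructor
    · intro h
      apply e.injective
      rw [hec]
      exact Fin.ext h
    · rintro rfl; rw [hec]
  refine ⟨⟨e, ?_⟩⟩
  intro u v
  show (e u ≠ e v ∧ (((e u).val < k + 1 ∧ (e v).val < k + 1) ∨ (e u).val = 0 ∨ (e v).val = 0)) ↔
    (u ≠ v ∧ ((u ∈ T ∧ v ∈ T) ∨ (u ∉ T ∧ v = g u) ∨ (v ∉ T ∧ u = g v)))
  rw [he, he, hval, hval, e.injective.ne_iff]
  constructor
  · rintro ⟨h1, h2 | h2 | h2⟩
    · exact ⟨h1, Or.inl h2⟩
    · subst h2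
      by_cases hv : v ∈ T
      · exact ⟨h1, Or.inl ⟨hcT, hv⟩⟩
      · exact ⟨h1, Or.inr (Or.inr ⟨hv, (hc v hv).symm⟩)⟩
    · subst h2
      by_cases hu : u ∈ T
      · exact ⟨h1, Or.inl ⟨hu, hcT⟩⟩
      · exact ⟨h1, Or.inr (Or.inl ⟨hu, (hc u hu).symm⟩)⟩
  · rintro ⟨h1, h2 | ⟨h2, h3⟩ | ⟨h2, h3⟩⟩
    · exact ⟨h1, Or.inl h2⟩
    · exact ⟨h1, Or.inr (Or.inr (h3.trans (hc u h2)))⟩
    · exact ⟨h1, Or.inr (Or.inl (h3.trans (hc v h2)))⟩

end LapEn
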