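import Pool.Agent.LapEn.Facts
import Pool.Agent.LapEn.Point

/-! # STAGE1: the stability inequality -/

open Finset Matrix

namespace LapEn

variable {V : Type*} [Fintype V] [DecidableEq V]
variable {P : Matrix V V ℝ} {k : ℕ}

/-- Indicator of the class `T`. -/
noncomputable def st1T (P : Matrix V V ℝ) (u : V) : ℝ := if 7 / 8 ≤ P u u then 1 else 0

/-- Indicator of the class `R`. -/
noncomputable def st1R (P : Matrix V V ℝ) (u : V) : ℝ := if P u u ≤ 1 / 8 then 1 else 0

/-- Indicator of the class `M`. -/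
noncomputable def st1M (P : Matrix V V ℝ) (u : V) : ℝ :=
  if 1 / 8 < P u u ∧ P u u < 7 / 8 then 1 else 0

/-- Off-diagonal squares. -/
noncomputable def st1x (P : Matrix V V ℝ) (u v : V) : ℝ := if v = u then 0 else P u v ^ 2

/-- The pointwise bound. -/
noncomputable def st1B (P : Matrix V V ℝ) (θ : ℝ) (u v : V) : ℝ :=
  (st1T P u * st1T P v * (dd P u v - θ) + (if v = u then θ * st1T P u else 0))
  + (2 - θ) * ((st1T P u * st1M P v + st1M P u * st1T P v + st1M P u * st1M P v) *
      (P u u * P v v))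
  - (θ - 1) / 2 * (st1M P u * (P u u * (1 - P u u)) * (st1T P v * P v v)
      + st1T P u * P u u * (st1M P v * (P v v * (1 - P v v))))
  + 14 * ((st1R P u + st1R P v) * st1x P u v) + 366 * ((st1M P u + st1M P v) * st1x P u v)

omit [Fintype V] [DecidableEq V] in
theorem st1_class (P : Matrix V V ℝ) (u : V) :
    (7 / 8 ≤ P u u ∧ st1T P u = 1 ∧ st1M P u = 0 ∧ st1R P u = 0) ∨
    (1 / 8 < P u u ∧ P u u < 7 / 8 ∧ st1T P u = 0 ∧ st1M P u = 1 ∧ st1R P u = 0) ∨
    (P u u ≤ 1 / 8 ∧ st1T P u = 0 ∧ st1M P u = 0 ∧ st1R P u = 1) := by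
  unfold st1T st1M st1R
  rcases le_or_gt (7 / 8) (P u u) with h | h
  · left
    refine ⟨h, if_pos h, if_neg ?_, if_neg ?_⟩
    · rintro ⟨_, h2⟩; linarith
    · intro h2; linarith
  · right
    rcases le_or_gt (P u u) (1 / 8) with h' | h'
    · right
      refine ⟨h', if_neg (by linarith), if_neg ?_, if_pos h'⟩
      rintro ⟨h2, _⟩; linarith
    · left
      exact ⟨h', h, if_neg (by linarith), if_pos ⟨h', h⟩, if_neg (by linarith)⟩

theorem st1_TT (h : IsPr P k) {θ : ℝ} (h2 : θ ≤ 22 / 15) {u v : V} (huv : u ≠ v)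
    (hu : 7 / 8 ≤ P u u) (hv : 7 / 8 ≤ P v v) : θ ≤ dd P u v := by
  have h3 := h.dd_ge huv
  have hu1 := h.le_one u
  have hv1 := h.le_one v
  have e1 : √(1 - P u u) ^ 2 = 1 - P u u := Real.sq_sqrt (by linarith)
  have e2 : √(1 - P v v) ^ 2 = 1 - P v v := Real.sq_sqrt (by linarith)
  nlinarith [sq_nonneg (√(1 - P u u) - √(1 - P v v))]

theorem st1_point (h : IsPr P k) {θ : ℝ} (h1 : 6 / 5 ≤ θ) (h2 : θ ≤ 22 / 15) (u v : V) :
    (if v = u then 0 else max (dd P u v - θ) 0) ≤ st1B P θ u v := by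
  have hu0 := h.nonneg u
  have hv0 := h.nonneg v
  have hu1 := h.le_one u
  have hv1 := h.le_one v
  by_cases huv : v = u
  · subst huv
    rw [if_pos rfl]
    unfold st1B st1x dd
    rw [if_pos rfl, if_pos rfl]
    have hpp : 0 ≤ P v v * P v v := mul_nonneg hu0 hu0
    rcases st1_class P v with ⟨_, a, b, c⟩ | ⟨_, _, a, b, c⟩ | ⟨_, a, b, c⟩ <;> rw [a, b, c] <;>
      nlinarith
  · rw [if_neg huv]
    have hx : st1x P u v = P u v ^ 2 := if_neg huv
    have hx0 : 0 ≤ P u v ^ 2 := sq_nonneg _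
    unfold st1B
    rw [if_neg huv, hx]
    have huv' : u ≠ v := fun h => huv h.symm
    rcases st1_class P u with ⟨hu, a, b, c⟩ | ⟨hu, hu', a, b, c⟩ | ⟨hu, a, b, c⟩ <;>
      rcases st1_class P v with ⟨hv, a', b', c'⟩ | ⟨hv, hv', a', b', c'⟩ | ⟨hv, a', b', c'⟩ <;>
      rw [a, b, c, a', b', c']
    · have := st1_TT h h2 huv' hu hv
      rw [max_eq_left (by linarith)]
      linarith
    · have := pt_MT (x := P u v) hv.le hv'.le hu hu1 h1 h2
      have e : dd P u v - θ = P v v + P u u - 2 * P u v - θ := by unfold dd; ring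
      rw [e]
      linarith
    · have := pt_TR (x := P u v) hu1 hv h1
      have e : dd P u v - θ = P u u + P v v - 2 * P u v - θ := by unfold dd; ring
      rw [e]
      linarith
    · have := pt_MT (x := P u v) hu.le hu'.le hv hv1 h1 h2
      have e : dd P u v - θ = P u u + P v v - 2 * P u v - θ := by unfold dd; ring
      rw [e]
      linarith
    · have := pt_MM (x := P u v) hu.le hu'.le hv.le hv'.le h1 h2
      have e : dd P u v - θ = P u u + P v v - 2 * P u v - θ := by unfold dd; ring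
      rw [e]
      linarith
    · have := pt_TR (x := P u v) hu1 hv h1
      have e : dd P u v - θ = P u u + P v v - 2 * P u v - θ := by unfold dd; ring
      rw [e]
      linarith
    · have := pt_TR (x := P u v) hv1 hu h1
      have e : dd P u v - θ = P v v + P u u - 2 * P u v - θ := by unfold dd; ring
      rw [e]
      linarith
    · have := pt_TR (x := P u v) hv1 hu h1
      have e : dd P u v - θ = P v v + P u u - 2 * P u v - θ := by unfold dd; ring
      rw [e]
      linarith
    · have := pt_TR (x := P u v) hv1 hu h1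
      have e : dd P u v - θ = P v v + P u u - 2 * P u v - θ := by unfold dd; ring
      rw [e]
      linarith

/-! ### the sums -/

theorem st1_W2_le (h : IsPr P k) {θ : ℝ} (h1 : 6 / 5 ≤ θ) (h2 : θ ≤ 22 / 15) :
    W2 P θ ≤ ∑ u, ∑ v, st1B P θ u v := by
  unfold W2
  refine Finset.sum_le_sum fun u _ => ?_
  have : ∑ v ∈ univ.erase u, max (dd P u v - θ) 0 =
      ∑ v, if v = u then 0 else max (dd P u v - θ) 0 := by
    rw [Finset.sum_ite, Finset.sum_const_zero, zero_add]
    refine Finset.sum_congr ?_ fun _ _ => rfl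
    ext v
    simp
  rw [this]
  exact Finset.sum_le_sum fun v _ => st1_point h h1 h2 u v

theorem st1_sum_x (h : IsPr P k) (u : V) : ∑ v, st1x P u v = P u u * (1 - P u u) := by
  rw [← h.sum_sq_erase u]
  unfold st1x
  rw [Finset.sum_ite, Finset.sum_const_zero, zero_add]
  refine Finset.sum_congr ?_ fun _ _ => rfl
  ext v
  simp

theorem st1_x_symm (h : IsPr P k) (u v : V) : st1x P u v = st1x P v u := by
  unfold st1x
  by_cases huv : v = u
  · rw [if_pos huv, if_pos huv.symm]
  · rw [if_neg huv, if_neg (fun h => huv h.symm), h.symm u v]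

/-- Sum of a symmetric pair term. -/
theorem st1_sum_pair (h : IsPr P k) (c : V → ℝ) :
    ∑ u, ∑ v, (c u + c v) * st1x P u v = 2 * ∑ u, c u * (P u u * (1 - P u u)) := by
  have e1 : ∑ u, ∑ v, c u * st1x P u v = ∑ u, c u * (P u u * (1 - P u u)) := by
    refine Finset.sum_congr rfl fun u _ => ?_
    rw [← Finset.mul_sum, st1_sum_x h]
  have e2 : ∑ u, ∑ v, c v * st1x P u v = ∑ u, c u * (P u u * (1 - P u u)) := by
    rw [Finset.sum_comm]
    refine Finset.sum_congr rfl fun v _ => ?_
    rw [← Finset.mul_sum, ← st1_sum_x h]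
    congr 1
    exact Finset.sum_congr rfl fun u _ => st1_x_symm h u v
  simp only [add_mul, Finset.sum_add_distrib]
  rw [e1, e2]; ring

omit [DecidableEq V] in
theorem st1_prod (f g : V → ℝ) : ∑ u, ∑ v, f u * g v = (∑ u, f u) * ∑ v, g v := by
  rw [Finset.sum_mul_sum]

omit [DecidableEq V] in
theorem st1_NN (P : Matrix V V ℝ) : ∑ u, st1T P u * P u u = NN P := by
  unfold NN clT st1T
  rw [Finset.sum_filter]
  refine Finset.sum_congr rfl fun u _ => ?_
  split_ifs <;> simp

omit [DecidableEq V] in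
theorem st1_card (P : Matrix V V ℝ) : ∑ u, st1T P u = ((clT P).card : ℝ) := by
  unfold clT st1T
  rw [Finset.sum_boole]

omit [DecidableEq V] in
theorem st1_mu (P : Matrix V V ℝ) : ∑ u, st1M P u * P u u = mu P := by
  unfold mu clM st1M
  rw [Finset.sum_filter]
  refine Finset.sum_congr rfl fun u _ => ?_
  split_ifs <;> simp

omit [DecidableEq V] in
theorem st1_YM (P : Matrix V V ℝ) : ∑ u, st1M P u * (P u u * (1 - P u u)) = YM P := by
  unfold YM clM st1M
  rw [Finset.sum_filter]
  refine Finset.sum_congr rfl fun u _ => ?_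
  split_ifs <;> simp

theorem st1_R (h : IsPr P k) : ∑ u, st1R P u * (P u u * (1 - P u u)) ≤ be P := by
  unfold be clR st1R
  rw [Finset.sum_filter]
  refine Finset.sum_le_sum fun u _ => ?_
  have h0 := h.nonneg u
  split_ifs
  · nlinarith
  · simp

omit [DecidableEq V] in
theorem st1_Z (P : Matrix V V ℝ) :
    ∑ u, ∑ v, st1T P u * st1T P v * P u v = ∑ u ∈ clT P, ∑ v ∈ clT P, P u v := by
  unfold clT st1T
  rw [Finset.sum_filter]
  refine Finset.sum_congr rfl fun u _ => ?_
  by_cases hu : 7 / 8 ≤ P u u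
  · rw [if_pos hu, if_pos hu, Finset.sum_filter]
    refine Finset.sum_congr rfl fun v _ => ?_
    split_ifs <;> simp
  · rw [if_neg hu, if_neg hu]
    simp

theorem st1_total (h : IsPr P k) (θ : ℝ) :
    ∑ u, ∑ v, st1B P θ u v ≤
      2 * ((clT P).card : ℝ) * NN P - 2 * (∑ u ∈ clT P, ∑ v ∈ clT P, P u v)
        - θ * ((clT P).card : ℝ) * (((clT P).card : ℝ) - 1)
        + (2 - θ) * (2 * mu P * NN P + mu P ^ 2) - (θ - 1) * NN P * YM P
        + 28 * be P + 732 * YM P := by
  have s1 : ∑ u, ∑ v, (st1T P u * st1T P v * (dd P u v - θ) +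
      (if v = u then θ * st1T P u else 0)) =
      2 * ((clT P).card : ℝ) * NN P - 2 * (∑ u ∈ clT P, ∑ v ∈ clT P, P u v)
        - θ * ((clT P).card : ℝ) * (((clT P).card : ℝ) - 1) := by
    have e : ∀ u v : V, st1T P u * st1T P v * (dd P u v - θ) +
        (if v = u then θ * st1T P u else 0) =
        (st1T P u * P u u) * st1T P v + st1T P u * (st1T P v * P v v)
          - 2 * (st1T P u * st1T P v * P u v) - θ * (st1T P u * st1T P v)
          + (if v = u then θ * st1T P u else 0) := by
      intro u v; unfold dd; ring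
    simp only [e, Finset.sum_add_distrib, Finset.sum_sub_distrib]
    rw [st1_prod, st1_prod, st1_NN, st1_card]
    have e3 : ∑ u, ∑ v, (if v = u then θ * st1T P u else 0) = θ * ((clT P).card : ℝ) := by
      simp only [Finset.sum_ite_eq', Finset.mem_univ, if_true]
      rw [← Finset.mul_sum, st1_card]
    have e4 : ∑ u, ∑ v, 2 * (st1T P u * st1T P v * P u v) =
        2 * ∑ u ∈ clT P, ∑ v ∈ clT P, P u v := by
      rw [← st1_Z, Finset.mul_sum]
      exact Finset.sum_congr rfl fun u _ => by rw [Finset.mul_sum]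
    have e5 : ∑ u, ∑ v, θ * (st1T P u * st1T P v) =
        θ * (((clT P).card : ℝ) * ((clT P).card : ℝ)) := by
      rw [← st1_card, ← st1_prod, Finset.mul_sum]
      exact Finset.sum_congr rfl fun u _ => by rw [Finset.mul_sum]
    rw [e3, e4, e5]
    ring
  have s2 : ∑ u, ∑ v, (2 - θ) * ((st1T P u * st1M P v + st1M P u * st1T P v +
      st1M P u * st1M P v) * (P u u * P v v)) = (2 - θ) * (2 * mu P * NN P + mu P ^ 2) := by
    have e : ∀ u v : V, (2 - θ) * ((st1T P u * st1M P v + st1M P u * st1T P v +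
        st1M P u * st1M P v) * (P u u * P v v)) =
        (2 - θ) * ((st1T P u * P u u) * (st1M P v * P v v)
          + (st1M P u * P u u) * (st1T P v * P v v)
          + (st1M P u * P u u) * (st1M P v * P v v)) := by
      intro u v; ring
    simp only [e, ← Finset.mul_sum, Finset.sum_add_distrib]
    simp only [← Finset.sum_mul, st1_NN, st1_mu]
    ring
  have s3 : ∑ u, ∑ v, (θ - 1) / 2 * (st1M P u * (P u u * (1 - P u u)) * (st1T P v * P v v)
      + st1T P u * P u u * (st1M P v * (P v v * (1 - P v v)))) = (θ - 1) * NN P * YM P := by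
    simp only [← Finset.mul_sum, Finset.sum_add_distrib]
    simp only [← Finset.sum_mul, st1_NN, st1_YM]
    ring
  have s4 : ∑ u, ∑ v, 14 * ((st1R P u + st1R P v) * st1x P u v) ≤ 28 * be P := by
    simp only [← Finset.mul_sum]
    rw [st1_sum_pair h]
    have := st1_R h
    linarith
  have s5 : ∑ u, ∑ v, 366 * ((st1M P u + st1M P v) * st1x P u v) = 732 * YM P := by
    simp only [← Finset.mul_sum]
    rw [st1_sum_pair h, st1_YM]
    ring
  have hsum : ∑ u, ∑ v, st1B P θ u v =
      ∑ u, ∑ v, (st1T P u * st1T P v * (dd P u v - θ) +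
        (if v = u then θ * st1T P u else 0))
      + ∑ u, ∑ v, (2 - θ) * ((st1T P u * st1M P v + st1M P u * st1T P v +
        st1M P u * st1M P v) * (P u u * P v v))
      - ∑ u, ∑ v, (θ - 1) / 2 * (st1M P u * (P u u * (1 - P u u)) * (st1T P v * P v v)
        + st1T P u * P u u * (st1M P v * (P v v * (1 - P v v))))
      + ∑ u, ∑ v, 14 * ((st1R P u + st1R P v) * st1x P u v)
      + ∑ u, ∑ v, 366 * ((st1M P u + st1M P v) * st1x P u v) := by
    simp only [← Finset.sum_add_distrib, ← Finset.sum_sub_distrib]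
    rfl
  rw [hsum, s1, s2, s3, s5]
  linarith

theorem stage1 (h : IsPr P k) {θ : ℝ} (h1 : 6 / 5 ≤ θ) (h2 : θ ≤ 22 / 15) :
    W2 P θ ≤ (2 - θ) * (k * (k + 1))
      + 2 * (-(NN P * max ((θ - 1) * (al P - 1)) ((2 - θ) * (1 - al P)))
        - ((θ - 1) / 2 * NN P - 366) * YM P - ((2 - θ) * NN P - 14) * be P) := by
  have hW := (st1_W2_le h h1 h2).trans (st1_total h θ)
  have hk := h.sum_classes
  have hT := card_clT P
  have hZ0 := h.quad_nonneg (clT P)
  have hZ1 := h.quad_ge (clT P)
  have hal : ∑ u ∈ clT P, (1 - P u u) = al P := rfl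
  rw [hal] at hZ1
  set Z := ∑ u ∈ clT P, ∑ v ∈ clT P, P u v with hZ
  have hN : 0 ≤ NN P := Finset.sum_nonneg fun u _ => h.nonneg u
  have hb : 0 ≤ be P := Finset.sum_nonneg fun u _ => h.nonneg u
  have hm : 0 ≤ mu P := Finset.sum_nonneg fun u _ => h.nonneg u
  have ha : 0 ≤ al P := Finset.sum_nonneg fun u _ => by linarith [h.le_one u]
  rw [hT] at hW hZ1
  rw [← hk]
  generalize NN P = N at *
  generalize be P = b at *
  generalize mu P = m at *
  generalize al P = a at *
  generalize YM P = Y at *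
  refine hW.trans ?_
  have hbm : 0 ≤ (2 - θ) * (b ^ 2 + 2 * b * m + b + m) := by
    apply mul_nonneg (by linarith)
    positivity
  rcases le_total 1 a with h3 | h3
  · have hmax : max ((θ - 1) * (a - 1)) ((2 - θ) * (1 - a)) = (θ - 1) * (a - 1) := by
      apply max_eq_left
      nlinarith
    rw [hmax]
    have h4 : 0 ≤ θ * a * (a - 1) := by
      apply mul_nonneg (mul_nonneg (by linarith) ha) (by linarith)
    nlinarith
  · have hmax : max ((θ - 1) * (a - 1)) ((2 - θ) * (1 - a)) = (2 - θ) * (1 - a) := by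
      apply max_eq_right
      nlinarith
    rw [hmax]
    have h4 : 0 ≤ (2 - θ) * a * (1 - a) := by
      apply mul_nonneg (mul_nonneg (by linarith) ha) (by linarith)
    nlinarith

end LapEn
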