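import Pool.Agent.LapEn.Crude
import Pool.Agent.LapEn.Stage1
import Pool.Agent.LapEn.Conn

/-! # STAGE2: structure of near-extremal pairs -/

open Finset Matrix

namespace LapEn

variable {V : Type*} [Fintype V] [DecidableEq V]
variable {P : Matrix V V ℝ} {k : ℕ}

theorem IsPr.YM_nonneg (h : IsPr P k) : 0 ≤ YM P :=
  Finset.sum_nonneg fun u _ => mul_nonneg (h.nonneg u) (sub_nonneg.2 (h.le_one u))

theorem IsPr.be_nonneg (h : IsPr P k) : 0 ≤ be P := Finset.sum_nonneg fun u _ => h.nonneg u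

theorem max_nonneg' {s t a : ℝ} (hs : 0 ≤ s) (ht : 0 ≤ t) : 0 ≤ max (s * (a - 1)) (t * (1 - a)) := by
  rcases le_total 1 a with h | h
  · exact le_max_of_le_left (mul_nonneg hs (by linarith))
  · exact le_max_of_le_right (mul_nonneg ht (by linarith))

/-! ### real-number lemmas -/

theorem real_AG {C b s R : ℝ} (hs : s ^ 2 = R * b) (hC : 0 < C) (hb : 0 ≤ b)
    (hR : R ≤ 2 * C) : 2 * s ≤ C * b + 2 := by
  by_contra hcon
  push Not at hcon
  have h0 : 0 ≤ C * b + 2 := by positivity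
  have e1 : (C * b + 2) ^ 2 < (2 * s) ^ 2 := pow_lt_pow_left₀ hcon h0 (by norm_num)
  have e2 : (2 * s) ^ 2 = 4 * (R * b) := by rw [mul_pow, hs]; norm_num
  have e3 : R * b ≤ 2 * C * b := mul_le_mul_of_nonneg_right hR hb
  have e4 : (C * b + 2) ^ 2 = (C * b - 2) ^ 2 + 8 * (C * b) := by ring
  have e6 := sq_nonneg (C * b - 2)
  linarith

theorem real_b {C b s R N : ℝ} (hs : s ^ 2 = R * b) (hC : 53 / 100 * N ≤ C) (hN : 9700 ≤ N)
    (hb : 0 ≤ b) (hR : R ≤ 21 / 20 * N) (hCb : C * b ≤ 2 * s) : b ≤ 1 / 600 := by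
  by_contra hcon
  push Not at hcon
  have hC0 : 0 < C := by linarith
  have hbpos : 0 < b := by linarith
  have e1 : (C * b) ^ 2 ≤ (2 * s) ^ 2 := pow_le_pow_left₀ (by positivity) hCb 2
  have e2 : (2 * s) ^ 2 = 4 * (R * b) := by rw [mul_pow, hs]; norm_num
  have e3 : C ^ 2 * b ≤ 4 * R := by
    have : (C ^ 2 * b) * b ≤ (4 * R) * b := by
      have a1 : (C ^ 2 * b) * b = (C * b) ^ 2 := by ring
      have a2 : (4 * R) * b = 4 * (R * b) := by ring
      rw [a1, a2, ← e2]; exact e1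
    exact le_of_mul_le_mul_right this hbpos
  have e4 : (53 / 100 * N) ^ 2 ≤ C ^ 2 := pow_le_pow_left₀ (by linarith) hC 2
  have e6 : (53 / 100 * N) ^ 2 * (1 / 600) ≤ C ^ 2 * b :=
    mul_le_mul e4 hcon.le (by norm_num) (by positivity)
  have e7 : (53 / 100 * N) ^ 2 * (1 / 600) ≤ 4 * (21 / 20 * N) := by linarith
  nlinarith

theorem real_low {n k θ : ℝ} (hk0 : 0 ≤ k) (hkn : k + 1 ≤ n) (hnθ : n * θ = 2 * k) :
    (2 - θ) * k ^ 2 ≤ (2 - θ) * (k * (k + 1)) - 2 * (θ - 1) * (n - k - 1) := by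
  have hn0 : 0 < n := by linarith
  have e1 : 2 * (θ - 1) * (n - k - 1) ≤ (2 - θ) * k := by
    have e2 : (2 - θ) * k * n = 2 * (n - k) * k := by
      have : (2 - θ) * k * n = (2 * n - n * θ) * k := by ring
      rw [this, hnθ]; ring
    have e3 : 2 * (θ - 1) * (n - k - 1) * n = 2 * (2 * k - n) * (n - k - 1) := by
      have : 2 * (θ - 1) * (n - k - 1) * n = 2 * (n * θ - n) * (n - k - 1) := by ring
      rw [this, hnθ]
    have e5 : 0 ≤ k * (n - k - 1) := mul_nonneg hk0 (by linarith)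
    have e6 : 0 ≤ (n - k) * (n - k - 1) := mul_nonneg (by linarith) (by linarith)
    have e4 : 2 * (θ - 1) * (n - k - 1) * n ≤ (2 - θ) * k * n := by
      rw [e2, e3]
      nlinarith
    exact le_of_mul_le_mul_right e4 hn0
  have e7 : (2 - θ) * (k * (k + 1)) = (2 - θ) * k ^ 2 + (2 - θ) * k := by ring
  linarith

theorem real_star {n k θ N a b μ M R Y c s F W Phi : ℝ} (h1 : 6 / 5 ≤ θ)
    (hPhi : Phi = (2 - θ) * (k * (k + 1)) - 2 * (θ - 1) * (n - k - 1))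
    (hF : Phi ≤ F) (hconn : F ≤ W - 2 * ((θ - 1) * R - b - 2 * s))
    (hst : W ≤ (2 - θ) * (k * (k + 1))
      + 2 * (-(N * c) - ((θ - 1) / 2 * N - 366) * Y - ((2 - θ) * N - 14) * b))
    (hc1 : (θ - 1) * (a - 1) ≤ c) (hM8 : M - μ ≤ 8 * Y) (hb0 : 0 ≤ b)
    (hcls : (N + a) + M + R = n) (hsum : N + μ + b = k) :
    (N - 1) * c + ((θ - 1) / 2 * N - 366 - 8 * (θ - 1)) * Y + ((2 - θ) * N - 15) * b
      ≤ 2 * s := by
  have e1 : (θ - 1) * (n - k - 1 - R)
      = (θ - 1) * (a - 1) + (θ - 1) * (M - μ) - (θ - 1) * b := by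
    have : n - k - 1 - R = (a - 1) + (M - μ) - b := by linarith
    rw [this]; ring
  have e2 : (θ - 1) * (M - μ) ≤ (θ - 1) * (8 * Y) :=
    mul_le_mul_of_nonneg_left hM8 (by linarith)
  have e3 : 0 ≤ (θ - 1) * b := mul_nonneg (by linarith) hb0
  have e4 : Phi ≤ (2 - θ) * (k * (k + 1))
    + 2 * (-(N * c) - ((θ - 1) / 2 * N - 366) * Y - ((2 - θ) * N - 14) * b)
    - 2 * ((θ - 1) * R - b - 2 * s) := by linarith
  rw [hPhi] at e4
  have e5 : 2 * (θ - 1) * (n - k - 1) = 2 * ((θ - 1) * (n - k - 1 - R)) + 2 * ((θ - 1) * R) := by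
    ring
  have e6 : (N - 1) * c = N * c - c := by ring
  have e7 : ((θ - 1) / 2 * N - 366 - 8 * (θ - 1)) * Y
      = ((θ - 1) / 2 * N - 366) * Y - (θ - 1) * (8 * Y) := by ring
  have e8 : ((2 - θ) * N - 15) * b = ((2 - θ) * N - 14) * b - b := by ring
  rw [e6, e7, e8]
  rw [e5, e1] at e4
  linarith

/-- exact bound for all graphs in the window -/
theorem W2_le_exact (h : IsPr P k) (hn : 20000 ≤ Fintype.card V) {θ : ℝ}
    (h1 : 6 / 5 ≤ θ) (h2 : θ ≤ 22 / 15)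
    (hk : (Fintype.card V : ℝ) * θ ≤ 2 * (k + 1)) :
    W2 P θ ≤ (2 - θ) * (k * (k + 1)) := by
  have hk0 : (0 : ℝ) ≤ k := Nat.cast_nonneg k
  by_cases hW : (2 - θ) * (k : ℝ) ^ 2 ≤ W2 P θ
  · obtain ⟨hN, -⟩ := NN_ge h hn h1 h2 hk hW
    have hs := stage1 h h1 h2
    have e1 : 0 ≤ NN P * max ((θ - 1) * (al P - 1)) ((2 - θ) * (1 - al P)) :=
      mul_nonneg (by linarith) (max_nonneg' (by linarith) (by linarith))
    have e2 : 0 ≤ ((θ - 1) / 2 * NN P - 366) * YM P :=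
      mul_nonneg (by nlinarith) h.YM_nonneg
    have e3 : 0 ≤ ((2 - θ) * NN P - 14) * be P :=
      mul_nonneg (by nlinarith) h.be_nonneg
    linarith
  · push Not at hW
    have : (2 - θ) * (k : ℝ) ^ 2 ≤ (2 - θ) * (k * (k + 1)) := by
      apply mul_le_mul_of_nonneg_left _ (by linarith)
      nlinarith
    linarith

theorem card_sub_mu_le : ((clM P).card : ℝ) - mu P ≤ 8 * YM P := by
  have : ((clM P).card : ℝ) - mu P = ∑ u ∈ clM P, (1 - P u u) := by
    rw [mu, Finset.sum_sub_distrib]; simp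
  rw [this, YM, Finset.mul_sum]
  refine Finset.sum_le_sum fun u hu => ?_
  have hu' := (Finset.mem_filter.1 hu).2
  nlinarith [hu'.1, hu'.2]

theorem clM_empty (h : IsPr P k) (hY : 602 * YM P ≤ 2) : clM P = ∅ := by
  by_contra hcon
  obtain ⟨u, hu⟩ := Finset.nonempty_iff_ne_empty.2 hcon
  have hu' := (Finset.mem_filter.1 hu).2
  have e1 : P u u * (1 - P u u) ≤ YM P := by
    rw [YM]
    exact Finset.single_le_sum (f := fun u => P u u * (1 - P u u))
      (fun v _ => mul_nonneg (h.nonneg v) (sub_nonneg.2 (h.le_one v))) hu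
  nlinarith [hu'.1, hu'.2]

theorem real_fin {N θ c Y s C b : ℝ} (hN1 : 9700 ≤ N) (h1 : 6 / 5 ≤ θ) (h2 : θ ≤ 22 / 15)
    (hc0 : 0 ≤ c) (hY0 : 0 ≤ Y)
    (hstar : (N - 1) * c + ((θ - 1) / 2 * N - 366 - 8 * (θ - 1)) * Y + C * b ≤ 2 * s)
    (hAG : 2 * s ≤ C * b + 2) :
    602 * Y ≤ 2 ∧ 9699 * c ≤ 2 ∧ C * b ≤ 2 * s := by
  have hcoefY : 602 ≤ (θ - 1) / 2 * N - 366 - 8 * (θ - 1) := by nlinarith
  have e1 : 9699 * c ≤ (N - 1) * c := mul_le_mul_of_nonneg_right (by linarith) hc0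
  have e2 : 602 * Y ≤ ((θ - 1) / 2 * N - 366 - 8 * (θ - 1)) * Y :=
    mul_le_mul_of_nonneg_right hcoefY hY0
  refine ⟨?_, ?_, ?_⟩ <;> linarith

theorem stage2 {G : SimpleGraph V} (hG : G.Connected) (h : IsPr P k)
    (hn : 20000 ≤ Fintype.card V)
    (h1 : 6 / 5 ≤ 2 * (k : ℝ) / Fintype.card V) (h2 : 2 * (k : ℝ) / Fintype.card V ≤ 22 / 15)
    (hF : Phi2 (Fintype.card V) k ≤ F2 G P (2 * k / Fintype.card V)) :
    clM P = ∅ ∧ (clT P).card = k + 1 ∧ be P ≤ 1 / 600 := by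
  have hne : Nonempty V := by
    rw [← Fintype.card_pos_iff]; omega
  have hlt := h.lt_card
  have hn2 : (20000 : ℝ) ≤ (Fintype.card V : ℝ) := by exact_mod_cast hn
  have hn0 : (0 : ℝ) < (Fintype.card V : ℝ) := by linarith
  have hk0 : (0 : ℝ) ≤ k := Nat.cast_nonneg k
  have hkn : (k : ℝ) + 1 ≤ (Fintype.card V : ℝ) := by exact_mod_cast hlt
  obtain ⟨θ, hθ⟩ : ∃ θ : ℝ, θ = 2 * (k : ℝ) / (Fintype.card V : ℝ) := ⟨_, rfl⟩
  have hnθ : (Fintype.card V : ℝ) * θ = 2 * k := by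
    rw [hθ]; field_simp
  have hPhi : Phi2 (Fintype.card V) k
      = (2 - θ) * (k * (k + 1)) - 2 * (θ - 1) * ((Fintype.card V : ℝ) - k - 1) := by
    rw [Phi2, hθ]
  rw [← hθ] at h1 h2 hF
  have hW2 := F2_le_W2 G P θ
  have hlow : (2 - θ) * (k : ℝ) ^ 2 ≤ W2 P θ := by
    have := real_low hk0 hkn hnθ
    linarith
  obtain ⟨hN1, hN2⟩ := NN_ge h hn h1 h2 (by rw [hnθ]; linarith) hlow
  have hTcard := card_clT P
  have hcls := card_classes (P := P)
  have hsum := h.sum_classes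
  have hY0 := h.YM_nonneg
  have hb0 := h.be_nonneg
  have hTne : (clT P).Nonempty := by
    rw [← Finset.card_pos]
    have hal0 : 0 ≤ al P := Finset.sum_nonneg fun u _ => sub_nonneg.2 (h.le_one u)
    have : (0 : ℝ) < (clT P).card := by rw [hTcard]; linarith
    exact_mod_cast this
  have hconn := F2_le_conn' hG h (θ := θ) (by linarith) hTne
  have hst := stage1 h h1 h2
  have hcls' : (NN P + al P) + (clM P).card + (clR P).card = (Fintype.card V : ℝ) := by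
    rw [← hTcard]; exact_mod_cast hcls
  have hM8 := card_sub_mu_le (P := P)
  have hc0 : 0 ≤ max ((θ - 1) * (al P - 1)) ((2 - θ) * (1 - al P)) :=
    max_nonneg' (by linarith) (by linarith)
  have hc1 : (θ - 1) * (al P - 1) ≤ max ((θ - 1) * (al P - 1)) ((2 - θ) * (1 - al P)) :=
    le_max_left _ _
  have hc2 : (2 - θ) * (1 - al P) ≤ max ((θ - 1) * (al P - 1)) ((2 - θ) * (1 - al P)) :=
    le_max_right _ _
  have hR0 : (0 : ℝ) ≤ (clR P).card := Nat.cast_nonneg _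
  have hMc0 : (0 : ℝ) ≤ (clM P).card := Nat.cast_nonneg _
  have hal0 : 0 ≤ al P := Finset.sum_nonneg fun u _ => sub_nonneg.2 (h.le_one u)
  have hstar := real_star h1 hPhi hF hconn hst hc1 hM8 hb0 hcls' hsum
  have hRN : ((clR P).card : ℝ) ≤ 21 / 20 * NN P := by
    have : ((clR P).card : ℝ) ≤ (Fintype.card V : ℝ) - NN P := by linarith
    linarith
  have hCN : 53 / 100 * NN P ≤ (2 - θ) * NN P - 15 := by nlinarith
  have hsq : √(((clR P).card : ℝ) * be P) ^ 2 = ((clR P).card : ℝ) * be P :=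
    Real.sq_sqrt (mul_nonneg hR0 hb0)
  have hAG := real_AG hsq (by linarith : 0 < (2 - θ) * NN P - 15) hb0 (by linarith)
  obtain ⟨hY2, hc3, hCb⟩ := real_fin hN1 h1 h2 hc0 hY0 hstar hAG
  have hMe := clM_empty h hY2
  have hb1 := real_b hsq hCN hN1 hb0 hRN hCb
  refine ⟨hMe, ?_, hb1⟩
  have hM0 : ((clM P).card : ℝ) = 0 := by rw [hMe]; simp
  have hmu0 : mu P = 0 := by rw [mu, hMe]; simp
  have e1 : ((clT P).card : ℝ) - (k + 1) = al P - 1 - be P := by linarith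
  clear hstar hAG hst hconn hF hPhi hlow hW2 hCN hsq hCb
  have e2 : al P - 1 ≤ 1 / 100 := by nlinarith
  have e3 : -(1 / 100) ≤ al P - 1 := by nlinarith
  have e4 : ((clT P).card : ℝ) < (k : ℝ) + 1 + 1 := by linarith
  have e5 : (k : ℝ) + 1 < (clT P).card + 1 := by linarith
  have e6 : (clT P).card < k + 1 + 1 := by exact_mod_cast e4
  have e7 : k + 1 < (clT P).card + 1 := by exact_mod_cast e5
  omega

end LapEn
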