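import Pool.Agent.LapEn.Facts
import Pool.Agent.LapEn.Conn

/-! # STRUCT: passing to a clique with pendant vertices -/

open Finset Matrix

namespace LapEn

variable {V : Type*} [Fintype V] [DecidableEq V]
variable {P : Matrix V V ℝ} {k : ℕ}

/-- `F2` of a clique with pendant edges. -/
theorem struct_F2_pend (h : IsPr P k) (θ : ℝ) (T : Finset V) (π : V → V)
    (h1 : ∀ v, v ∉ T → π v ≠ v) (h2 : ∀ u v, u ∉ T → v ∉ T → π u = v → π v = u → False) :
    F2 (pend T π) P θ = ∑ u, ∑ v, (if u ∈ T ∧ v ∈ T ∧ u ≠ v then dd P u v - θ else 0) +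
      2 * ∑ v ∈ univ.filter (fun v => v ∉ T), (dd P v (π v) - θ) := by
  classical
  have e1 : ∀ u v, (if (pend T π).Adj u v then dd P u v - θ else 0) =
      (if u ∈ T ∧ v ∈ T ∧ u ≠ v then dd P u v - θ else 0) +
        (if u ∉ T ∧ v = π u then dd P u v - θ else 0) +
        (if v ∉ T ∧ u = π v then dd P u v - θ else 0) := by
    intro u v
    by_cases hu : u ∈ T
    · by_cases hv : v ∈ T
      · by_cases huv : u = v
        · rw [if_neg, if_neg, if_neg, if_neg]
          · ring
          · rintro ⟨h3, -⟩; exact h3 hv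
          · rintro ⟨h3, -⟩; exact h3 hu
          · rintro ⟨-, -, h3⟩; exact h3 huv
          · rintro ⟨h3, -⟩; exact h3 huv
        · rw [if_pos, if_pos, if_neg, if_neg]
          · ring
          · rintro ⟨h3, -⟩; exact h3 hv
          · rintro ⟨h3, -⟩; exact h3 hu
          · exact ⟨hu, hv, huv⟩
          · exact ⟨huv, Or.inl ⟨hu, hv⟩⟩
      · by_cases h3 : u = π v
        · rw [if_pos, if_neg, if_neg, if_pos]
          · ring
          · exact ⟨hv, h3⟩
          · rintro ⟨h4, -⟩; exact h4 hu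
          · rintro ⟨-, h4, -⟩; exact hv h4
          · refine ⟨fun h4 => h1 v hv (h3.symm.trans h4), Or.inr (Or.inr ⟨hv, h3⟩)⟩
        · rw [if_neg, if_neg, if_neg, if_neg]
          · ring
          · rintro ⟨-, h4⟩; exact h3 h4
          · rintro ⟨h4, -⟩; exact h4 hu
          · rintro ⟨-, h4, -⟩; exact hv h4
          · rintro ⟨-, h4 | h4 | h4⟩
            · exact hv h4.2
            · exact h4.1 hu
            · exact h3 h4.2
    · by_cases h3 : v = π u
      · rw [if_pos, if_neg, if_pos, if_neg]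
        · ring
        · rintro ⟨h4, h5⟩
          exact h2 u v hu h4 h3.symm h5.symm
        · exact ⟨hu, h3⟩
        · rintro ⟨h4, -⟩; exact hu h4
        · exact ⟨fun h4 => h1 u hu (h3.symm.trans h4.symm), Or.inr (Or.inl ⟨hu, h3⟩)⟩
      · by_cases h4 : v ∉ T ∧ u = π v
        · rw [if_pos, if_neg, if_neg, if_pos h4]
          · ring
          · rintro ⟨-, h5⟩; exact h3 h5
          · rintro ⟨h5, -⟩; exact hu h5
          · exact ⟨fun h5 => h1 v h4.1 (h4.2.symm.trans h5), Or.inr (Or.inr h4)⟩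
        · rw [if_neg, if_neg, if_neg, if_neg h4]
          · ring
          · rintro ⟨-, h5⟩; exact h3 h5
          · rintro ⟨h5, -⟩; exact hu h5
          · rintro ⟨-, h5 | h5 | h5⟩
            · exact hu h5.1
            · exact h3 h5.2
            · exact h4 h5
  have e2 : F2 (pend T π) P θ = ∑ u, ∑ v, ((if u ∈ T ∧ v ∈ T ∧ u ≠ v then dd P u v - θ else 0) +
        (if u ∉ T ∧ v = π u then dd P u v - θ else 0) +
        (if v ∉ T ∧ u = π v then dd P u v - θ else 0)) := by
    unfold F2
    refine Finset.sum_congr rfl fun u _ => Finset.sum_congr rfl fun v _ => ?_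
    rw [← e1 u v]
  have e3 : ∑ u, ∑ v, (if u ∉ T ∧ v = π u then dd P u v - θ else 0) =
      ∑ v ∈ univ.filter (fun v => v ∉ T), (dd P v (π v) - θ) := by
    rw [Finset.sum_filter]
    refine Finset.sum_congr rfl fun u _ => ?_
    by_cases hu : u ∈ T
    · rw [if_neg (not_not.2 hu)]
      refine Finset.sum_eq_zero fun v _ => ?_
      rw [if_neg (fun h3 => h3.1 hu)]
    · rw [if_pos hu, Finset.sum_eq_single (π u)]
      · rw [if_pos ⟨hu, rfl⟩]
      · intro v _ hv
        rw [if_neg (fun h3 => hv h3.2)]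
      · intro h3; exact absurd (Finset.mem_univ _) h3
  have e4 : ∑ u, ∑ v, (if v ∉ T ∧ u = π v then dd P u v - θ else 0) =
      ∑ v ∈ univ.filter (fun v => v ∉ T), (dd P v (π v) - θ) := by
    rw [Finset.sum_comm, ← e3]
    refine Finset.sum_congr rfl fun u _ => Finset.sum_congr rfl fun v _ => ?_
    rw [dd_comm h]
  rw [e2]
  simp only [Finset.sum_add_distrib]
  rw [e3, e4]
  ring

theorem struct_sqrt {x : ℝ} (hx : x ≤ 1 / 600) : √x ≤ 41 / 1000 := by
  rw [Real.sqrt_le_left (by norm_num)]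
  norm_num
  linarith

theorem struct_step {G : SimpleGraph V} (hG : G.Connected) (h : IsPr P k) {θ : ℝ}
    (h1 : 6 / 5 ≤ θ) (h2 : θ ≤ 22 / 15)
    (hM : clM P = ∅) (hT : (clT P).Nonempty) (hb : be P ≤ 1 / 600) :
    ∃ g : V → V, (∀ v, v ∉ clT P → g v ∈ clT P) ∧
      F2 G P θ ≤ F2 (pend (clT P) g) P θ ∧
      (F2 G P θ = F2 (pend (clT P) g) P θ → G = pend (clT P) g) := by
  classical
  obtain ⟨r0, hr0⟩ := hT
  obtain ⟨π, hπ1, hπ2⟩ := exists_parent hG r0
  set T := clT P with hTd
  have hmemT : ∀ u, u ∈ T ↔ 7 / 8 ≤ P u u := fun u => by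
    rw [hTd, clT, Finset.mem_filter]
    exact ⟨fun h => h.2, fun h => ⟨Finset.mem_univ _, h⟩⟩
  have hsmall : ∀ u, u ∉ T → P u u ≤ 1 / 600 := by
    intro u hu
    rw [hmemT, not_le] at hu
    have h3 : P u u ≤ 1 / 8 := by
      by_contra h4
      rw [not_le] at h4
      have h5 : u ∈ clM P := by
        rw [clM, Finset.mem_filter]
        exact ⟨Finset.mem_univ _, h4, hu⟩
      rw [hM] at h5
      exact absurd h5 (Finset.notMem_empty _)
    have h4 : P u u ≤ be P := by
      unfold be
      exact Finset.single_le_sum (f := fun v => P v v) (fun v _ => h.nonneg v)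
        (by rw [clR, Finset.mem_filter]; exact ⟨Finset.mem_univ _, h3⟩)
    linarith
  have hr : ∀ u, u ∉ T → u ≠ r0 := fun u hu h3 => hu (h3 ▸ hr0)
  -- the values of `D`
  have dTT : ∀ u v, u ∈ T → v ∈ T → u ≠ v → θ < dd P u v := by
    intro u v hu hv huv
    rw [hmemT] at hu hv
    have h3 := h.dd_ge huv
    have h4 : ∀ x : ℝ, 7 / 8 ≤ x → √(1 - x) ≤ 36 / 100 := by
      intro x hx
      rw [Real.sqrt_le_left (by norm_num)]
      norm_num
      linarith
    have h5 := h4 _ hu
    have h6 := h4 _ hv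
    have h7 := Real.sqrt_nonneg (1 - P u u)
    have h8 := Real.sqrt_nonneg (1 - P v v)
    nlinarith
  have dR : ∀ u v, v ∉ T → dd P u v < 6 / 5 := by
    intro u v hv
    have h3 := h.dd_le u v
    have h4 := struct_sqrt (hsmall v hv)
    have h5 : √(P u u) ≤ 1 := by
      rw [Real.sqrt_le_left (by norm_num)]
      simpa using h.le_one u
    have h7 := Real.sqrt_nonneg (P u u)
    have h8 := Real.sqrt_nonneg (P v v)
    nlinarith
  have dnot : ∀ u v, ¬ (u ∈ T ∧ v ∈ T) → dd P u v < θ := by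
    intro u v huv
    by_cases hv : v ∈ T
    · have hu : u ∉ T := fun h3 => huv ⟨h3, hv⟩
      rw [dd_comm h]
      exact (dR v u hu).trans_le h1
    · exact (dR u v hv).trans_le h1
  have dRR : ∀ u v, u ∉ T → v ∉ T → dd P u v ≤ 1 / 100 := by
    intro u v hu hv
    have h3 := h.dd_le u v
    have h4 := struct_sqrt (hsmall v hv)
    have h5 := struct_sqrt (hsmall u hu)
    have h7 := Real.sqrt_nonneg (P u u)
    have h8 := Real.sqrt_nonneg (P v v)
    nlinarith
  have dRT : ∀ u v, u ∉ T → v ∈ T → 1 / 2 < dd P u v := by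
    intro u v hu hv
    have h3 := h.sq_le u v
    have h4 := hsmall u hu
    have h5 := h.le_one v
    have h6 := h.nonneg u
    have h7 := h.nonneg v
    rw [hmemT] at hv
    have h8 : P u v ^ 2 ≤ 1 / 600 := by nlinarith
    have h9 : P u v ≤ 1 / 10 := by nlinarith
    unfold dd
    linarith
  -- step 1
  have hsplit : ∀ u v, (if G.Adj u v then dd P u v - θ else 0) ≤
      (if (pend T π).Adj u v then dd P u v - θ else 0) := by
    intro u v
    by_cases huv : u = v
    · rw [if_neg (fun h3 => h3.ne huv), if_neg (fun h3 => h3.ne huv)]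
    by_cases hT' : u ∈ T ∧ v ∈ T
    · have h3 := dTT u v hT'.1 hT'.2 huv
      rw [if_pos (show (pend T π).Adj u v from ⟨huv, Or.inl hT'⟩)]
      split_ifs <;> linarith
    · have h3 := dnot u v hT'
      by_cases h4 : (pend T π).Adj u v
      · have h5 : G.Adj u v := by
          rcases h4.2 with h5 | h5 | h5
          · exact absurd h5 hT'
          · rw [h5.2]; exact hπ1 u (hr u h5.1)
          · rw [h5.2]; exact (hπ1 v (hr v h5.1)).symm
        rw [if_pos h4, if_pos h5]
      · rw [if_neg h4]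
        split_ifs <;> linarith
  have hF1 : F2 G P θ = ∑ u, ∑ v, (if G.Adj u v then dd P u v - θ else 0) := by
    unfold F2
    refine Finset.sum_congr rfl fun u _ => Finset.sum_congr rfl fun v _ => ?_
    rfl
  have hF1' : F2 (pend T π) P θ =
      ∑ u, ∑ v, (if (pend T π).Adj u v then dd P u v - θ else 0) := by
    unfold F2
    refine Finset.sum_congr rfl fun u _ => Finset.sum_congr rfl fun v _ => ?_
    rfl
  have hle1 : F2 G P θ ≤ F2 (pend T π) P θ := by
    rw [hF1, hF1']
    exact Finset.sum_le_sum fun u _ => Finset.sum_le_sum fun v _ => hsplit u v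
  have heq1 : F2 G P θ = F2 (pend T π) P θ → G = pend T π := by
    intro he
    rw [hF1, hF1'] at he
    have h3 := (Finset.sum_eq_sum_iff_of_le (fun u _ =>
      Finset.sum_le_sum fun v _ => hsplit u v)).1 he
    ext u v
    have h4 := (Finset.sum_eq_sum_iff_of_le (fun v _ => hsplit u v)).1 (h3 u (Finset.mem_univ _))
      v (Finset.mem_univ _)
    by_cases huv : u = v
    · exact ⟨fun h5 => absurd huv h5.ne, fun h5 => absurd huv h5.ne⟩
    have h5 : dd P u v - θ ≠ 0 := by
      by_cases hT' : u ∈ T ∧ v ∈ T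
      · have := dTT u v hT'.1 hT'.2 huv
        intro h6
        linarith
      · have := dnot u v hT'
        intro h6
        linarith
    constructor
    · intro h6
      by_contra h7
      rw [if_pos h6, if_neg h7] at h4
      exact h5 h4
    · intro h6
      by_contra h7
      rw [if_pos h6, if_neg h7] at h4
      exact h5 h4.symm
  -- step 2
  set g : V → V := fun v => if π v ∈ T then π v else r0 with hg
  have hgT : ∀ v, g v ∈ T := by
    intro v
    change (if π v ∈ T then π v else r0) ∈ T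
    split_ifs with h3
    · exact h3
    · exact hr0
  have hgp : ∀ v, π v ∈ T → g v = π v := fun v hv => if_pos hv
  have e1 := struct_F2_pend h θ T π (fun v hv h3 => (hπ1 v (hr v hv)).ne h3.symm)
    (fun u v hu hv => hπ2 u v (hr u hu) (hr v hv))
  have e2 := struct_F2_pend h θ T g (fun v hv h3 => hv (h3 ▸ hgT v))
    (fun u v hu hv h3 _ => hv (h3 ▸ hgT u))
  have hterm : ∀ v ∈ univ.filter (fun v => v ∉ T), dd P v (π v) - θ ≤ dd P v (g v) - θ := by
    intro v hv
    rw [Finset.mem_filter] at hv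
    by_cases h3 : π v ∈ T
    · rw [hgp v h3]
    · have h4 := dRR v (π v) hv.2 h3
      have h5 := dRT v (g v) hv.2 (hgT v)
      linarith
  have hle2 : F2 (pend T π) P θ ≤ F2 (pend T g) P θ := by
    rw [e1, e2]
    have := Finset.sum_le_sum hterm
    linarith
  refine ⟨g, fun v _ => hgT v, hle1.trans hle2, fun he => ?_⟩
  have he1 : F2 G P θ = F2 (pend T π) P θ := le_antisymm hle1 (by rw [he]; exact hle2)
  have he2 : F2 (pend T π) P θ = F2 (pend T g) P θ := he1.symm.trans he
  rw [heq1 he1]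
  rw [e1, e2] at he2
  have h3 : ∑ v ∈ univ.filter (fun v => v ∉ T), (dd P v (π v) - θ) =
      ∑ v ∈ univ.filter (fun v => v ∉ T), (dd P v (g v) - θ) := by linarith
  have h4 := (Finset.sum_eq_sum_iff_of_le hterm).1 h3
  have h5 : ∀ v, v ∉ T → g v = π v := by
    intro v hv
    by_cases h6 : π v ∈ T
    · exact hgp v h6
    · have h7 := dRR v (π v) hv h6
      have h8 := dRT v (g v) hv (hgT v)
      have h9 := h4 v (by rw [Finset.mem_filter]; exact ⟨Finset.mem_univ _, hv⟩)
      linarith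
  ext u v
  constructor
  · rintro ⟨huv, h6 | h6 | h6⟩
    · exact ⟨huv, Or.inl h6⟩
    · exact ⟨huv, Or.inr (Or.inl ⟨h6.1, by rw [h5 u h6.1]; exact h6.2⟩)⟩
    · exact ⟨huv, Or.inr (Or.inr ⟨h6.1, by rw [h5 v h6.1]; exact h6.2⟩)⟩
  · rintro ⟨huv, h6 | h6 | h6⟩
    · exact ⟨huv, Or.inl h6⟩
    · exact ⟨huv, Or.inr (Or.inl ⟨h6.1, by rw [← h5 u h6.1]; exact h6.2⟩)⟩
    · exact ⟨huv, Or.inr (Or.inr ⟨h6.1, by rw [← h5 v h6.1]; exact h6.2⟩)⟩

end LapEn
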