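import Pool.Agent.LapEn.Stage2
import Pool.Agent.LapEn.Struct
import Pool.Agent.LapEn.Num
import Pool.Agent.LapEn.Compl
import Pool.Agent.LapEn.Pend

/-! # UPPER: the upper bound for `n ≥ 20000` -/

open Finset Matrix

namespace LapEn

variable {V : Type*} [Fintype V] [DecidableEq V]
variable {P : Matrix V V ℝ} {k : ℕ}

/-- the regime `2 k < n` -/
theorem upper_low [Nonempty V] (G : SimpleGraph V) (h : IsPr P k)
    (hn : 20000 ≤ Fintype.card V) (hk : 2 * k < Fintype.card V) :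
    F2 G P (2 * k / Fintype.card V) < Phi2 (Fintype.card V) (2 * Fintype.card V / 3) := by
  set n := Fintype.card V with hnn
  have hn0 : (0 : ℝ) < n := by
    have : (20000 : ℝ) ≤ n := by exact_mod_cast hn
    linarith
  have hn6 : 6 ≤ n := by omega
  have hlt := h.lt_card
  have hQ : IsPr (coP P) (n - 1 - k) := h.coP
  have hW := W2_coP h
  have hF := F2_le_W2 G P (2 * k / n)
  have hge := Phi2_ge hn6
  set θ : ℝ := 2 * ((n : ℝ) - k) / n with hθ
  have hkn : (k : ℝ) + 1 ≤ n := by exact_mod_cast hlt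
  have hk2 : 2 * (k : ℝ) + 1 ≤ n := by exact_mod_cast hk
  have hcast : ((n - 1 - k : ℕ) : ℝ) = n - 1 - k := by
    rw [Nat.cast_sub (by omega), Nat.cast_sub (by omega)]; push_cast; ring
  have hnθ : (n : ℝ) * θ = 2 * (n - k) := by
    rw [hθ]; field_simp
  have hθ1 : 1 ≤ θ := by
    rw [hθ, le_div_iff₀ hn0]; linarith
  have hθ2 : θ ≤ 2 := by
    rw [hθ, div_le_iff₀ hn0]
    have : (0 : ℝ) ≤ k := Nat.cast_nonneg _
    linarith
  by_cases hbig : 8 * (n : ℝ) ^ 2 / 27 ≤ W2 (coP P) θ + n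
  · obtain ⟨h1, h2⟩ := localize hQ hn hθ1 hθ2 (by rw [hcast]; rw [← hnn, hnθ]; linarith) hbig
    have h3 := W2_le_exact hQ hn h1 h2 (by rw [hcast, ← hnn, hnθ]; linarith)
    rw [hcast] at h3
    have h4 := compl_lt (n := n) (K := n - k) hn6 (by omega) (by omega)
    have hc2 : ((n - k : ℕ) : ℝ) = n - k := by
      rw [Nat.cast_sub (by omega)]
    rw [hc2] at h4
    have e1 : (2 - θ) * (((n : ℝ) - 1 - k) * (((n : ℝ) - 1 - k) + 1))
        = (2 - 2 * ((n : ℝ) - k) / n) * (((n : ℝ) - k - 1) * (n - k)) := by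
      rw [hθ]; ring
    rw [e1] at h3
    rw [hW] at hF
    linarith
  · push Not at hbig
    rw [hW] at hF
    linarith

/-- the regime `n ≤ 2 k` -/
theorem upper_high [Nonempty V] {G : SimpleGraph V} (hG : G.Connected) (h : IsPr P k)
    (hn : 20000 ≤ Fintype.card V) (hk : Fintype.card V ≤ 2 * k) :
    F2 G P (2 * k / Fintype.card V) ≤ Phi2 (Fintype.card V) (2 * Fintype.card V / 3) ∧
    (F2 G P (2 * k / Fintype.card V) = Phi2 (Fintype.card V) (2 * Fintype.card V / 3) →
      k = 2 * Fintype.card V / 3 ∧ ∃ (T : Finset V) (g : V → V), T.card = k + 1 ∧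
        (∀ v, v ∉ T → g v ∈ T) ∧ (∀ v w, v ∉ T → w ∉ T → g v = g w) ∧ G = pend T g) := by
  set n := Fintype.card V with hnn
  have hn0 : (0 : ℝ) < n := by
    have : (20000 : ℝ) ≤ n := by exact_mod_cast hn
    linarith
  have hn6 : 6 ≤ n := by omega
  have hlt := h.lt_card
  have hF := F2_le_W2 G P (2 * k / n)
  have hge := Phi2_ge hn6
  set θ : ℝ := 2 * (k : ℝ) / n with hθ
  have hkn : (k : ℝ) + 1 ≤ n := by exact_mod_cast hlt
  have hk2 : (n : ℝ) ≤ 2 * k := by exact_mod_cast hk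
  have hnθ : (n : ℝ) * θ = 2 * k := by
    rw [hθ]; field_simp
  have hθ1 : 1 ≤ θ := by
    rw [hθ, le_div_iff₀ hn0]; linarith
  have hθ2 : θ ≤ 2 := by
    rw [hθ, div_le_iff₀ hn0]
    linarith
  have hkle : k ≤ n := by omega
  by_cases hbig : 8 * (n : ℝ) ^ 2 / 27 ≤ W2 P θ + n
  · obtain ⟨h1, h2⟩ := localize h hn hθ1 hθ2 (by rw [← hnn, hnθ]) hbig
    by_cases hPhi : Phi2 n k ≤ F2 G P θ
    · obtain ⟨hM, hT, hb⟩ := stage2 hG h hn h1 h2 hPhi
      have hTn : (clT P).Nonempty := by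
        rw [← Finset.card_pos, hT]; omega
      obtain ⟨g, hg, hle, heq⟩ := struct_step hG h h1 h2 hM hTn hb
      have hkk : 3 * (n : ℝ) ≤ 5 * k := by
        rw [le_div_iff₀ hn0] at h1
        linarith
      have hkk' : 3 * n ≤ 5 * k := by exact_mod_cast hkk
      obtain ⟨hp1, hp2⟩ := pend_le h (clT P) g hT hg (by omega) (by omega)
      have hth := F2_pend_theta (clT P) g hT hg P θ
      rw [← hnn] at hp1 hp2 hth
      have hval : 2 * ((k : ℝ) * (k + 1) + ((n : ℝ) - (k + 1)))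
          - θ * (k * (k + 1) + 2 * ((n : ℝ) - (k + 1))) = Phi2 n k := by
        rw [Phi2, ← hθ]; ring
      have hPk := Phi2_le hn6 hkle
      refine ⟨by linarith, fun he => ?_⟩
      have e1 : Phi2 n k = Phi2 n (2 * n / 3) := by linarith
      have e2 := Phi2_eq hn6 hkle e1
      refine ⟨e2, clT P, g, hT, hg, hp2 (by linarith), heq (by linarith)⟩
    · push Not at hPhi
      have hPk := Phi2_le hn6 hkle
      exact ⟨by linarith, fun he => by linarith⟩
  · push Not at hbig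
    exact ⟨by linarith, fun he => by linarith⟩

theorem upper [Nonempty V] {G : SimpleGraph V} (hG : G.Connected) (h : IsPr P k)
    (hn : 20000 ≤ Fintype.card V) :
    F2 G P (2 * k / Fintype.card V) ≤ Phi2 (Fintype.card V) (2 * Fintype.card V / 3) ∧
    (F2 G P (2 * k / Fintype.card V) = Phi2 (Fintype.card V) (2 * Fintype.card V / 3) →
      k = 2 * Fintype.card V / 3 ∧ ∃ (T : Finset V) (g : V → V), T.card = k + 1 ∧
        (∀ v, v ∉ T → g v ∈ T) ∧ (∀ v w, v ∉ T → w ∉ T → g v = g w) ∧ G = pend T g) := by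
  by_cases hk : 2 * k < Fintype.card V
  · have := upper_low G h hn hk
    exact ⟨this.le, fun he => absurd he this.ne⟩
  · exact upper_high hG h hn (by omega)

end LapEn
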